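import Pool.Agent.H99.TB.Eul

/-! From relative coordinates to Newton's equations. -/

set_option autoImplicit false

namespace Pool.Agent.H99.TB

open Set Filter Topology

namespace New

theorem conf0 (m : Fin 3 → ℝ) (x : E) : conf m x 0 =
    -((m 1 : ℂ) * x.1 + (m 2 : ℂ) * (x.1 + x.2)) / ((m 0 + m 1 + m 2 : ℝ) : ℂ) := rfl

theorem conf1 (m : Fin 3 → ℝ) (x : E) : conf m x 1 = conf m x 0 + x.1 := rfl

theorem conf2 (m : Fin 3 → ℝ) (x : E) : conf m x 2 = conf m x 0 + x.1 + x.2 := rfl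

theorem conf_deriv (m : Fin 3 → ℝ) {g : ℝ → E} {g' : E} {t : ℝ} (h : HasDerivAt g g' t)
    (a : Fin 3) : HasDerivAt (fun s => conf m (g s) a) (conf m g' a) t := by
  have h1 : HasDerivAt (fun s => (g s).1) g'.1 t := h.fst
  have h2 : HasDerivAt (fun s => (g s).2) g'.2 t := h.snd
  have h0 : HasDerivAt (fun s => conf m (g s) 0) (conf m g' 0) t := by
    simp only [conf0]
    exact (((h1.const_mul (m 1 : ℂ)).add ((h1.add h2).const_mul (m 2 : ℂ))).neg).div_const _
  fin_cases a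
  · exact h0
  · exact h0.add h1
  · exact (h0.add h1).add h2

theorem conf_sum (m : Fin 3 → ℝ) (hm : ∀ a, 0 < m a) (x : E) :
    ∑ a, (m a : ℂ) * conf m x a = 0 := by
  have hM : ((m 0 : ℂ) + m 1 + m 2) ≠ 0 := by
    have : (0 : ℝ) < m 0 + m 1 + m 2 := by have := hm 0; have := hm 1; have := hm 2; linarith
    exact_mod_cast this.ne'
  rw [Fin.sum_univ_three, conf1, conf2, conf0]
  push_cast
  field_simp
  ring

theorem acc_conf (m : Fin 3 → ℝ) (hm : ∀ a, 0 < m a) {ρ : ℂ} (hρ : ‖ρ‖ = 1) (x : E) (a : Fin 3) :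
    acc m (fun b => ρ * conf m x b) a = ρ * conf m (rf kep (m 0) (m 1) (m 2) x) a := by
  have hM : ((m 0 : ℂ) + m 1 + m 2) ≠ 0 := by
    have : (0 : ℝ) < m 0 + m 1 + m 2 := by have := hm 0; have := hm 1; have := hm 2; linarith
    exact_mod_cast this.ne'
  have k10 : kep (ρ * conf m x 1 - ρ * conf m x 0) = ρ * kep x.1 := by
    rw [← kep_rot hρ, conf1]; congr 1; ring
  have k21 : kep (ρ * conf m x 2 - ρ * conf m x 1) = ρ * kep x.2 := by
    rw [← kep_rot hρ, conf1, conf2]; congr 1; ring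
  have k20 : kep (ρ * conf m x 2 - ρ * conf m x 0) = ρ * kep (x.1 + x.2) := by
    rw [← kep_rot hρ, conf2]; congr 1; ring
  have k01 : kep (ρ * conf m x 0 - ρ * conf m x 1) = -(ρ * kep x.1) := by
    rw [← k10, ← kep_neg]; congr 1; ring
  have k12 : kep (ρ * conf m x 1 - ρ * conf m x 2) = -(ρ * kep x.2) := by
    rw [← k21, ← kep_neg]; congr 1; ring
  have k02 : kep (ρ * conf m x 0 - ρ * conf m x 2) = -(ρ * kep (x.1 + x.2)) := by
    rw [← k20, ← kep_neg]; congr 1; ring
  fin_cases a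
  · show acc m (fun b => ρ * conf m x b) 0 = ρ * conf m (rf kep (m 0) (m 1) (m 2) x) 0
    rw [acc0, k10, k20, conf0, rf]
    push_cast
    field_simp
    ring
  · show acc m (fun b => ρ * conf m x b) 1 = ρ * conf m (rf kep (m 0) (m 1) (m 2) x) 1
    rw [acc1, k01, k21, conf1, conf0, rf]
    push_cast
    field_simp
    ring
  · show acc m (fun b => ρ * conf m x b) 2 = ρ * conf m (rf kep (m 0) (m 1) (m 2) x) 2
    rw [acc2, k02, k12, conf2, conf0, rf]
    push_cast
    field_simp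
    ring

theorem main : S_NEW := by
  intro m hm ρ hρ γ t hu hw hs hγ
  have hρ0 : ρ ≠ 0 := by rw [← norm_pos_iff, hρ]; exact one_pos
  refine ⟨⟨?_, ?_, ?_⟩, ?_⟩
  · intro a b hab h
    have h1 : conf m (γ t).1 a = conf m (γ t).1 b := mul_left_cancel₀ hρ0 h
    have e10 : conf m (γ t).1 1 - conf m (γ t).1 0 = (γ t).1.1 := by rw [conf1]; ring
    have e21 : conf m (γ t).1 2 - conf m (γ t).1 1 = (γ t).1.2 := by rw [conf1, conf2]; ring
    have e20 : conf m (γ t).1 2 - conf m (γ t).1 0 = (γ t).1.1 + (γ t).1.2 := by rw [conf2]; ring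
    revert h1 hab
    fin_cases a <;> fin_cases b
    · simp
    · intro _ h1
      exact hu (by rw [← e10]; exact sub_eq_zero.2 h1.symm)
    · intro _ h1
      exact hs (by rw [← e20]; exact sub_eq_zero.2 h1.symm)
    · intro _ h1
      exact hu (by rw [← e10]; exact sub_eq_zero.2 h1)
    · simp
    · intro _ h1
      exact hw (by rw [← e21]; exact sub_eq_zero.2 h1.symm)
    · intro _ h1
      exact hs (by rw [← e20]; exact sub_eq_zero.2 h1)
    · intro _ h1
      exact hw (by rw [← e21]; exact sub_eq_zero.2 h1)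
    · simp
  · show ∑ a, (m a : ℂ) * (ρ * conf m (γ t).1 a) = 0
    have : ∑ a, (m a : ℂ) * (ρ * conf m (γ t).1 a) = ρ * ∑ a, (m a : ℂ) * conf m (γ t).1 a := by
      rw [Finset.mul_sum]
      exact Finset.sum_congr rfl fun a _ => by ring
    rw [this, conf_sum m hm, mul_zero]
  · show ∑ a, (m a : ℂ) * (ρ * conf m (γ t).2 a) = 0
    have : ∑ a, (m a : ℂ) * (ρ * conf m (γ t).2 a) = ρ * ∑ a, (m a : ℂ) * conf m (γ t).2 a := by
      rw [Finset.mul_sum]
      exact Finset.sum_congr rfl fun a _ => by ring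
    rw [this, conf_sum m hm, mul_zero]
  · have h1 : HasDerivAt (fun s => (γ s).1) (γ t).2 t := hγ.fst
    have h2 : HasDerivAt (fun s => (γ s).2) (rf kep (m 0) (m 1) (m 2) (γ t).1) t := hγ.snd
    refine HasDerivAt.prodMk ?_ ?_
    · rw [hasDerivAt_pi]
      intro a
      exact (conf_deriv m h1 a).const_mul ρ
    · rw [hasDerivAt_pi]
      intro a
      rw [acc_conf m hm hρ]
      exact (conf_deriv m h2 a).const_mul ρ

end New

end Pool.Agent.H99.TB
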