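import Pool.Agent.H99.TB.Ker

/-! The comparison lemma: a solution of the regularised equations stays close to an approximate
solution. -/

set_option autoImplicit false

namespace Pool.Agent.H99.TB

open Set Filter Topology

theorem norm_ge_sub {x y : ℂ} {r R : ℝ} (hx : r + R ≤ ‖x‖) (hxy : ‖y - x‖ ≤ R) : r ≤ ‖y‖ := by
  have := norm_sub_norm_le x (x - y)
  rw [sub_sub_cancel] at this
  rw [norm_sub_rev] at hxy
  linarith

/-- Comparison. `p` (with derivatives `pd`, `pdd`) is an approximate solution on `[α, β)` with defect `δ`,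
`b` a barrier with `b' > K b + δ`, the weighted distance being `max (κ ‖x - p‖, ‖v - pd‖)`. -/
theorem compare {ε B m1 m2 m3 : ℝ} (h1 : 0 ≤ m1) (h2 : 0 ≤ m2)
    (h3 : 0 ≤ m3) {γ : ℝ → E × E} (hγ : ∀ t, HasDerivAt γ (fld ε B m1 m2 m3 (γ t)) t) (hB : 0 < B)
    {p pd pdd : ℝ → E} (hp : ∀ t, HasDerivAt p (pd t) t) (hpd : ∀ t, HasDerivAt pd (pdd t) t)
    {α β κ K R L r1 r2 r3 : ℝ} {b b' δ : ℝ → ℝ} (hb : ∀ t, HasDerivAt b (b' t) t)
    (hκ : 0 < κ) (hr1 : 0 < r1) (hr2 : 0 < r2) (hr3 : 0 < r3)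
    (hε1 : ε ≤ r1) (hε2 : ε ≤ r2) (hε3 : ε ≤ r3)
    (hp1 : ∀ t ∈ Ico α β, r1 + R ≤ ‖(p t).1‖) (hp2 : ∀ t ∈ Ico α β, r2 + R ≤ ‖(p t).2‖)
    (hp3 : ∀ t ∈ Ico α β, r3 + 2 * R ≤ ‖(p t).1 + (p t).2‖)
    (hv : ∀ t ∈ Ico α β, ‖pd t‖ + κ * R ≤ B)
    (hL1 : (m1 + m2) * (2 / r1 ^ 3) + m3 * (2 / r2 ^ 3 + 2 * (2 / r3 ^ 3)) ≤ L)
    (hL2 : (m2 + m3) * (2 / r2 ^ 3) + m1 * (2 / r1 ^ 3 + 2 * (2 / r3 ^ 3)) ≤ L)
    (hκK : κ ≤ K) (hLK : L ≤ K * κ)
    (hδ : ∀ t ∈ Ico α β, ‖pdd t - rf kep m1 m2 m3 (p t)‖ ≤ δ t)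
    (hbR : ∀ t ∈ Ico α β, b t ≤ κ * R)
    (hbb : ∀ t ∈ Ico α β, K * b t + δ t < b' t)
    (h0 : max (κ * ‖(γ α).1 - p α‖) ‖(γ α).2 - pd α‖ ≤ b α) :
    ∀ t ∈ Icc α β, max (κ * ‖(γ t).1 - p t‖) ‖(γ t).2 - pd t‖ ≤ b t := by
  set f : ℝ → E × E := fun t => (κ • ((γ t).1 - p t), (γ t).2 - pd t) with hf
  have hfn : ∀ t, ‖f t‖ = max (κ * ‖(γ t).1 - p t‖) ‖(γ t).2 - pd t‖ := by
    intro t
    rw [hf]
    show max ‖κ • ((γ t).1 - p t)‖ ‖(γ t).2 - pd t‖ = _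
    rw [norm_smul, Real.norm_of_nonneg hκ.le]
  have hγ1 : ∀ t, HasDerivAt (fun s => (γ s).1) (fld ε B m1 m2 m3 (γ t)).1 t := fun t =>
    (hγ t).fst
  have hγ2 : ∀ t, HasDerivAt (fun s => (γ s).2) (fld ε B m1 m2 m3 (γ t)).2 t := fun t =>
    (hγ t).snd
  set f' : ℝ → E × E := fun t => (κ • ((fld ε B m1 m2 m3 (γ t)).1 - pd t),
    (fld ε B m1 m2 m3 (γ t)).2 - pdd t) with hf'
  have hfd : ∀ t, HasDerivAt f (f' t) t := fun t =>
    (((hγ1 t).sub (hp t)).const_smul κ).prodMk ((hγ2 t).sub (hpd t))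
  have key := image_norm_le_of_norm_deriv_right_lt_deriv_boundary' (f := f) (f' := f') (a := α) (b := β)
    (fun t _ => (hfd t).continuousAt.continuousWithinAt) (fun t _ => (hfd t).hasDerivWithinAt)
    (B := b) (B' := b') (by rw [hfn]; exact h0) (fun t _ => (hb t).continuousAt.continuousWithinAt)
    (fun t _ => (hb t).hasDerivWithinAt) ?_
  · intro t ht
    rw [← hfn]
    exact key ht
  · intro t ht heq
    have hbt := hbR t ht
    rw [hfn] at heq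
    have e1 : κ * ‖(γ t).1 - p t‖ ≤ b t := heq ▸ le_max_left _ _
    have e2 : ‖(γ t).2 - pd t‖ ≤ b t := heq ▸ le_max_right _ _
    have e3 : ‖(γ t).1 - p t‖ ≤ R := by
      have : κ * ‖(γ t).1 - p t‖ ≤ κ * R := e1.trans hbt
      exact le_of_mul_le_mul_left this hκ
    have hR : 0 ≤ R := (norm_nonneg _).trans e3
    have e4 : ‖(γ t).1.1 - (p t).1‖ ≤ R := (norm_fst_le ((γ t).1 - p t)).trans e3
    have e5 : ‖(γ t).1.2 - (p t).2‖ ≤ R := (norm_snd_le ((γ t).1 - p t)).trans e3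
    have e6 : ‖(γ t).1.1 + (γ t).1.2 - ((p t).1 + (p t).2)‖ ≤ 2 * R := by
      have e : (γ t).1.1 + (γ t).1.2 - ((p t).1 + (p t).2) = ((γ t).1.1 - (p t).1) + ((γ t).1.2 - (p t).2) := by
        ring
      rw [e]
      have := norm_add_le ((γ t).1.1 - (p t).1) ((γ t).1.2 - (p t).2)
      linarith
    have g1 : r1 ≤ ‖(γ t).1.1‖ := norm_ge_sub (hp1 t ht) e4
    have g2 : r2 ≤ ‖(γ t).1.2‖ := norm_ge_sub (hp2 t ht) e5
    have g3 : r3 ≤ ‖(γ t).1.1 + (γ t).1.2‖ := norm_ge_sub (hp3 t ht) e6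
    have q1 : r1 ≤ ‖(p t).1‖ := by linarith [hp1 t ht]
    have q2 : r2 ≤ ‖(p t).2‖ := by linarith [hp2 t ht]
    have q3 : r3 ≤ ‖(p t).1 + (p t).2‖ := by linarith [hp3 t ht]
    have v0 : ‖(γ t).2‖ ≤ B := by
      have := norm_le_norm_add_norm_sub (pd t) ((γ t).2)
      have h5 := hv t ht
      rw [norm_sub_rev] at this
      linarith
    have v1 : (fld ε B m1 m2 m3 (γ t)).1 = (γ t).2 := by
      show (cut B (γ t).2.1, cut B (γ t).2.2) = (γ t).2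
      rw [cut_eq hB ((norm_fst_le _).trans v0), cut_eq hB ((norm_snd_le _).trans v0)]
    have v2 : (fld ε B m1 m2 m3 (γ t)).2 = rf kep m1 m2 m3 (γ t).1 := by
      show rf (ker ε) m1 m2 m3 (γ t).1 = _
      rw [rf, rf, ker_eq (hε1.trans g1), ker_eq (hε2.trans g2), ker_eq (hε3.trans g3)]
    have lip : ‖rf kep m1 m2 m3 (γ t).1 - rf kep m1 m2 m3 (p t)‖ ≤ L * ‖(γ t).1 - p t‖ :=
      rf_lip h1 h2 h3 (kep_lip hr1 g1 q1) (kep_lip hr2 g2 q2) (kep_lip hr3 g3 q3)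
        (by positivity) (by positivity) (by positivity) hL1 hL2
    have n1 : ‖(γ t).1 - p t‖ ≤ b t / κ := by
      rw [le_div_iff₀ hκ, mul_comm]; exact e1
    have b0 : 0 ≤ b t := (norm_nonneg _).trans e2
    have L0 : 0 ≤ L := le_trans (by positivity) hL1
    have hfb : ‖f' t‖ ≤ K * b t + δ t := by
      have hδt := hδ t ht
      have δ0 : 0 ≤ δ t := (norm_nonneg _).trans hδt
      rw [hf']
      show max ‖κ • ((fld ε B m1 m2 m3 (γ t)).1 - pd t)‖ ‖(fld ε B m1 m2 m3 (γ t)).2 - pdd t‖ ≤ _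
      rw [v1, v2, norm_smul, Real.norm_of_nonneg hκ.le]
      refine max_le ?_ ?_
      · calc κ * ‖(γ t).2 - pd t‖ ≤ K * b t := by
              have hK : 0 ≤ K := hκ.le.trans hκK
              gcongr
          _ ≤ _ := by linarith
      · have e7 : rf kep m1 m2 m3 (γ t).1 - pdd t = (rf kep m1 m2 m3 (γ t).1 - rf kep m1 m2 m3 (p t)) -
            (pdd t - rf kep m1 m2 m3 (p t)) := by abel
        rw [e7]
        refine (norm_sub_le _ _).trans ?_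
        have e8 : L * ‖(γ t).1 - p t‖ ≤ K * b t := by
          calc L * ‖(γ t).1 - p t‖ ≤ L * (b t / κ) := by gcongr
            _ ≤ (K * κ) * (b t / κ) := by gcongr
            _ = K * b t := by field_simp
        linarith
    exact hfb.trans_lt (hbb t ht)

end Pool.Agent.H99.TB
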