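import Mathlib

/-! The Kepler kernel, its regularisation, and global solutions of the regularised relative
three-body problem. -/

set_option autoImplicit false

namespace Pool.Agent.H99.TB

open Set Filter Topology

lemma exists_solution_Ioo {E : Type} [NormedAddCommGroup E] [NormedSpace ℝ E] [CompleteSpace E]
    {X : E → E} {K M : NNReal} (hK : LipschitzWith K X) (hM : ∀ x, ‖X x‖ ≤ M) (x : E) (n : ℕ) :
    ∃ γ : ℝ → E, γ 0 = x ∧ ∀ t ∈ Ioo (-((n:ℝ) + 1)) ((n:ℝ) + 1), HasDerivAt γ (X (γ t)) t := by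
  have h0 : (0:ℝ) ∈ Icc (-((n:ℝ) + 1)) ((n:ℝ) + 1) := ⟨by linarith [n.cast_nonneg (α := ℝ)],
    by positivity⟩
  have hpl : IsPicardLindelof (fun _ => X) (⟨0, h0⟩ : Icc (-((n:ℝ) + 1)) ((n:ℝ) + 1)) x
      (M * (n + 1)) 0 M K := by
    refine IsPicardLindelof.of_time_independent (fun y _ => hM y) (hK.lipschitzOnWith) ?_
    simp
  obtain ⟨γ, h1, h2⟩ := hpl.exists_eq_forall_mem_Icc_hasDerivWithinAt₀
  exact ⟨γ, h1, fun t ht => (h2 t (Ioo_subset_Icc_self ht)).hasDerivAt (Icc_mem_nhds ht.1 ht.2)⟩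

lemma exists_solution {E : Type} [NormedAddCommGroup E] [NormedSpace ℝ E] [CompleteSpace E]
    {X : E → E} {K M : NNReal} (hK : LipschitzWith K X) (hM : ∀ x, ‖X x‖ ≤ M) (x : E) :
    ∃ γ : ℝ → E, γ 0 = x ∧ ∀ t, HasDerivAt γ (X (γ t)) t := by
  choose γ h0 h1 using exists_solution_Ioo hK hM x
  have hun : ∀ n k : ℕ, n ≤ k → EqOn (γ n) (γ k) (Ioo (-((n:ℝ) + 1)) ((n:ℝ) + 1)) := by
    intro n k hnk
    have hnk' : (n:ℝ) ≤ k := by exact_mod_cast hnk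
    have hn : (0:ℝ) ≤ n := n.cast_nonneg
    refine ODE_solution_unique_of_mem_Ioo (v := fun _ => X) (s := fun _ => univ) (K := K) (t₀ := 0)
      (fun t _ => hK.lipschitzOnWith) ⟨by linarith, by linarith⟩
      (fun t ht => ⟨h1 n t ht, trivial⟩) (fun t ht => ⟨h1 k t ⟨?_, ?_⟩, trivial⟩) ?_
    · linarith [ht.1]
    · linarith [ht.2]
    · rw [h0, h0]
  refine ⟨fun t => γ ⌈|t|⌉₊ t, ?_, ?_⟩
  · simp only; rw [h0]
  · intro t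
    set N : ℕ := ⌈|t|⌉₊ + 1 with hN
    have hval : ∀ s : ℝ, |s| < |t| + 1 → γ ⌈|s|⌉₊ s = γ N s := by
      intro s hs
      have h2 : ⌈|s|⌉₊ ≤ N := by
        have h3 : |s| ≤ ((⌈|t|⌉₊ + 1 : ℕ) : ℝ) := by
          push_cast
          linarith [Nat.le_ceil |t|]
        exact Nat.ceil_le.2 h3
      refine hun _ _ h2 ?_
      have h3 := Nat.le_ceil |s|
      exact abs_lt.1 (by linarith : |s| < (⌈|s|⌉₊:ℝ) + 1)
    have h3 : HasDerivAt (γ N) (X (γ N t)) t := by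
      apply h1
      have h4 := Nat.le_ceil |t|
      refine abs_lt.1 ?_
      rw [hN]; push_cast
      linarith
    have h4 : (fun s => γ ⌈|s|⌉₊ s) =ᶠ[𝓝 t] γ N := by
      have : ∀ᶠ s in 𝓝 t, |s| < |t| + 1 :=
        (continuous_abs.tendsto t).eventually (gt_mem_nhds (by linarith))
      exact this.mono hval
    change HasDerivAt _ (X (γ ⌈|t|⌉₊ t)) t
    rw [hval t (by linarith)]
    exact h3.congr_of_eventuallyEq h4

/-- the regularised kernel -/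
noncomputable def ker (ε : ℝ) (x : ℂ) : ℂ := ((1 / max ε ‖x‖ ^ 3 : ℝ) : ℂ) * x

theorem ker_norm {ε : ℝ} (hε : 0 < ε) (x : ℂ) : ‖ker ε x‖ ≤ 1 / ε ^ 2 := by
  have h1 : ε ≤ max ε ‖x‖ := le_max_left _ _
  have h2 : ‖x‖ ≤ max ε ‖x‖ := le_max_right _ _
  set g := max ε ‖x‖ with hg
  have hg0 : 0 < g := hε.trans_le h1
  rw [ker, ← hg, norm_mul, Complex.norm_real, Real.norm_of_nonneg (by positivity)]
  calc 1 / g ^ 3 * ‖x‖ ≤ 1 / g ^ 3 * g := by gcongr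
    _ = 1 / g ^ 2 := by field_simp
    _ ≤ 1 / ε ^ 2 := by gcongr

theorem ker_lip {ε : ℝ} (hε : 0 < ε) (x y : ℂ) : ‖ker ε x - ker ε y‖ ≤ 4 / ε ^ 3 * ‖x - y‖ := by
  have ha1 : ε ≤ max ε ‖x‖ := le_max_left _ _
  have hb1 : ε ≤ max ε ‖y‖ := le_max_left _ _
  have hb2 : ‖y‖ ≤ max ε ‖y‖ := le_max_right _ _
  have hab : |max ε ‖x‖ - max ε ‖y‖| ≤ ‖x - y‖ := by
    rw [max_comm ε, max_comm ε]
    exact (abs_max_sub_max_le_abs ‖x‖ ‖y‖ ε).trans (abs_norm_sub_norm_le x y)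
  set α := max ε ‖x‖ with hα
  set β := max ε ‖y‖ with hβ
  have hα0 : 0 < α := hε.trans_le ha1
  have hβ0 : 0 < β := hε.trans_le hb1
  have e1 : ker ε x - ker ε y = ((1 / α ^ 3 : ℝ) : ℂ) * (x - y) + ((1 / α ^ 3 - 1 / β ^ 3 : ℝ) : ℂ) * y := by
    rw [ker, ker, ← hα, ← hβ]
    push_cast
    ring
  have e2 : |1 / α ^ 3 - 1 / β ^ 3| * β ≤ 3 / ε ^ 3 * |α - β| := by
    have e3 : 1 / α ^ 3 - 1 / β ^ 3 = -(α - β) * (1 / (α * β ^ 3) + 1 / (α ^ 2 * β ^ 2) + 1 / (α ^ 3 * β)) := by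
      field_simp
      ring
    have e4 : 0 ≤ 1 / (α * β ^ 3) + 1 / (α ^ 2 * β ^ 2) + 1 / (α ^ 3 * β) := by positivity
    rw [e3, abs_mul, abs_neg, abs_of_nonneg e4]
    have e5 : (1 / (α * β ^ 3) + 1 / (α ^ 2 * β ^ 2) + 1 / (α ^ 3 * β)) * β =
        1 / (α * β ^ 2) + 1 / (α ^ 2 * β) + 1 / α ^ 3 := by
      field_simp
    have e6 : 1 / (α * β ^ 2) + 1 / (α ^ 2 * β) + 1 / α ^ 3 ≤ 1 / (ε * ε ^ 2) + 1 / (ε ^ 2 * ε) + 1 / ε ^ 3 := by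
      gcongr
    have e7 : 1 / (ε * ε ^ 2) + 1 / (ε ^ 2 * ε) + 1 / ε ^ 3 = 3 / ε ^ 3 := by field_simp; ring
    calc |α - β| * (1 / (α * β ^ 3) + 1 / (α ^ 2 * β ^ 2) + 1 / (α ^ 3 * β)) * β
        = |α - β| * (1 / (α * β ^ 2) + 1 / (α ^ 2 * β) + 1 / α ^ 3) := by rw [mul_assoc, e5]
      _ ≤ |α - β| * (3 / ε ^ 3) := by rw [← e7]; gcongr
      _ = _ := by ring
  rw [e1]
  refine (norm_add_le _ _).trans ?_
  rw [norm_mul, norm_mul, Complex.norm_real, Complex.norm_real, Real.norm_eq_abs, Real.norm_eq_abs,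
    abs_of_pos (by positivity : 0 < 1 / α ^ 3)]
  have e8 : 1 / α ^ 3 * ‖x - y‖ ≤ 1 / ε ^ 3 * ‖x - y‖ := by gcongr
  have e9 : |1 / α ^ 3 - 1 / β ^ 3| * ‖y‖ ≤ 3 / ε ^ 3 * ‖x - y‖ := by
    calc |1 / α ^ 3 - 1 / β ^ 3| * ‖y‖ ≤ |1 / α ^ 3 - 1 / β ^ 3| * β := by gcongr
      _ ≤ 3 / ε ^ 3 * |α - β| := e2
      _ ≤ _ := by gcongr
  have e10 : 4 / ε ^ 3 * ‖x - y‖ = 1 / ε ^ 3 * ‖x - y‖ + 3 / ε ^ 3 * ‖x - y‖ := by ring
  linarith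

/-- the Kepler kernel `x / |x|^3` -/
noncomputable def kep (x : ℂ) : ℂ := ((1 / ‖x‖ ^ 3 : ℝ) : ℂ) * x

theorem ker_eq {ε : ℝ} {x : ℂ} (h : ε ≤ ‖x‖) : ker ε x = kep x := by
  rw [ker, kep, max_eq_right h]

/-- the Lipschitz constant `2 / r^3` of the kernel outside of the disc of radius `r` -/
theorem kep_lip {r : ℝ} (hr : 0 < r) {x y : ℂ} (hx : r ≤ ‖x‖) (hy : r ≤ ‖y‖) :
    ‖kep x - kep y‖ ≤ 2 / r ^ 3 * ‖x - y‖ := by
  have hx0 : 0 < ‖x‖ := hr.trans_le hx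
  have hy0 : 0 < ‖y‖ := hr.trans_le hy
  have hk : ∀ z : ℂ, kep z = (1 / ‖z‖ ^ 3 : ℝ) • z := fun z => by rw [kep, Complex.real_smul]
  -- squares
  have key : ‖kep x - kep y‖ ^ 2 * (‖x‖ ^ 2 * ‖y‖ ^ 2) ^ 2 ≤ ((‖x‖ + ‖y‖) * ‖x - y‖) ^ 2 := by
    have e1 : ‖kep x - kep y‖ ^ 2 = 1 / ‖x‖ ^ 4 + 1 / ‖y‖ ^ 4 - 2 * (inner ℝ x y) / (‖x‖ ^ 3 * ‖y‖ ^ 3) := by
      rw [hk, hk, @norm_sub_sq_real]
      rw [norm_smul, norm_smul, inner_smul_left, inner_smul_right, Real.norm_of_nonneg (by positivity),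
        Real.norm_of_nonneg (by positivity)]
      simp only [conj_trivial]
      field_simp
      ring
    have e2 : ‖x - y‖ ^ 2 = ‖x‖ ^ 2 - 2 * inner ℝ x y + ‖y‖ ^ 2 := norm_sub_sq_real x y
    have e3 : inner ℝ x y ≤ ‖x‖ * ‖y‖ := real_inner_le_norm x y
    rw [mul_pow (‖x‖ + ‖y‖), e2, e1]
    set a := ‖x‖
    set b := ‖y‖
    set c := inner ℝ x y
    have e4 : (1 / a ^ 4 + 1 / b ^ 4 - 2 * c / (a ^ 3 * b ^ 3)) * (a ^ 2 * b ^ 2) ^ 2 =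
        a ^ 4 + b ^ 4 - 2 * c * (a * b) := by
      field_simp
      ring
    rw [e4]
    have e5 : (a + b) ^ 2 * (a ^ 2 - 2 * c + b ^ 2) - (a ^ 4 + b ^ 4 - 2 * c * (a * b)) =
      2 * (a * b - c) * (a ^ 2 + a * b + b ^ 2) := by ring
    nlinarith [mul_nonneg (sub_nonneg.2 e3) (by positivity : (0:ℝ) ≤ a ^ 2 + a * b + b ^ 2)]
  have h1 : ‖kep x - kep y‖ * (‖x‖ ^ 2 * ‖y‖ ^ 2) ≤ (‖x‖ + ‖y‖) * ‖x - y‖ := by
    have h2 : (‖kep x - kep y‖ * (‖x‖ ^ 2 * ‖y‖ ^ 2)) ^ 2 ≤ ((‖x‖ + ‖y‖) * ‖x - y‖) ^ 2 := by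
      rw [mul_pow]; exact key
    exact (sq_le_sq₀ (by positivity) (by positivity)).1 h2
  have h2 : ‖kep x - kep y‖ ≤ (‖x‖ + ‖y‖) / (‖x‖ ^ 2 * ‖y‖ ^ 2) * ‖x - y‖ := by
    rw [div_mul_eq_mul_div, le_div_iff₀ (by positivity)]
    exact h1
  refine h2.trans (mul_le_mul_of_nonneg_right ?_ (norm_nonneg _))
  have e : (‖x‖ + ‖y‖) / (‖x‖ ^ 2 * ‖y‖ ^ 2) = 1 / (‖x‖ * ‖y‖ ^ 2) + 1 / (‖x‖ ^ 2 * ‖y‖) := by
    field_simp
  rw [e]
  have e6 : 1 / (‖x‖ * ‖y‖ ^ 2) + 1 / (‖x‖ ^ 2 * ‖y‖) ≤ 1 / (r * r ^ 2) + 1 / (r ^ 2 * r) := by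
    gcongr
  have e7 : 1 / (r * r ^ 2) + 1 / (r ^ 2 * r) = 2 / r ^ 3 := by field_simp; ring
  linarith

/-- the cut off of the velocity -/
noncomputable def cut (B : ℝ) (x : ℂ) : ℂ := ((B / max B ‖x‖ : ℝ) : ℂ) * x

theorem cut_norm {B : ℝ} (hB : 0 < B) (x : ℂ) : ‖cut B x‖ ≤ B := by
  have h1 : B ≤ max B ‖x‖ := le_max_left _ _
  have h2 : ‖x‖ ≤ max B ‖x‖ := le_max_right _ _
  set g := max B ‖x‖ with hg
  have hg0 : 0 < g := hB.trans_le h1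
  rw [cut, ← hg, norm_mul, Complex.norm_real, Real.norm_of_nonneg (by positivity)]
  calc B / g * ‖x‖ ≤ B / g * g := by gcongr
    _ = B := by field_simp

theorem cut_lip {B : ℝ} (hB : 0 < B) (x y : ℂ) : ‖cut B x - cut B y‖ ≤ 2 * ‖x - y‖ := by
  have ha1 : B ≤ max B ‖x‖ := le_max_left _ _
  have hb1 : B ≤ max B ‖y‖ := le_max_left _ _
  have hb2 : ‖y‖ ≤ max B ‖y‖ := le_max_right _ _
  have hab : |max B ‖x‖ - max B ‖y‖| ≤ ‖x - y‖ := by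
    rw [max_comm B, max_comm B]
    exact (abs_max_sub_max_le_abs ‖x‖ ‖y‖ B).trans (abs_norm_sub_norm_le x y)
  set α := max B ‖x‖ with hα
  set β := max B ‖y‖ with hβ
  have hα0 : 0 < α := hB.trans_le ha1
  have hβ0 : 0 < β := hB.trans_le hb1
  have e1 : cut B x - cut B y = ((B / α : ℝ) : ℂ) * (x - y) + ((B / α - B / β : ℝ) : ℂ) * y := by
    rw [cut, cut, ← hα, ← hβ]
    push_cast
    ring
  have e2 : |B / α - B / β| * β ≤ |α - β| := by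
    have e3 : (B / α - B / β) * β = -(B / α) * (α - β) := by field_simp; ring
    have e4 : |B / α - B / β| * β = |(B / α - B / β) * β| := by rw [abs_mul, abs_of_pos hβ0]
    rw [e4, e3, abs_mul, abs_neg, abs_of_pos (by positivity : 0 < B / α)]
    exact mul_le_of_le_one_left (abs_nonneg _) ((div_le_one hα0).mpr ha1)
  rw [e1]
  refine (norm_add_le _ _).trans ?_
  rw [norm_mul, norm_mul, Complex.norm_real, Complex.norm_real, Real.norm_eq_abs, Real.norm_eq_abs,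
    abs_of_pos (by positivity : 0 < B / α)]
  have e8 : B / α * ‖x - y‖ ≤ ‖x - y‖ := mul_le_of_le_one_left (norm_nonneg _) ((div_le_one hα0).mpr ha1)
  have e9 : |B / α - B / β| * ‖y‖ ≤ ‖x - y‖ := by
    calc |B / α - B / β| * ‖y‖ ≤ |B / α - B / β| * β := by gcongr
      _ ≤ |α - β| := e2
      _ ≤ _ := hab
  linarith

theorem cut_eq {B : ℝ} (hB : 0 < B) {x : ℂ} (h : ‖x‖ ≤ B) : cut B x = x := by
  rw [cut, max_eq_left h, div_self hB.ne', Complex.ofReal_one, one_mul]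

/-- Configurations: the vectors `u = q₂ - q₁` and `w = q₃ - q₂`. -/
abbrev E := ℂ × ℂ

/-- The relative accelerations, for a kernel `k`. -/
noncomputable def rf (k : ℂ → ℂ) (m1 m2 m3 : ℝ) (x : E) : E :=
  (-((m1 + m2 : ℝ) : ℂ) * k x.1 + (m3 : ℂ) * (k x.2 - k (x.1 + x.2)),
   -((m2 + m3 : ℝ) : ℂ) * k x.2 + (m1 : ℂ) * (k x.1 - k (x.1 + x.2)))

/-- A Lipschitz bound for the relative accelerations. -/
theorem rf_lip {k : ℂ → ℂ} {m1 m2 m3 a b c : ℝ} (h1 : 0 ≤ m1) (h2 : 0 ≤ m2) (h3 : 0 ≤ m3)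
    {x y : E} (ha : ‖k x.1 - k y.1‖ ≤ a * ‖x.1 - y.1‖) (hb : ‖k x.2 - k y.2‖ ≤ b * ‖x.2 - y.2‖)
    (hc : ‖k (x.1 + x.2) - k (y.1 + y.2)‖ ≤ c * ‖x.1 + x.2 - (y.1 + y.2)‖)
    (ha0 : 0 ≤ a) (hb0 : 0 ≤ b) (hc0 : 0 ≤ c) {L : ℝ}
    (hL1 : (m1 + m2) * a + m3 * (b + 2 * c) ≤ L) (hL2 : (m2 + m3) * b + m1 * (a + 2 * c) ≤ L) :
    ‖rf k m1 m2 m3 x - rf k m1 m2 m3 y‖ ≤ L * ‖x - y‖ := by
  have hx1 : ‖x.1 - y.1‖ ≤ ‖x - y‖ := norm_fst_le (x - y)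
  have hx2 : ‖x.2 - y.2‖ ≤ ‖x - y‖ := norm_snd_le (x - y)
  have hx3 : ‖x.1 + x.2 - (y.1 + y.2)‖ ≤ 2 * ‖x - y‖ := by
    have e : x.1 + x.2 - (y.1 + y.2) = (x.1 - y.1) + (x.2 - y.2) := by ring
    rw [e]
    have := norm_add_le (x.1 - y.1) (x.2 - y.2)
    linarith
  have hn := norm_nonneg (x - y)
  have ha' : ‖k x.1 - k y.1‖ ≤ a * ‖x - y‖ := ha.trans (by gcongr)
  have hb' : ‖k x.2 - k y.2‖ ≤ b * ‖x - y‖ := hb.trans (by gcongr)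
  have hc' : ‖k (x.1 + x.2) - k (y.1 + y.2)‖ ≤ c * (2 * ‖x - y‖) := hc.trans (by gcongr)
  rw [Prod.norm_def]
  have key : ∀ (α β : ℝ) (p q r p' q' r' : ℂ) (A B C : ℝ), 0 ≤ α → 0 ≤ β → ‖p - p'‖ ≤ A → ‖q - q'‖ ≤ B →
      ‖r - r'‖ ≤ C → ‖(-(α : ℂ) * p + (β : ℂ) * (q - r)) - (-(α : ℂ) * p' + (β : ℂ) * (q' - r'))‖ ≤
        α * A + β * (B + C) := by
    intro α β p q r p' q' r' A B C hα hβ hp hq hr
    have e : (-(α : ℂ) * p + (β : ℂ) * (q - r)) - (-(α : ℂ) * p' + (β : ℂ) * (q' - r')) =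
        -(α : ℂ) * (p - p') + (β : ℂ) * ((q - q') - (r - r')) := by ring
    rw [e]
    refine (norm_add_le _ _).trans ?_
    rw [norm_mul, norm_mul, norm_neg, Complex.norm_real, Complex.norm_real, Real.norm_of_nonneg hα,
      Real.norm_of_nonneg hβ]
    have := norm_sub_le (q - q') (r - r')
    gcongr
    linarith
  refine max_le ?_ ?_
  · refine (key (m1 + m2) m3 _ _ _ _ _ _ _ _ _ (by linarith) h3 ha' hb' hc').trans ?_
    calc _ = ((m1 + m2) * a + m3 * (b + 2 * c)) * ‖x - y‖ := by ring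
      _ ≤ _ := by gcongr
  · refine (key (m2 + m3) m1 _ _ _ _ _ _ _ _ _ (by linarith) h1 hb' ha' hc').trans ?_
    calc _ = ((m2 + m3) * b + m1 * (a + 2 * c)) * ‖x - y‖ := by ring
      _ ≤ _ := by gcongr

theorem rf_norm {k : ℂ → ℂ} {m1 m2 m3 A : ℝ} (h1 : 0 ≤ m1) (h2 : 0 ≤ m2) (h3 : 0 ≤ m3)
    (hk : ∀ z, ‖k z‖ ≤ A) (x : E) : ‖rf k m1 m2 m3 x‖ ≤ 2 * (m1 + m2 + m3) * A := by
  have hA : 0 ≤ A := (norm_nonneg _).trans (hk 0)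
  have key : ∀ (α β : ℝ) (p q r : ℂ), 0 ≤ α → 0 ≤ β → ‖p‖ ≤ A → ‖q‖ ≤ A →
      ‖r‖ ≤ A → ‖(-(α : ℂ) * p + (β : ℂ) * (q - r))‖ ≤ α * A + β * (A + A) := by
    intro α β p q r hα hβ hp hq hr
    refine (norm_add_le _ _).trans ?_
    rw [norm_mul, norm_mul, norm_neg, Complex.norm_real, Complex.norm_real, Real.norm_of_nonneg hα,
      Real.norm_of_nonneg hβ]
    have := norm_sub_le q r
    gcongr
    linarith
  rw [Prod.norm_def]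
  refine max_le ?_ ?_
  · refine (key (m1 + m2) m3 _ _ _ (by linarith) h3 (hk _) (hk _) (hk _)).trans ?_
    nlinarith
  · refine (key (m2 + m3) m1 _ _ _ (by linarith) h1 (hk _) (hk _) (hk _)).trans ?_
    nlinarith

/-- the regularised vector field -/
noncomputable def fld (ε B m1 m2 m3 : ℝ) (z : E × E) : E × E :=
  ((cut B z.2.1, cut B z.2.2), rf (ker ε) m1 m2 m3 z.1)

theorem exists_glob {ε B m1 m2 m3 : ℝ} (hε : 0 < ε) (hB : 0 < B) (h1 : 0 ≤ m1) (h2 : 0 ≤ m2)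
    (h3 : 0 ≤ m3) (z : E × E) :
    ∃ γ : ℝ → E × E, γ 0 = z ∧ ∀ t, HasDerivAt γ (fld ε B m1 m2 m3 (γ t)) t := by
  have hM : 0 ≤ m1 + m2 + m3 := by positivity
  have hlip : LipschitzWith (⟨2 + 20 * (m1 + m2 + m3) / ε ^ 3, by positivity⟩ : NNReal)
      (fld ε B m1 m2 m3) := by
    refine LipschitzWith.of_dist_le_mul fun z w => ?_
    rw [dist_eq_norm, dist_eq_norm]
    change _ ≤ (2 + 20 * (m1 + m2 + m3) / ε ^ 3) * ‖z - w‖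
    have hn := norm_nonneg (z - w)
    have hz1 : ‖z.1 - w.1‖ ≤ ‖z - w‖ := norm_fst_le (z - w)
    have hz2 : ‖z.2 - w.2‖ ≤ ‖z - w‖ := norm_snd_le (z - w)
    rw [Prod.norm_def]
    have h4 : 0 ≤ 20 * (m1 + m2 + m3) / ε ^ 3 * ‖z - w‖ := by positivity
    refine max_le ?_ ?_
    · rw [Prod.norm_def]
      refine max_le ?_ ?_
      · have h5 := cut_lip hB z.2.1 w.2.1
        have h6 : ‖z.2.1 - w.2.1‖ ≤ ‖z.2 - w.2‖ := norm_fst_le (z.2 - w.2)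
        show ‖cut B z.2.1 - cut B w.2.1‖ ≤ _
        linarith
      · have h5 := cut_lip hB z.2.2 w.2.2
        have h6 : ‖z.2.2 - w.2.2‖ ≤ ‖z.2 - w.2‖ := norm_snd_le (z.2 - w.2)
        show ‖cut B z.2.2 - cut B w.2.2‖ ≤ _
        linarith
    · have h7 := rf_lip (k := ker ε) (a := 4 / ε ^ 3) (b := 4 / ε ^ 3) (c := 4 / ε ^ 3) h1 h2 h3
        (x := z.1) (y := w.1) (ker_lip hε _ _) (ker_lip hε _ _) (ker_lip hε _ _) (by positivity)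
        (by positivity) (by positivity) (L := 20 * (m1 + m2 + m3) / ε ^ 3) ?_ ?_
      · show ‖rf (ker ε) m1 m2 m3 z.1 - rf (ker ε) m1 m2 m3 w.1‖ ≤ _
        refine h7.trans ?_
        have : 20 * (m1 + m2 + m3) / ε ^ 3 * ‖z.1 - w.1‖ ≤ 20 * (m1 + m2 + m3) / ε ^ 3 * ‖z - w‖ := by
          gcongr
        nlinarith
      · have e : (m1 + m2) * (4 / ε ^ 3) + m3 * (4 / ε ^ 3 + 2 * (4 / ε ^ 3)) = (4 * (m1 + m2) + 12 * m3) / ε ^ 3 := by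
          ring
        rw [e]
        gcongr
        linarith
      · have e : (m2 + m3) * (4 / ε ^ 3) + m1 * (4 / ε ^ 3 + 2 * (4 / ε ^ 3)) = (4 * (m2 + m3) + 12 * m1) / ε ^ 3 := by
          ring
        rw [e]
        gcongr
        linarith
  have hbd : ∀ z, ‖fld ε B m1 m2 m3 z‖ ≤ (⟨B + 2 * (m1 + m2 + m3) * (1 / ε ^ 2), by positivity⟩ : NNReal) := by
    intro z
    change _ ≤ B + 2 * (m1 + m2 + m3) * (1 / ε ^ 2)
    have h4 : 0 ≤ 2 * (m1 + m2 + m3) * (1 / ε ^ 2) := by positivity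
    rw [Prod.norm_def]
    refine max_le ?_ ?_
    · rw [Prod.norm_def]
      refine max_le ?_ ?_
      · have := cut_norm hB z.2.1
        show ‖cut B z.2.1‖ ≤ _
        linarith
      · have := cut_norm hB z.2.2
        show ‖cut B z.2.2‖ ≤ _
        linarith
    · have := rf_norm h1 h2 h3 (ker_norm hε) z.1
      show ‖rf (ker ε) m1 m2 m3 z.1‖ ≤ _
      linarith
  exact exists_solution hlip hbd z

end Pool.Agent.H99.TB
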