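import Pool.Agent.H99.TB.Stubs

/-! The escape lemma. -/

set_option autoImplicit false

namespace Pool.Agent.H99.TB

open Set Filter Topology

namespace Esc

/-- comparison of two functions by their derivatives -/
theorem cmp {f g f' g' : ℝ → ℝ} {a b : ℝ} (hab : a ≤ b)
    (hf : ∀ x ∈ Icc a b, ContinuousAt f x) (hg : ∀ x ∈ Icc a b, ContinuousAt g x)
    (hf' : ∀ x ∈ Ico a b, HasDerivAt f (f' x) x) (hg' : ∀ x ∈ Ico a b, HasDerivAt g (g' x) x)
    (h0 : f a ≤ g a) (h : ∀ x ∈ Ico a b, f' x ≤ g' x) : f b ≤ g b :=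
  image_le_of_deriv_right_le_deriv_boundary (f := f) (f' := f') (B := g) (B' := g')
    (fun x hx => (hf x hx).continuousWithinAt)
    (fun x hx => (hf' x hx).hasDerivWithinAt) h0 (fun x hx => (hg x hx).continuousWithinAt)
    (fun x hx => (hg' x hx).hasDerivWithinAt) h ⟨hab, le_rfl⟩

theorem kep_norm {x : ℂ} (hx : 0 < ‖x‖) : ‖kep x‖ = 1 / ‖x‖ ^ 2 := by
  rw [kep, norm_mul, Complex.norm_real, Real.norm_of_nonneg (by positivity)]
  field_simp

theorem re_le {e : ℂ} (he : ‖e‖ = 1) (x : ℂ) : ((starRingEnd ℂ) e * x).re ≤ ‖x‖ := by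
  refine (Complex.re_le_norm _).trans ?_
  rw [norm_mul, RCLike.norm_conj, he, one_mul]

theorem neg_le_re {e : ℂ} (he : ‖e‖ = 1) (x : ℂ) : -‖x‖ ≤ ((starRingEnd ℂ) e * x).re := by
  have := (abs_le.1 (Complex.abs_re_le_norm ((starRingEnd ℂ) e * x))).1
  rw [norm_mul, RCLike.norm_conj, he, one_mul] at this
  exact this

/-- derivative of the energy of the inner binary -/
theorem deriv_h {u v : ℝ → ℂ} {k : ℝ} {f : ℂ} {t : ℝ} (hu : HasDerivAt u (v t) t)
    (hv : HasDerivAt v (-(k : ℂ) * kep (u t) + f) t) (h0 : 0 < ‖u t‖) :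
    HasDerivAt (fun s => ‖v s‖ ^ 2 / 2 - k / ‖u s‖) (((starRingEnd ℂ) (v t) * f).re) t := by
  have h1 : HasDerivAt (fun s => ‖v s‖ ^ 2) (2 * inner ℝ (v t) (-(k : ℂ) * kep (u t) + f)) t :=
    hv.norm_sq
  have h2 : HasDerivAt (fun s => ‖u s‖ ^ 2) (2 * inner ℝ (u t) (v t)) t := hu.norm_sq
  have h3 : HasDerivAt (fun s => √(‖u s‖ ^ 2)) ((2 * inner ℝ (u t) (v t)) / (2 * √(‖u t‖ ^ 2))) t :=
    h2.sqrt (by positivity)
  simp only [Real.sqrt_sq (norm_nonneg _)] at h3
  have h4 := (h1.div_const 2).sub ((hasDerivAt_const t k).div h3 h0.ne')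
  refine HasDerivAt.congr_deriv h4 ?_
  rw [Complex.inner, Complex.inner, kep, mul_comm _ ((starRingEnd ℂ) (v t)),
    mul_comm _ ((starRingEnd ℂ) (u t))]
  have e1 : ((starRingEnd ℂ) (v t) * (-(k : ℂ) * (((1 / ‖u t‖ ^ 3 : ℝ) : ℂ) * u t) + f)).re =
      -(k / ‖u t‖ ^ 3) * ((starRingEnd ℂ) (u t) * v t).re + ((starRingEnd ℂ) (v t) * f).re := by
    simp only [Complex.mul_re, Complex.mul_im, Complex.add_re, Complex.add_im, Complex.neg_re,
      Complex.neg_im, Complex.ofReal_re, Complex.ofReal_im, Complex.conj_re, Complex.conj_im]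
    field_simp
    ring
  rw [e1]
  field_simp
  ring

/-- derivative of the angular momentum of the inner binary -/
theorem deriv_c {u v : ℝ → ℂ} {k : ℝ} {f : ℂ} {t : ℝ} (hu : HasDerivAt u (v t) t)
    (hv : HasDerivAt v (-(k : ℂ) * kep (u t) + f) t) :
    HasDerivAt (fun s => ((starRingEnd ℂ) (u s) * v s).im) (((starRingEnd ℂ) (u t) * f).im) t := by
  have h1 : HasDerivAt (fun s => (starRingEnd ℂ) (u s)) ((starRingEnd ℂ) (v t)) t := hu.star
  have h2 := h1.mul hv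
  have h3 := Complex.imCLM.hasFDerivAt.comp_hasDerivAt t h2
  refine HasDerivAt.congr_deriv h3 ?_
  rw [Complex.imCLM_apply, kep]
  simp only [Complex.mul_re, Complex.mul_im, Complex.add_re, Complex.add_im, Complex.neg_re,
      Complex.neg_im, Complex.ofReal_re, Complex.ofReal_im, Complex.conj_re, Complex.conj_im]
  ring

/-- component along `e` of `w + al u` -/
noncomputable def XX (e : ℂ) (al : ℝ) (w u : ℝ → ℂ) (s : ℝ) : ℝ :=
  ((starRingEnd ℂ) e * (w s + (al : ℂ) * u s)).re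

/-- energy of the inner binary -/
noncomputable def hh (k : ℝ) (u v : ℝ → ℂ) (s : ℝ) : ℝ := ‖v s‖ ^ 2 / 2 - k / ‖u s‖

/-- angular momentum of the inner binary -/
noncomputable def cc (u v : ℝ → ℂ) (s : ℝ) : ℝ := ((starRingEnd ℂ) (u s) * v s).im

/-- the hypotheses -/
structure Data (m1 m2 m3 k M al be ε B T X0 V0 V1 h0 h1 c0 c1 w0 D q d0 : ℝ) (e : ℂ)
    (u w v y : ℝ → ℂ) : Prop where
  hm1 : 0 < m1
  hm2 : 0 < m2
  hm3 : 0 < m3
  hk : k = m1 + m2
  hM : M = m1 + m2 + m3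
  hal : al = m1 / k
  hbe : be = m2 / k
  hε : 0 < ε
  hh1 : 0 < h1
  hc1 : 0 < c1
  hw0 : 0 < w0
  hV0 : 0 < V0
  hq : 0 < q
  he : ‖e‖ = 1
  hD : D = k / h1
  hd0 : d0 = X0 - D
  hεd : ε < d0
  hqD : 2 * k * D ≤ q ^ 2
  hX0 : X0 ≤ XX e al w u T
  hXV0 : V0 ≤ XX e al y v T
  hV1 : ‖y T + (al : ℂ) * v T‖ ≤ V1
  hh0 : hh k u v T ≤ -h0
  hc0 : c0 ≤ cc u v T
  hE : w0 ^ 2 / 2 ≤ V0 ^ 2 / 2 - M * (al / (X0 - be * D) + be / (X0 - al * D))
  hhn : h1 ≤ h0 - m3 * q / (w0 * d0 ^ 2)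
  hcn : c1 ≤ c0 - m3 * D ^ 2 / (w0 * d0 ^ 2)
  hεn : ε < c1 ^ 2 / (2 * k)
  hBn : V1 + M / (w0 * d0) + 2 * (k * 2 / c1) < B
  hcu : Continuous u
  hcw : Continuous w
  hcv : Continuous v
  hcy : Continuous y
  hder : ∀ s, ε ≤ ‖u s‖ → ε ≤ ‖w s‖ → ε ≤ ‖u s + w s‖ → ‖v s‖ ≤ B → ‖y s‖ ≤ B →
    HasDerivAt u (v s) s ∧ HasDerivAt w (y s) s ∧
    HasDerivAt v (-(k : ℂ) * kep (u s) + (m3 : ℂ) * (kep (w s) - kep (u s + w s))) s ∧
    HasDerivAt y (-((m2 + m3 : ℝ) : ℂ) * kep (w s) + (m1 : ℂ) * (kep (u s) - kep (u s + w s))) s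

/-- the window -/
def Win (k M al ε V1 h1 c1 w0 D d0 : ℝ) (e : ℂ) (u w v y : ℝ → ℂ) (s : ℝ) : Prop :=
  hh k u v s < -h1 ∧ c1 < cc u v s ∧ D + ε < XX e al w u s ∧ 0 < XX e al y v s ∧
    ‖y s + (al : ℂ) * v s‖ < V1 + M / (w0 * d0)

section

variable {m1 m2 m3 k M al be ε B T X0 V0 V1 h0 h1 c0 c1 w0 D q d0 : ℝ} {e : ℂ}
    {u w v y : ℝ → ℂ}

theorem Data.kpos (H : Data m1 m2 m3 k M al be ε B T X0 V0 V1 h0 h1 c0 c1 w0 D q d0 e u w v y) :
    0 < k := by rw [H.hk]; linarith [H.hm1, H.hm2]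

theorem Data.Mpos (H : Data m1 m2 m3 k M al be ε B T X0 V0 V1 h0 h1 c0 c1 w0 D q d0 e u w v y) :
    0 < M := by rw [H.hM]; linarith [H.hm1, H.hm2, H.hm3]

theorem Data.Dpos (H : Data m1 m2 m3 k M al be ε B T X0 V0 V1 h0 h1 c0 c1 w0 D q d0 e u w v y) :
    0 < D := by rw [H.hD]; exact div_pos H.kpos H.hh1

theorem Data.d0pos (H : Data m1 m2 m3 k M al be ε B T X0 V0 V1 h0 h1 c0 c1 w0 D q d0 e u w v y) :
    0 < d0 := H.hε.trans H.hεd

theorem Data.alpos (H : Data m1 m2 m3 k M al be ε B T X0 V0 V1 h0 h1 c0 c1 w0 D q d0 e u w v y) :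
    0 < al := by rw [H.hal]; exact div_pos H.hm1 H.kpos

theorem Data.bepos (H : Data m1 m2 m3 k M al be ε B T X0 V0 V1 h0 h1 c0 c1 w0 D q d0 e u w v y) :
    0 < be := by rw [H.hbe]; exact div_pos H.hm2 H.kpos

theorem Data.albe (H : Data m1 m2 m3 k M al be ε B T X0 V0 V1 h0 h1 c0 c1 w0 D q d0 e u w v y) :
    al + be = 1 := by
  rw [H.hal, H.hbe, ← add_div, ← H.hk, div_self H.kpos.ne']

/-- pointwise consequences of the window conditions -/
theorem ptw (H : Data m1 m2 m3 k M al be ε B T X0 V0 V1 h0 h1 c0 c1 w0 D q d0 e u w v y) {s : ℝ}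
    (hW : Win k M al ε V1 h1 c1 w0 D d0 e u w v y s) :
    0 < ‖u s‖ ∧ ‖u s‖ < D ∧ c1 ^ 2 / (2 * k) < ‖u s‖ ∧ ‖v s‖ < k * 2 / c1 ∧
      ‖u s‖ * ‖v s‖ ≤ q ∧ XX e al w u s - al * D ≤ ‖w s‖ ∧ XX e al w u s - be * D ≤ ‖u s + w s‖ ∧
      ‖y s‖ ≤ ‖y s + (al : ℂ) * v s‖ + ‖v s‖ := by
  obtain ⟨hW1, hW2, hW3, hW4, hW5⟩ := hW
  have hk := H.kpos
  have hal := H.alpos
  have hbe := H.bepos
  have hab := H.albe
  have hh1 := H.hh1
  have hc1 := H.hc1
  rw [hh] at hW1
  rw [cc] at hW2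
  have hv0 := norm_nonneg (v s)
  have hu0 : 0 < ‖u s‖ := by
    rcases (norm_nonneg (u s)).eq_or_lt with h | h
    · rw [← h, div_zero] at hW1
      nlinarith
    · exact h
  have a1 : ‖u s‖ < D := by
    rw [H.hD, lt_div_iff₀ hh1]
    have : h1 < k / ‖u s‖ := by nlinarith
    rw [lt_div_iff₀ hu0] at this
    linarith
  have a2 : ‖v s‖ ^ 2 < 2 * k / ‖u s‖ := by
    have e1 : 2 * k / ‖u s‖ = 2 * (k / ‖u s‖) := by ring
    rw [e1]; nlinarith
  have a2' : ‖v s‖ ^ 2 * ‖u s‖ < 2 * k := by rwa [lt_div_iff₀ hu0] at a2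
  have a3 : c1 < ‖u s‖ * ‖v s‖ := by
    refine hW2.trans_le ((Complex.im_le_norm _).trans ?_)
    rw [norm_mul, RCLike.norm_conj]
  have hv1 : 0 < ‖v s‖ := by
    rcases hv0.eq_or_lt with h | h
    · rw [← h, mul_zero] at a3; linarith
    · exact h
  have a4 : c1 ^ 2 < 2 * k * ‖u s‖ := by
    have : c1 ^ 2 < (‖u s‖ * ‖v s‖) ^ 2 := by gcongr
    have e2 : (‖u s‖ * ‖v s‖) ^ 2 = ‖u s‖ * (‖v s‖ ^ 2 * ‖u s‖) := by ring
    nlinarith
  refine ⟨hu0, a1, ?_, ?_, ?_, ?_, ?_, ?_⟩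
  · rw [div_lt_iff₀ (by positivity)]; linarith
  · rw [lt_div_iff₀ hc1]
    have : ‖v s‖ * c1 < ‖v s‖ * (‖u s‖ * ‖v s‖) := by gcongr
    have e3 : ‖v s‖ * (‖u s‖ * ‖v s‖) = ‖v s‖ ^ 2 * ‖u s‖ := by ring
    linarith
  · have e4 : (‖u s‖ * ‖v s‖) ^ 2 ≤ q ^ 2 := by
      have e2 : (‖u s‖ * ‖v s‖) ^ 2 = ‖u s‖ * (‖v s‖ ^ 2 * ‖u s‖) := by ring
      have := H.hqD
      nlinarith
    exact (sq_le_sq₀ (by positivity) H.hq.le).1 e4
  · have e5 : ((starRingEnd ℂ) e * w s).re =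
        XX e al w u s - al * ((starRingEnd ℂ) e * u s).re := by
      rw [XX]
      simp only [Complex.mul_re, Complex.mul_im, Complex.add_re, Complex.add_im,
        Complex.ofReal_re, Complex.ofReal_im, Complex.conj_re, Complex.conj_im]
      ring
    have e6 := re_le H.he (w s)
    have e7 := re_le H.he (u s)
    nlinarith
  · have e5 : ((starRingEnd ℂ) e * (u s + w s)).re =
        XX e al w u s + be * ((starRingEnd ℂ) e * u s).re := by
      have : be = 1 - al := by linarith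
      rw [XX, this]
      simp only [Complex.mul_re, Complex.mul_im, Complex.add_re, Complex.add_im,
        Complex.ofReal_re, Complex.ofReal_im, Complex.conj_re, Complex.conj_im]
      ring
    have e6 := re_le H.he (u s + w s)
    have e7 := neg_le_re H.he (u s)
    nlinarith
  · have e8 : y s = (y s + (al : ℂ) * v s) - (al : ℂ) * v s := by ring
    have e9 : ‖(al : ℂ) * v s‖ ≤ ‖v s‖ := by
      rw [norm_mul, Complex.norm_real, Real.norm_of_nonneg hal.le]
      exact mul_le_of_le_one_left hv0 (by linarith)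
    calc ‖y s‖ = ‖(y s + (al : ℂ) * v s) - (al : ℂ) * v s‖ := by rw [← e8]
      _ ≤ ‖y s + (al : ℂ) * v s‖ + ‖(al : ℂ) * v s‖ := norm_sub_le _ _
      _ ≤ _ := by gcongr

theorem ptw_bd (H : Data m1 m2 m3 k M al be ε B T X0 V0 V1 h0 h1 c0 c1 w0 D q d0 e u w v y) {s : ℝ}
    (hW : Win k M al ε V1 h1 c1 w0 D d0 e u w v y s) :
    ε < ‖u s‖ ∧ ε < ‖w s‖ ∧ ε < ‖u s + w s‖ ∧ ‖v s‖ < B ∧ ‖y s‖ < B := by
  obtain ⟨b1, b2, b3, b4, b5, b6, b7, b8⟩ := ptw H hW
  obtain ⟨hW1, hW2, hW3, hW4, hW5⟩ := hW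
  have hD := H.Dpos
  have hal := H.alpos
  have hbe := H.bepos
  have hab := H.albe
  have hBn := H.hBn
  have hV1 : 0 ≤ V1 := (norm_nonneg _).trans H.hV1
  have hMd : 0 < M / (w0 * d0) := div_pos H.Mpos (mul_pos H.hw0 H.d0pos)
  have hkc : 0 < k * 2 / c1 := div_pos (by linarith [H.kpos]) H.hc1
  refine ⟨H.hεn.trans b3, ?_, ?_, by linarith, by linarith⟩
  · nlinarith
  · nlinarith

/-- derivatives in the window -/
theorem ders (H : Data m1 m2 m3 k M al be ε B T X0 V0 V1 h0 h1 c0 c1 w0 D q d0 e u w v y) {s : ℝ}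
    (hW : Win k M al ε V1 h1 c1 w0 D d0 e u w v y s) :
    HasDerivAt u (v s) s ∧ HasDerivAt w (y s) s ∧
    HasDerivAt v (-(k : ℂ) * kep (u s) + (m3 : ℂ) * (kep (w s) - kep (u s + w s))) s ∧
    HasDerivAt (fun s => y s + (al : ℂ) * v s)
      (-(M : ℂ) * ((al : ℂ) * kep (u s + w s) + (be : ℂ) * kep (w s))) s := by
  obtain ⟨b1, b2, b3, b4, b5⟩ := ptw_bd H hW
  obtain ⟨d1, d2, d3, d4⟩ := H.hder s b1.le b2.le b3.le b4.le b5.le
  refine ⟨d1, d2, d3, ?_⟩
  refine HasDerivAt.congr_deriv (d4.add (d3.const_mul (al : ℂ))) ?_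
  have hk := H.kpos
  have e1 : (al : ℂ) * (k : ℂ) = (m1 : ℂ) := by
    have : al * k = m1 := by rw [H.hal]; field_simp
    exact_mod_cast this
  have e2 : (M : ℂ) * (al : ℂ) = m1 + al * m3 := by
    have : M * al = m1 + al * m3 := by
      have e3 : m1 = al * k := by rw [H.hal]; field_simp
      have e4 : M = k + m3 := by rw [H.hM, H.hk]
      rw [e4]
      linear_combination (-1 : ℝ) * e3
    exact_mod_cast this
  have e3 : (M : ℂ) * (be : ℂ) = m2 + m3 - al * m3 := by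
    have : M * be = m2 + m3 - al * m3 := by
      have e3 : m2 = be * k := by rw [H.hbe]; field_simp
      have e4 : M = k + m3 := by rw [H.hM, H.hk]
      have e5 : be = 1 - al := by linarith [H.albe]
      rw [e4]
      linear_combination (-1 : ℝ) * e3 + m3 * e5
    exact_mod_cast this
  push_cast
  linear_combination (-kep (u s)) * e1 + kep (u s + w s) * e2 + kep (w s) * e3

theorem XX_deriv {a b : ℝ → ℂ} {c : ℂ} {t : ℝ}
    (h : HasDerivAt (fun s => a s + (al : ℂ) * b s) c t) :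
    HasDerivAt (XX e al a b) (((starRingEnd ℂ) e * c).re) t := by
  have h1 := h.const_mul ((starRingEnd ℂ) e)
  exact Complex.reCLM.hasFDerivAt.comp_hasDerivAt t h1

theorem XX_cont {a b : ℝ → ℂ} (ha : Continuous a) (hb : Continuous b) :
    Continuous (XX e al a b) :=
  Complex.continuous_re.comp (continuous_const.mul (ha.add (continuous_const.mul hb)))

theorem lim_le {f : ℝ → ℝ} (hf : Continuous f) {T t a : ℝ} (h : T < t)
    (hs : ∀ s ∈ Ico T t, a ≤ f s) : a ≤ f t := by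
  have h1 : closure (Ico T t) ⊆ {s | a ≤ f s} :=
    closure_minimal hs (isClosed_le continuous_const hf)
  rw [closure_Ico h.ne] at h1
  exact h1 ⟨h.le, le_rfl⟩

theorem dd1 {T w0 d0 s : ℝ} (h : 0 < d0 + w0 * (s - T)) :
    HasDerivAt (fun s => 1 / (d0 + w0 * (s - T))) (-w0 / (d0 + w0 * (s - T)) ^ 2) s := by
  have h1 : HasDerivAt (fun s => d0 + w0 * (s - T)) w0 s := by
    have := (((hasDerivAt_id s).sub_const T).const_mul w0).const_add d0
    simpa using this
  refine HasDerivAt.congr_deriv ((hasDerivAt_const s (1:ℝ)).div h1 h.ne') ?_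
  ring

theorem dd2 {T w0 d0 s : ℝ} (h : 0 < d0 + w0 * (s - T)) :
    HasDerivAt (fun s => 1 / (d0 + w0 * (s - T)) ^ 2) (-2 * w0 / (d0 + w0 * (s - T)) ^ 3) s := by
  have h1 : HasDerivAt (fun s => d0 + w0 * (s - T)) w0 s := by
    have := (((hasDerivAt_id s).sub_const T).const_mul w0).const_add d0
    simpa using this
  refine HasDerivAt.congr_deriv ((hasDerivAt_const s (1:ℝ)).div (h1.pow 2) (by positivity)) ?_
  simp only [Nat.cast_ofNat, Nat.add_one_sub_one, pow_one]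
  field_simp
  ring

theorem step (H : Data m1 m2 m3 k M al be ε B T X0 V0 V1 h0 h1 c0 c1 w0 D q d0 e u w v y) {t : ℝ}
    (ht : T ≤ t) (hW : ∀ s ∈ Ico T t, Win k M al ε V1 h1 c1 w0 D d0 e u w v y s) :
    w0 ≤ XX e al y v t ∧ X0 + w0 * (t - T) ≤ XX e al w u t ∧ c1 < cc u v t ∧ hh k u v t < -h1 ∧
      ‖y t + (al : ℂ) * v t‖ < V1 + M / (w0 * d0) := by
  have hk := H.kpos
  have hMp := H.Mpos
  have hal := H.alpos
  have hbe := H.bepos
  have hab := H.albe
  have hD := H.Dpos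
  have hd0 := H.d0pos
  have hw0 := H.hw0
  have hm3 := H.hm3
  have hq := H.hq
  have hd0' := H.hd0
  have hcX : Continuous (XX e al w u) := XX_cont H.hcw H.hcu
  have hcY : Continuous (XX e al y v) := XX_cont H.hcy H.hcv
  have hdX : ∀ s ∈ Ico T t, HasDerivAt (XX e al w u) (XX e al y v s) s := by
    intro s hs
    obtain ⟨e1, e2, -, -⟩ := ders H (hW s hs)
    exact XX_deriv (e2.add (e1.const_mul (al : ℂ)))
  have hdY : ∀ s ∈ Ico T t, HasDerivAt (XX e al y v) (((starRingEnd ℂ) e *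
      (-(M : ℂ) * ((al : ℂ) * kep (u s + w s) + (be : ℂ) * kep (w s)))).re) s := by
    intro s hs
    obtain ⟨-, -, -, e4⟩ := ders H (hW s hs)
    exact XX_deriv e4
  -- step 1
  have s1 : ∀ r ∈ Icc T t, X0 ≤ XX e al w u r := by
    intro r hr
    refine cmp (f := fun _ => X0) (f' := fun _ => 0) (g := XX e al w u) (g' := XX e al y v) hr.1
      (fun x _ => continuousAt_const) (fun x _ => hcX.continuousAt)
      (fun x _ => hasDerivAt_const x X0) (fun x hx => hdX x ⟨hx.1, hx.2.trans_le hr.2⟩) H.hX0 ?_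
    intro x hx
    exact (hW x ⟨hx.1, hx.2.trans_le hr.2⟩).2.2.2.1.le
  have hXb : ∀ r ∈ Icc T t, 0 < XX e al w u r - be * D ∧ 0 < XX e al w u r - al * D := by
    intro r hr
    have := s1 r hr
    constructor <;> nlinarith
  -- step 2
  have s2 : ∀ r ∈ Icc T t, w0 ^ 2 / 2 ≤ XX e al y v r ^ 2 / 2 -
      M * (al / (XX e al w u r - be * D) + be / (XX e al w u r - al * D)) := by
    intro r hr
    refine cmp (f := fun _ => w0 ^ 2 / 2) (f' := fun _ => 0)
      (g := fun r => XX e al y v r ^ 2 / 2 -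
        M * (al / (XX e al w u r - be * D) + be / (XX e al w u r - al * D)))
      (g' := fun s => XX e al y v s * ((starRingEnd ℂ) e *
        (-(M : ℂ) * ((al : ℂ) * kep (u s + w s) + (be : ℂ) * kep (w s)))).re +
        M * (al / (XX e al w u s - be * D) ^ 2 + be / (XX e al w u s - al * D) ^ 2) *
          XX e al y v s) hr.1
      (fun x _ => continuousAt_const) ?_ (fun x _ => hasDerivAt_const x _) ?_ ?_ ?_
    · intro x hx
      obtain ⟨g1, g2⟩ := hXb x ⟨hx.1, hx.2.trans hr.2⟩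
      have c1 := hcX.continuousAt (x := x)
      have c2 := hcY.continuousAt (x := x)
      exact ((c2.pow 2).div_const 2).sub (continuousAt_const.mul
        ((continuousAt_const.div (c1.sub continuousAt_const) g1.ne').add
        (continuousAt_const.div (c1.sub continuousAt_const) g2.ne')))
    · intro x hx
      obtain ⟨g1, g2⟩ := hXb x ⟨hx.1, hx.2.le.trans hr.2⟩
      have dX := hdX x ⟨hx.1, hx.2.trans_le hr.2⟩
      have dY := hdY x ⟨hx.1, hx.2.trans_le hr.2⟩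
      have d1 := (dY.pow 2).div_const 2
      have d2 := (hasDerivAt_const x al).div (dX.sub_const (be * D)) g1.ne'
      have d3 := (hasDerivAt_const x be).div (dX.sub_const (al * D)) g2.ne'
      refine HasDerivAt.congr_deriv (d1.sub ((d2.add d3).const_mul M)) ?_
      simp only [Nat.cast_ofNat, Nat.add_one_sub_one, pow_one]
      field_simp
      ring
    · have h1 := H.hE
      have h2 := H.hX0
      have h3 := H.hXV0
      have h4 := H.hV0
      have h5 : 0 < X0 - be * D := by nlinarith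
      have h6 : 0 < X0 - al * D := by nlinarith
      have h7 : V0 ^ 2 ≤ XX e al y v T ^ 2 := by gcongr
      have h8 : al / (XX e al w u T - be * D) + be / (XX e al w u T - al * D) ≤
          al / (X0 - be * D) + be / (X0 - al * D) := by gcongr
      have h9 : M * (al / (XX e al w u T - be * D) + be / (XX e al w u T - al * D)) ≤
          M * (al / (X0 - be * D) + be / (X0 - al * D)) := by gcongr
      show w0 ^ 2 / 2 ≤ XX e al y v T ^ 2 / 2 -
        M * (al / (XX e al w u T - be * D) + be / (XX e al w u T - al * D))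
      linarith
    · intro x hx
      have hx' : x ∈ Ico T t := ⟨hx.1, hx.2.trans_le hr.2⟩
      obtain ⟨g1, g2⟩ := hXb x ⟨hx.1, hx.2.le.trans hr.2⟩
      obtain ⟨-, -, -, -, -, b6, b7, -⟩ := ptw H (hW x hx')
      have hY : 0 < XX e al y v x := (hW x hx').2.2.2.1
      have k1 : ‖kep (u x + w x)‖ ≤ 1 / (XX e al w u x - be * D) ^ 2 := by
        rw [kep_norm (g1.trans_le b7)]; gcongr
      have k2 : ‖kep (w x)‖ ≤ 1 / (XX e al w u x - al * D) ^ 2 := by
        rw [kep_norm (g2.trans_le b6)]; gcongr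
      have k3 := neg_le_re H.he (-(M : ℂ) * ((al : ℂ) * kep (u x + w x) + (be : ℂ) * kep (w x)))
      have k4 : ‖-(M : ℂ) * ((al : ℂ) * kep (u x + w x) + (be : ℂ) * kep (w x))‖ ≤
          M * (al / (XX e al w u x - be * D) ^ 2 + be / (XX e al w u x - al * D) ^ 2) := by
        rw [norm_mul, norm_neg, Complex.norm_real, Real.norm_of_nonneg hMp.le]
        refine mul_le_mul_of_nonneg_left ((norm_add_le _ _).trans ?_) hMp.le
        rw [norm_mul, norm_mul, Complex.norm_real, Complex.norm_real, Real.norm_of_nonneg hal.le,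
          Real.norm_of_nonneg hbe.le]
        have k5 := mul_le_mul_of_nonneg_left k1 hal.le
        have k6 := mul_le_mul_of_nonneg_left k2 hbe.le
        rw [mul_one_div] at k5 k6
        exact add_le_add k5 k6
      show 0 ≤ XX e al y v x * ((starRingEnd ℂ) e *
        (-(M : ℂ) * ((al : ℂ) * kep (u x + w x) + (be : ℂ) * kep (w x)))).re +
        M * (al / (XX e al w u x - be * D) ^ 2 + be / (XX e al w u x - al * D) ^ 2) *
          XX e al y v x
      nlinarith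
  -- step 3
  have s3 : ∀ r ∈ Icc T t, w0 ≤ XX e al y v r := by
    intro r hr
    have g0 : 0 ≤ XX e al y v r := by
      rcases hr.2.lt_or_eq with h | h
      · exact (hW r ⟨hr.1, h⟩).2.2.2.1.le
      · rcases ht.lt_or_eq with h' | h'
        · rw [h]; exact lim_le hcY h' fun s hs => (hW s hs).2.2.2.1.le
        · rw [h, ← h']; exact H.hV0.le.trans H.hXV0
    obtain ⟨g1, g2⟩ := hXb r hr
    have g3 := s2 r hr
    have g4 : 0 ≤ M * (al / (XX e al w u r - be * D) + be / (XX e al w u r - al * D)) := by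
      positivity
    exact (sq_le_sq₀ hw0.le g0).1 (by linarith)
  -- step 4
  have s4 : ∀ r ∈ Icc T t, X0 + w0 * (r - T) ≤ XX e al w u r := by
    intro r hr
    refine cmp (f := fun s => X0 + w0 * (s - T)) (f' := fun _ => w0) (g := XX e al w u)
      (g' := XX e al y v) hr.1 (fun x _ => by fun_prop) (fun x _ => hcX.continuousAt) ?_
      (fun x hx => hdX x ⟨hx.1, hx.2.trans_le hr.2⟩) ?_ ?_
    · intro x _
      have := (((hasDerivAt_id x).sub_const T).const_mul w0).const_add X0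
      simpa using this
    · simpa using H.hX0
    · intro x hx
      exact s3 x ⟨hx.1, (hx.2.trans_le hr.2).le⟩
  -- step 5
  have hdpos : ∀ s, T ≤ s → 0 < d0 + w0 * (s - T) := by
    intro s hs
    have : 0 ≤ w0 * (s - T) := mul_nonneg hw0.le (by linarith)
    linarith
  have s5 : ∀ s ∈ Ico T t, d0 + w0 * (s - T) ≤ ‖w s‖ ∧ d0 + w0 * (s - T) ≤ ‖u s + w s‖ ∧
      ‖(m3 : ℂ) * (kep (w s) - kep (u s + w s))‖ ≤ 2 * m3 * ‖u s‖ / (d0 + w0 * (s - T)) ^ 3 := by
    intro s hs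
    have g1 := s4 s ⟨hs.1, hs.2.le⟩
    obtain ⟨b1, b2, b3, b4, b5, b6, b7, b8⟩ := ptw H (hW s hs)
    have g2 : d0 + w0 * (s - T) ≤ ‖w s‖ := by nlinarith
    have g3 : d0 + w0 * (s - T) ≤ ‖u s + w s‖ := by nlinarith
    refine ⟨g2, g3, ?_⟩
    have g4 := kep_lip (hdpos s hs.1) g2 g3
    rw [norm_mul, Complex.norm_real, Real.norm_of_nonneg hm3.le]
    have e1 : ‖w s - (u s + w s)‖ = ‖u s‖ := by
      rw [← norm_neg]; congr 1; ring
    rw [e1] at g4
    calc m3 * ‖kep (w s) - kep (u s + w s)‖ ≤ m3 * (2 / (d0 + w0 * (s - T)) ^ 3 * ‖u s‖) := by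
          gcongr
      _ = _ := by ring
  have hcont1 : ∀ x ∈ Icc T t, ContinuousAt (fun s => 1 / (d0 + w0 * (s - T))) x :=
    fun x hx => (dd1 (hdpos x hx.1)).continuousAt
  have hcont2 : ∀ x ∈ Icc T t, ContinuousAt (fun s => 1 / (d0 + w0 * (s - T)) ^ 2) x :=
    fun x hx => (dd2 (hdpos x hx.1)).continuousAt
  -- step 6
  have s6 : c0 - m3 * D ^ 2 / w0 * (1 / d0 ^ 2 - 1 / (d0 + w0 * (t - T)) ^ 2) ≤ cc u v t := by
    refine cmp (f := fun s => c0 - m3 * D ^ 2 / w0 * (1 / d0 ^ 2 - 1 / (d0 + w0 * (s - T)) ^ 2))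
      (f' := fun s => -(2 * m3 * D ^ 2 / (d0 + w0 * (s - T)) ^ 3)) (g := cc u v)
      (g' := fun s => (((starRingEnd ℂ) (u s) * ((m3 : ℂ) * (kep (w s) - kep (u s + w s)))).im))
      ht ?_ ?_ ?_ ?_ ?_ ?_
    · intro x hx
      exact continuousAt_const.sub (continuousAt_const.mul (continuousAt_const.sub (hcont2 x hx)))
    · intro x hx
      have hc := H.hcu
      have hc' := H.hcv
      exact (Complex.continuous_im.comp ((Complex.continuous_conj.comp hc).mul hc')).continuousAt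
    · intro x hx
      have hp := hdpos x hx.1
      refine HasDerivAt.congr_deriv (((dd2 hp).const_sub (1 / d0 ^ 2)).const_mul
        (m3 * D ^ 2 / w0) |>.const_sub c0) ?_
      field_simp
    · intro x hx
      obtain ⟨d1, d2, d3, d4⟩ := ders H (hW x hx)
      exact deriv_c d1 d3
    · simp only [sub_self, mul_zero, add_zero]
      linarith [H.hc0]
    · intro x hx
      have hp := hdpos x hx.1
      obtain ⟨b1, b2, b3, b4, b5, b6, b7, b8⟩ := ptw H (hW x hx)
      obtain ⟨-, -, g⟩ := s5 x hx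
      have i1 := (abs_le.1 (Complex.abs_im_le_norm ((starRingEnd ℂ) (u x) *
        ((m3 : ℂ) * (kep (w x) - kep (u x + w x)))))).1
      rw [norm_mul, RCLike.norm_conj] at i1
      have i2 : ‖u x‖ * ‖(m3 : ℂ) * (kep (w x) - kep (u x + w x))‖ ≤
          2 * m3 * D ^ 2 / (d0 + w0 * (x - T)) ^ 3 := by
        calc ‖u x‖ * ‖(m3 : ℂ) * (kep (w x) - kep (u x + w x))‖
            ≤ D * (2 * m3 * D / (d0 + w0 * (x - T)) ^ 3) := by
              gcongr
              exact g.trans (by gcongr)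
          _ = _ := by ring
      linarith
  -- step 7
  have hut : 0 < ‖u t‖ := by
    have g0 : c1 ^ 2 / (2 * k) ≤ ‖u t‖ ∨ T = t := by
      rcases ht.lt_or_eq with h' | h'
      · exact Or.inl (lim_le H.hcu.norm h' fun s hs => (ptw H (hW s hs)).2.2.1.le)
      · exact Or.inr h'
    rcases g0 with g | g
    · refine lt_of_lt_of_le ?_ g
      have := H.hc1
      positivity
    · rw [← g]
      have h1 := H.hh0
      have h2 := H.hhn
      have h3 := H.hh1
      have h4 : 0 < m3 * q / (w0 * d0 ^ 2) := by positivity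
      rcases (norm_nonneg (u T)).eq_or_lt with h | h
      · rw [hh, ← h, div_zero] at h1
        nlinarith [norm_nonneg (v T)]
      · exact h
  have s7 : hh k u v t ≤ -h0 + m3 * q / w0 * (1 / d0 ^ 2 - 1 / (d0 + w0 * (t - T)) ^ 2) := by
    refine cmp (f := hh k u v)
      (f' := fun s => (((starRingEnd ℂ) (v s) * ((m3 : ℂ) * (kep (w s) - kep (u s + w s)))).re))
      (g := fun s => -h0 + m3 * q / w0 * (1 / d0 ^ 2 - 1 / (d0 + w0 * (s - T)) ^ 2))
      (g' := fun s => (2 * m3 * q / (d0 + w0 * (s - T)) ^ 3))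
      ht ?_ ?_ ?_ ?_ ?_ ?_
    · intro x hx
      have hne : ‖u x‖ ≠ 0 := by
        rcases hx.2.lt_or_eq with h | h
        · exact (ptw H (hW x ⟨hx.1, h⟩)).1.ne'
        · rw [h]; exact hut.ne'
      have c1 := H.hcu.norm.continuousAt (x := x)
      have c2 := H.hcv.norm.continuousAt (x := x)
      exact ((c2.pow 2).div_const 2).sub (continuousAt_const.div c1 hne)
    · intro x hx
      exact continuousAt_const.add (continuousAt_const.mul (continuousAt_const.sub (hcont2 x hx)))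
    · intro x hx
      obtain ⟨d1, d2, d3, d4⟩ := ders H (hW x hx)
      exact deriv_h d1 d3 (ptw H (hW x hx)).1
    · intro x hx
      have hp := hdpos x hx.1
      refine HasDerivAt.congr_deriv (((dd2 hp).const_sub (1 / d0 ^ 2)).const_mul
        (m3 * q / w0) |>.const_add (-h0)) ?_
      field_simp
    · simp only [sub_self, mul_zero, add_zero]
      linarith [H.hh0]
    · intro x hx
      have hp := hdpos x hx.1
      obtain ⟨b1, b2, b3, b4, b5, b6, b7, b8⟩ := ptw H (hW x hx)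
      obtain ⟨-, -, g⟩ := s5 x hx
      have i1 := Complex.re_le_norm ((starRingEnd ℂ) (v x) *
        ((m3 : ℂ) * (kep (w x) - kep (u x + w x))))
      rw [norm_mul, RCLike.norm_conj] at i1
      have i2 : ‖v x‖ * ‖(m3 : ℂ) * (kep (w x) - kep (u x + w x))‖ ≤
          2 * m3 * q / (d0 + w0 * (x - T)) ^ 3 := by
        calc ‖v x‖ * ‖(m3 : ℂ) * (kep (w x) - kep (u x + w x))‖
            ≤ ‖v x‖ * (2 * m3 * ‖u x‖ / (d0 + w0 * (x - T)) ^ 3) := by
              gcongr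
          _ = 2 * m3 * (‖u x‖ * ‖v x‖) / (d0 + w0 * (x - T)) ^ 3 := by ring
          _ ≤ _ := by gcongr
      linarith
  -- step 8
  have s8 : ‖y t + (al : ℂ) * v t‖ ≤ V1 + M / w0 * (1 / d0 - 1 / (d0 + w0 * (t - T))) := by
    refine image_norm_le_of_norm_deriv_right_le_deriv_boundary'
      (f := fun s => y s + (al : ℂ) * v s)
      (f' := fun s => (-(M : ℂ) * ((al : ℂ) * kep (u s + w s) + (be : ℂ) * kep (w s))))
      (B := fun s => V1 + M / w0 * (1 / d0 - 1 / (d0 + w0 * (s - T))))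
      (B' := fun s => (M / (d0 + w0 * (s - T)) ^ 2)) (a := T) (b := t)
      ?_ ?_ ?_ ?_ ?_ ?_ ⟨ht, le_rfl⟩
    · exact (H.hcy.add (continuous_const.mul H.hcv)).continuousOn
    · intro x hx
      exact (ders H (hW x hx)).2.2.2.hasDerivWithinAt
    · simp only [sub_self, mul_zero, add_zero]
      linarith [H.hV1]
    · intro x hx
      exact (continuousAt_const.add (continuousAt_const.mul
        (continuousAt_const.sub (hcont1 x hx)))).continuousWithinAt
    · intro x hx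
      have hp := hdpos x hx.1
      refine (HasDerivAt.congr_deriv (((dd1 hp).const_sub (1 / d0)).const_mul
        (M / w0) |>.const_add V1) ?_).hasDerivWithinAt
      field_simp
    · intro x hx
      have hp := hdpos x hx.1
      obtain ⟨g1, g2, -⟩ := s5 x hx
      have k1 : ‖kep (u x + w x)‖ ≤ 1 / (d0 + w0 * (x - T)) ^ 2 := by
        rw [kep_norm (hp.trans_le g2)]; gcongr
      have k2 : ‖kep (w x)‖ ≤ 1 / (d0 + w0 * (x - T)) ^ 2 := by
        rw [kep_norm (hp.trans_le g1)]; gcongr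
      rw [norm_mul, norm_neg, Complex.norm_real, Real.norm_of_nonneg hMp.le]
      have k3 : ‖(al : ℂ) * kep (u x + w x) + (be : ℂ) * kep (w x)‖ ≤
          1 / (d0 + w0 * (x - T)) ^ 2 := by
        refine (norm_add_le _ _).trans ?_
        rw [norm_mul, norm_mul, Complex.norm_real, Complex.norm_real, Real.norm_of_nonneg hal.le,
          Real.norm_of_nonneg hbe.le]
        have k5 := mul_le_mul_of_nonneg_left k1 hal.le
        have k6 := mul_le_mul_of_nonneg_left k2 hbe.le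
        have k7 : 1 / (d0 + w0 * (x - T)) ^ 2 = al * (1 / (d0 + w0 * (x - T)) ^ 2) +
          be * (1 / (d0 + w0 * (x - T)) ^ 2) := by rw [← add_mul, hab, one_mul]
        linarith
      calc M * ‖(al : ℂ) * kep (u x + w x) + (be : ℂ) * kep (w x)‖
          ≤ M * (1 / (d0 + w0 * (x - T)) ^ 2) := by gcongr
        _ = _ := by ring
  have hpt := hdpos t ht
  refine ⟨s3 t ⟨ht, le_rfl⟩, s4 t ⟨ht, le_rfl⟩, ?_, ?_, ?_⟩
  · refine lt_of_lt_of_le ?_ s6
    have g1 := H.hcn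
    have g2 : 0 < m3 * D ^ 2 / w0 * (1 / (d0 + w0 * (t - T)) ^ 2) := by positivity
    have g3 : m3 * D ^ 2 / w0 * (1 / d0 ^ 2 - 1 / (d0 + w0 * (t - T)) ^ 2) =
      m3 * D ^ 2 / (w0 * d0 ^ 2) - m3 * D ^ 2 / w0 * (1 / (d0 + w0 * (t - T)) ^ 2) := by
      field_simp
    rw [g3]
    linarith
  · refine lt_of_le_of_lt s7 ?_
    have g1 := H.hhn
    have g2 : 0 < m3 * q / w0 * (1 / (d0 + w0 * (t - T)) ^ 2) := by positivity
    have g3 : m3 * q / w0 * (1 / d0 ^ 2 - 1 / (d0 + w0 * (t - T)) ^ 2) =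
      m3 * q / (w0 * d0 ^ 2) - m3 * q / w0 * (1 / (d0 + w0 * (t - T)) ^ 2) := by
      field_simp
    rw [g3]
    linarith
  · refine lt_of_le_of_lt s8 ?_
    have g2 : 0 < M / w0 * (1 / (d0 + w0 * (t - T))) := by positivity
    have g3 : M / w0 * (1 / d0 - 1 / (d0 + w0 * (t - T))) =
      M / (w0 * d0) - M / w0 * (1 / (d0 + w0 * (t - T))) := by
      field_simp
    rw [g3]
    linarith

/-- the window conditions hold for all times -/
theorem win (H : Data m1 m2 m3 k M al be ε B T X0 V0 V1 h0 h1 c0 c1 w0 D q d0 e u w v y) {t : ℝ}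
    (ht : T ≤ t) : Win k M al ε V1 h1 c1 w0 D d0 e u w v y t := by
  have hstep : ∀ t, T ≤ t → (∀ s ∈ Ico T t, Win k M al ε V1 h1 c1 w0 D d0 e u w v y s) →
      Win k M al ε V1 h1 c1 w0 D d0 e u w v y t := by
    intro t ht hW
    obtain ⟨g1, g2, g3, g4, g5⟩ := step H ht hW
    refine ⟨g4, g3, ?_, H.hw0.trans_le g1, g5⟩
    have := H.hd0
    have := H.hεd
    have : 0 ≤ w0 * (t - T) := mul_nonneg H.hw0.le (by linarith)
    linarith
  have hopen : ∀ t, Win k M al ε V1 h1 c1 w0 D d0 e u w v y t →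
      ∀ᶠ s in 𝓝 t, Win k M al ε V1 h1 c1 w0 D d0 e u w v y s := by
    intro t hW
    have hne : ‖u t‖ ≠ 0 := (ptw H hW).1.ne'
    obtain ⟨g1, g2, g3, g4, g5⟩ := hW
    have c1 := H.hcu.norm.continuousAt (x := t)
    have c2 := H.hcv.norm.continuousAt (x := t)
    have ch : ContinuousAt (hh k u v) t :=
      ((c2.pow 2).div_const 2).sub (continuousAt_const.div c1 hne)
    have cc' : ContinuousAt (cc u v) t :=
      (Complex.continuous_im.comp ((Complex.continuous_conj.comp H.hcu).mul H.hcv)).continuousAt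
    have hcX : Continuous (XX e al w u) := XX_cont H.hcw H.hcu
    have hcY : Continuous (XX e al y v) := XX_cont H.hcy H.hcv
    have hcS : Continuous (fun s => ‖y s + (al : ℂ) * v s‖) :=
      (H.hcy.add (continuous_const.mul H.hcv)).norm
    filter_upwards [ch.eventually_lt continuousAt_const g1, continuousAt_const.eventually_lt cc' g2,
      continuousAt_const.eventually_lt hcX.continuousAt g3,
      continuousAt_const.eventually_lt hcY.continuousAt g4,
      hcS.continuousAt.eventually_lt continuousAt_const g5] with s a1 a2 a3 a4 a5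
    exact ⟨a1, a2, a3, a4, a5⟩
  by_contra hcon
  set S : Set ℝ := {s | T ≤ s ∧ ¬ Win k M al ε V1 h1 c1 w0 D d0 e u w v y s} with hS
  have hSne : S.Nonempty := ⟨t, ht, hcon⟩
  have hSb : BddBelow S := ⟨T, fun s hs => hs.1⟩
  set r := sInf S with hr
  have hTr : T ≤ r := le_csInf hSne fun s hs => hs.1
  have hbef : ∀ s ∈ Ico T r, Win k M al ε V1 h1 c1 w0 D d0 e u w v y s := by
    intro s hs
    by_contra hn
    exact absurd (csInf_le hSb (show s ∈ S from ⟨hs.1, hn⟩)) (not_le.2 hs.2)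
  have hWr := hstep r hTr hbef
  obtain ⟨δ, hδ, hδ'⟩ := Metric.eventually_nhds_iff.1 (hopen r hWr)
  have : r + δ / 2 ≤ r := by
    refine le_csInf hSne fun s hs => ?_
    by_contra hlt
    rw [not_le] at hlt
    have hrs : r ≤ s := csInf_le hSb hs
    refine hs.2 (hδ' ?_)
    rw [Real.dist_eq, abs_of_nonneg (by linarith)]
    linarith
  linarith

end

theorem main : S_ESC := by
  intro m1 m2 m3 hm1 hm2 hm3 ε B T X0 V0 V1 h0 h1 c0 c1 w0 D q d0 e γ hε hB hV0 hh1 hc1 hw0 hq he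
    hD hd0 hεd hqD hX0 hXV0 hV1 hh0 hc0 hE hhn hcn hεn hBn hγ t ht
  have hcont : Continuous γ := continuous_iff_continuousAt.2 fun t => (hγ t).continuousAt
  have H : Data m1 m2 m3 (m1 + m2) (m1 + m2 + m3) (m1 / (m1 + m2)) (m2 / (m1 + m2)) ε B T X0 V0 V1
      h0 h1 c0 c1 w0 D q d0 e (fun s => (γ s).1.1) (fun s => (γ s).1.2) (fun s => (γ s).2.1)
      (fun s => (γ s).2.2) := by
    refine ⟨hm1, hm2, hm3, rfl, rfl, rfl, rfl, hε, hh1, hc1, hw0, hV0, hq, he, hD, hd0, hεd, hqD,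
      hX0, hXV0, hV1, hh0, hc0, hE, hhn, hcn, hεn, hBn, hcont.fst.fst, hcont.fst.snd,
      hcont.snd.fst, hcont.snd.snd, ?_⟩
    intro s h1 h2 h3 h4 h5
    have h6 := hγ s
    rw [fld, cut_eq hB h4, cut_eq hB h5, rf, ker_eq h1, ker_eq h2, ker_eq h3] at h6
    exact ⟨h6.fst.fst, h6.fst.snd, h6.snd.fst, h6.snd.snd⟩
  have hW : ∀ s, T ≤ s → _ := fun s hs => win H hs
  obtain ⟨g1, g2, g3, g4, g5⟩ := ptw_bd H (hW t ht)
  obtain ⟨b1, b2, b3, b4, b5, b6, b7, b8⟩ := ptw H (hW t ht)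
  obtain ⟨-, s4, -, -, -⟩ := step H ht fun s hs => hW s hs.1
  have hDp := H.Dpos
  have hal := H.alpos
  have hbe := H.bepos
  have hab := H.albe
  refine ⟨g1, g2, g3, g4, g5, ?_, ?_⟩
  · refine le_trans ?_ b6
    nlinarith
  · refine le_trans ?_ b7
    nlinarith

end Esc

end Pool.Agent.H99.TB
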