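import Pool.Agent.H99.TB.Ker

/-! Statements of the independent parts of the project EUL (MP_6e7c44_mp). -/

set_option autoImplicit false

namespace Pool.Agent.H99.TB

open Set Filter Topology

/-- ESCAPE LEMMA. `u = z.1.1`, `w = z.1.2` are the relative positions `q₂ - q₁`, `q₃ - q₂`, `z.2` the
relative velocities. `α = m1 / (m1 + m2)`, `R = w + α u` is the position of body 3 relative to the
centre of mass of the bodies 1, 2. -/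
def S_ESC : Prop :=
  ∀ (m1 m2 m3 : ℝ), 0 < m1 → 0 < m2 → 0 < m3 →
  ∀ (ε B T X0 V0 V1 h0 h1 c0 c1 w0 D q d0 : ℝ) (e : ℂ) (γ : ℝ → E × E),
    0 < ε → 0 < B → 0 < V0 → 0 < h1 → 0 < c1 → 0 < w0 → 0 < q → ‖e‖ = 1 →
    D = (m1 + m2) / h1 → d0 = X0 - D → ε < d0 → 2 * (m1 + m2) * D ≤ q ^ 2 →
    -- the state at time `T`
    X0 ≤ ((starRingEnd ℂ) e * ((γ T).1.2 + (m1 / (m1 + m2) : ℝ) * (γ T).1.1)).re →
    V0 ≤ ((starRingEnd ℂ) e * ((γ T).2.2 + (m1 / (m1 + m2) : ℝ) * (γ T).2.1)).re →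
    ‖(γ T).2.2 + (m1 / (m1 + m2) : ℝ) * (γ T).2.1‖ ≤ V1 →
    ‖(γ T).2.1‖ ^ 2 / 2 - (m1 + m2) / ‖(γ T).1.1‖ ≤ -h0 →
    c0 ≤ ((starRingEnd ℂ) (γ T).1.1 * (γ T).2.1).im →
    -- numerical conditions
    w0 ^ 2 / 2 ≤ V0 ^ 2 / 2 - (m1 + m2 + m3) * ((m1 / (m1 + m2)) / (X0 - (m2 / (m1 + m2)) * D) +
      (m2 / (m1 + m2)) / (X0 - (m1 / (m1 + m2)) * D)) →
    h1 ≤ h0 - m3 * q / (w0 * d0 ^ 2) → c1 ≤ c0 - m3 * D ^ 2 / (w0 * d0 ^ 2) →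
    ε < c1 ^ 2 / (2 * (m1 + m2)) →
    V1 + (m1 + m2 + m3) / (w0 * d0) + 2 * ((m1 + m2) * 2 / c1) < B →
    (∀ t, HasDerivAt γ (fld ε B m1 m2 m3 (γ t)) t) →
    ∀ t, T ≤ t → ε < ‖(γ t).1.1‖ ∧ ε < ‖(γ t).1.2‖ ∧ ε < ‖(γ t).1.1 + (γ t).1.2‖ ∧
      ‖(γ t).2.1‖ < B ∧ ‖(γ t).2.2‖ < B ∧ d0 + w0 * (t - T) ≤ ‖(γ t).1.2‖ ∧
      d0 + w0 * (t - T) ≤ ‖(γ t).1.1 + (γ t).1.2‖

/-- Phase points of the three bodies in the plane `ℂ`: positions and velocities. -/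
abbrev Ph := (Fin 3 → ℂ) × (Fin 3 → ℂ)

/-- Newtonian acceleration of body `a`: `∑_{b ≠ a} m_b (q_b - q_a) / |q_b - q_a|^3`. -/
noncomputable def acc (m : Fin 3 → ℝ) (q : Fin 3 → ℂ) (a : Fin 3) : ℂ :=
  ∑ b ∈ Finset.univ.erase a, ((m b / ‖q b - q a‖ ^ 3 : ℝ) : ℂ) * (q b - q a)

/-- The phase space in the centre of mass frame. -/
def phaseSpace (m : Fin 3 → ℝ) : Set Ph :=
  {z | (∀ a b, a ≠ b → z.1 a ≠ z.1 b) ∧ ∑ a, (m a : ℂ) * z.1 a = 0 ∧ ∑ a, (m a : ℂ) * z.2 a = 0}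

/-- `x = (q, v)` is a solution of Newton's equations on the set `J` of times. -/
def IsSol (m : Fin 3 → ℝ) (J : Set ℝ) (x : ℝ → Ph) : Prop :=
  ∀ t ∈ J, x t ∈ phaseSpace m ∧ HasDerivAt x ((x t).2, acc m (x t).1) t

/-- The positions from the relative positions `u`, `w`, centre of mass at `0`. -/
noncomputable def conf (m : Fin 3 → ℝ) (x : E) : Fin 3 → ℂ :=
  let q : ℂ := -((m 1 : ℂ) * x.1 + (m 2 : ℂ) * (x.1 + x.2)) / ((m 0 + m 1 + m 2 : ℝ) : ℂ)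
  ![q, q + x.1, q + x.1 + x.2]

/-- FROM RELATIVE COORDINATES TO NEWTON'S EQUATIONS, with a rotation by `ρ`. -/
def S_NEW : Prop :=
  ∀ (m : Fin 3 → ℝ), (∀ a, 0 < m a) → ∀ (ρ : ℂ), ‖ρ‖ = 1 → ∀ (γ : ℝ → E × E) (t : ℝ),
    (γ t).1.1 ≠ 0 → (γ t).1.2 ≠ 0 → (γ t).1.1 + (γ t).1.2 ≠ 0 →
    HasDerivAt γ ((γ t).2, rf kep (m 0) (m 1) (m 2) (γ t).1) t →
    ((fun a => ρ * conf m (γ t).1 a, fun a => ρ * conf m (γ t).2 a) : Ph) ∈ phaseSpace m ∧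
    HasDerivAt (fun s => ((fun a => ρ * conf m (γ s).1 a, fun a => ρ * conf m (γ s).2 a) : Ph))
      (fun a => ρ * conf m (γ t).2 a, acc m (fun a => ρ * conf m (γ t).1 a)) t

/-- EULER'S SOLUTION: for the masses `(8811, 2349, 186.75) / 10496` the collinear configuration
`(-19, 63, 104) / 82` rotates rigidly with angular velocity one. -/
noncomputable def mE : Fin 3 → ℝ := ![8811 / 10496, 2349 / 10496, 747 / 41984]

noncomputable def xE : Fin 3 → ℝ := ![-19 / 82, 63 / 82, 52 / 41]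

def S_EUL : Prop :=
  IsSol mE univ (fun t => (fun a => Complex.exp (t * Complex.I) * (xE a : ℂ),
    fun a => Complex.I * (Complex.exp (t * Complex.I) * (xE a : ℂ))))

end Pool.Agent.H99.TB
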