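import Pool.Agent.H99.TB.Kron

/-! The Boolean checks on the integer data. -/

set_option autoImplicit false

namespace Pool.Agent.H99.TB.Poly

/-- the data of one piece: scaled polynomials for `u = x + i λ g`, `w`, and for the reciprocals of the
three distances -/
structure Dat where
  ux : List ℤ
  ug : List ℤ
  wx : List ℤ
  wg : List ℤ
  bu : List ℤ
  bw : List ℤ
  bs : List ℤ

def Dat.sx (d : Dat) : List ℤ := add d.ux d.wx
def Dat.sg (d : Dat) : List ℤ := add d.ug d.wg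

def cube (b : List ℤ) : List ℤ := mul (mul b b) b

/-- `qd S⁴ (β² ‖z‖² - 1)` -/
def pairRes (ql qd S4 : ℤ) (x g b : List ℤ) : List ℤ :=
  add (mul (mul b b) (add (smul qd (mul x x)) (smul ql (mul g g)))) [-(qd * S4)]

/-- sum of the positive coefficients -/
def pos : List ℤ → ℕ
  | [] => 0
  | a :: l => a.toNat + pos l

/-- the first coefficient is larger than the norm of the rest -/
def headPos : List ℤ → Bool
  | [] => false
  | a :: l => decide ((nrm l : ℤ) < a)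

def vres (ql qd S4 x g b : ℤ) : ℤ := b * b * (qd * (x * x) + ql * (g * g)) + -(qd * S4)

def nres (ql qd S4 x g b : ℕ) : ℕ := b * b * (qd * (x * x) + ql * (g * g)) + qd * S4

theorem evI_pairRes (ql qd S4 : ℤ) (x g b : List ℤ) (X : ℤ) :
    evI (pairRes ql qd S4 x g b) X = vres ql qd S4 (evI x X) (evI g X) (evI b X) := by
  simp only [pairRes, vres, evI_add, evI_mul, evI_smul, evI]
  ring

theorem nrm_pairRes (ql qd S4 : ℕ) (x g b : List ℤ) :
    nrm (pairRes ql qd S4 x g b) ≤ nres ql qd S4 (nrm x) (nrm g) (nrm b) := by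
  unfold pairRes nres
  refine (nrm_add_le _ _).trans ?_
  have h1 : nrm [-((qd : ℤ) * S4)] = qd * S4 := by
    simp [nrm, Int.natAbs_mul]
  rw [h1]
  refine Nat.add_le_add_right ((nrm_mul_le _ _).trans ?_) _
  refine Nat.mul_le_mul (nrm_mul_le _ _) ((nrm_add_le _ _).trans ?_)
  rw [nrm_smul, nrm_smul]
  simp only [Int.natAbs_natCast]
  exact Nat.add_le_add (Nat.mul_le_mul_left _ (nrm_mul_le _ _)) (Nat.mul_le_mul_left _ (nrm_mul_le _ _))

/-- number of digits -/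
def nd : ℕ := 200

/-- check of a reciprocal distance; with `o = true` also the first two coefficients have to vanish -/
def okPair (o : Bool) (e : ℕ) (ql qd S : ℕ) (X : ℤ) (x g b : List ℤ) : Bool :=
  let r := unp X nd (vres ql qd (S ^ 4) (evI x X) (evI g X) (evI b X))
  decide ((2 * nres ql qd (S ^ 4) (nrm x) (nrm g) (nrm b) : ℕ) < X) &&
  decide ((2 * nrm r : ℕ) < X) && decide (nrm r * 2 ^ e ≤ qd * S ^ 4) && (!o || ord2 r) && headPos b

/-- the weight of the error -/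
noncomputable def wt (o : Bool) (s : ℝ) : ℝ := if o then s ^ 2 else 1

theorem wt_nonneg (o : Bool) (s : ℝ) : 0 ≤ wt o s := by
  unfold wt; split <;> positivity

theorem wt_le (o : Bool) {s : ℝ} (h0 : 0 ≤ s) (h1 : s ≤ 1) : wt o s ≤ 1 := by
  unfold wt
  split
  · nlinarith
  · exact le_rfl

theorem ev_bound_of_digits {X : ℤ} (hX : 0 < X) (R : List ℤ) (v : ℤ) (hv : evI R X = v) (o : Bool)
    (hR : 2 * (nrm R : ℤ) < X) (hr : 2 * (nrm (unp X nd v) : ℤ) < X) (ho : (!o || ord2 (unp X nd v)) = true)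
    {s : ℝ} (h0 : 0 ≤ s) (h1 : s ≤ 1) : |ev R s| ≤ wt o s * nrm (unp X nd v) := by
  rw [kron hX R nd v hv hR hr s]
  unfold wt
  cases o with
  | false =>
    simp only [Bool.false_eq_true, if_false, one_mul]
    exact abs_ev_le _ h0 h1
  | true =>
    simp only [if_true]
    exact abs_ev_le2 _ (by simpa using ho) h0 h1

theorem okPair_sound {o : Bool} {e ql qd S : ℕ} {X : ℤ} {x g b : List ℤ} (hX : 0 < X) (hS : 0 < S) (hqd : 0 < qd)
    (h : okPair o e ql qd S X x g b = true) {s : ℝ} (h0 : 0 ≤ s) (h1 : s ≤ 1) :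
    |(ev b s / S) ^ 2 * ((ev x s / S) ^ 2 + (ql : ℝ) / qd * (ev g s / S) ^ 2) - 1| ≤ wt o s / 2 ^ e := by
  simp only [okPair, Bool.and_eq_true, decide_eq_true_eq] at h
  obtain ⟨⟨⟨⟨a1, a2⟩, a3⟩, a4⟩, a5⟩ := h
  have b1 := nrm_pairRes ql qd (S ^ 4) x g b
  have b2 := evI_pairRes ql qd ((S : ℤ) ^ 4) x g b X
  have c1 : 2 * (nrm (pairRes ql qd ((S ^ 4 : ℕ) : ℤ) x g b) : ℤ) < X := by
    refine lt_of_le_of_lt ?_ a1
    exact_mod_cast Nat.mul_le_mul_left 2 b1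
  have c0 : (((S ^ 4 : ℕ) : ℤ)) = (S : ℤ) ^ 4 := by push_cast; ring
  rw [c0] at c1
  have key := ev_bound_of_digits hX _ _ b2 o c1 (by exact_mod_cast a2) a4 h0 h1
  have ee : ev (pairRes ql qd ((S : ℤ) ^ 4) x g b) s =
      (qd * (S : ℝ) ^ 4) * ((ev b s / S) ^ 2 * ((ev x s / S) ^ 2 + (ql : ℝ) / qd * (ev g s / S) ^ 2) - 1) := by
    have hS' : (S : ℝ) ≠ 0 := by positivity
    have hq' : (qd : ℝ) ≠ 0 := by positivity
    simp only [pairRes, ev_add, ev_mul, ev_smul, ev_cons, ev_nil]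
    push_cast
    field_simp
    ring
  rw [ee, abs_mul, abs_of_pos (by positivity : (0:ℝ) < qd * (S : ℝ) ^ 4)] at key
  have a3' : (nrm (unp X nd (vres ql qd ((S : ℤ) ^ 4) (evI x X) (evI g X) (evI b X))) : ℝ) * 2 ^ e ≤ qd * (S : ℝ) ^ 4 := by
    exact_mod_cast a3
  rw [le_div_iff₀ (by positivity)]
  have hw := wt_nonneg o s
  set N : ℝ := (nrm (unp X nd (vres ql qd ((S : ℤ) ^ 4) (evI x X) (evI g X) (evI b X))) : ℝ) with hN
  set Q := |(ev b s / S) ^ 2 * ((ev x s / S) ^ 2 + (ql : ℝ) / qd * (ev g s / S) ^ 2) - 1|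
  have hq : (0:ℝ) < qd * (S : ℝ) ^ 4 := by positivity
  have : (qd * (S : ℝ) ^ 4) * (Q * 2 ^ e) ≤ (qd * (S : ℝ) ^ 4) * wt o s := by
    calc (qd * (S : ℝ) ^ 4) * (Q * 2 ^ e) = (qd * (S : ℝ) ^ 4 * Q) * 2 ^ e := by ring
      _ ≤ (wt o s * N) * 2 ^ e := by gcongr
      _ = wt o s * (N * 2 ^ e) := by ring
      _ ≤ wt o s * (qd * (S : ℝ) ^ 4) := by gcongr
      _ = _ := by ring
  exact le_of_mul_le_mul_left this hq

theorem okPair_head {o : Bool} {e ql qd S : ℕ} {X : ℤ} {x g b : List ℤ}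
    (h : okPair o e ql qd S X x g b = true) : headPos b = true := by
  simp only [okPair, Bool.and_eq_true] at h
  exact h.2

theorem headPos_sound {b : List ℤ} (h : headPos b = true) {s : ℝ} (h0 : 0 ≤ s) (h1 : s ≤ 1) : 0 < ev b s := by
  match b, h with
  | a :: l, h =>
    simp only [headPos, decide_eq_true_eq] at h
    have h2 := ev_ge a l h0 h1
    have h3 : ((nrm l : ℤ) : ℝ) < a := by exact_mod_cast h
    push_cast at h3
    linarith

theorem ev_le_pos (l : List ℤ) {x : ℝ} (h0 : 0 ≤ x) (h1 : x ≤ 1) : ev l x ≤ pos l := by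
  induction l with
  | nil => simp [pos]
  | cons a l ih =>
    simp only [ev_cons, pos]
    push_cast
    have h2 : (a : ℝ) ≤ (a.toNat : ℝ) := by
      have : a ≤ (a.toNat : ℤ) := Int.self_le_toNat a
      exact_mod_cast this
    have h3 : x * ev l x ≤ pos l := by
      have h4 : (0 : ℝ) ≤ pos l := by positivity
      calc x * ev l x ≤ x * pos l := by gcongr
        _ ≤ 1 * pos l := by gcongr
        _ = _ := one_mul _
    linarith

/-- `- n12 x1 b1³ + nc (x2 b2³ - x3 b3³)` -/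
def comp (n12 nc : ℤ) (x1 b1 x2 b2 x3 b3 : List ℤ) : List ℤ :=
  add (smul (-n12) (mul x1 (cube b1))) (smul nc (add (mul x2 (cube b2)) (smul (-1) (mul x3 (cube b3)))))

def resid (qd M0 S3 n12 nc : ℤ) (A x1 b1 x2 b2 x3 b3 : List ℤ) : List ℤ :=
  add (smul (M0 * S3) A) (smul (-qd) (comp n12 nc x1 b1 x2 b2 x3 b3))

def vresid (qd M0 S3 n12 nc A x1 b1 x2 b2 x3 b3 : ℤ) : ℤ :=
  M0 * S3 * A - qd * (-n12 * (x1 * (b1 * b1 * b1)) + nc * (x2 * (b2 * b2 * b2) - x3 * (b3 * b3 * b3)))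

def nresid (qd M0 S3 n12 nc A x1 b1 x2 b2 x3 b3 : ℕ) : ℕ :=
  M0 * S3 * A + qd * (n12 * (x1 * (b1 * b1 * b1)) + nc * (x2 * (b2 * b2 * b2) + x3 * (b3 * b3 * b3)))

theorem evI_resid (qd M0 S3 n12 nc : ℤ) (A x1 b1 x2 b2 x3 b3 : List ℤ) (X : ℤ) :
    evI (resid qd M0 S3 n12 nc A x1 b1 x2 b2 x3 b3) X = vresid qd M0 S3 n12 nc (evI A X) (evI x1 X) (evI b1 X)
      (evI x2 X) (evI b2 X) (evI x3 X) (evI b3 X) := by
  simp only [resid, comp, cube, vresid, evI_add, evI_mul, evI_smul]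
  ring

theorem nrm_cube (b : List ℤ) : nrm (cube b) ≤ nrm b * nrm b * nrm b :=
  (nrm_mul_le _ _).trans (Nat.mul_le_mul_right _ (nrm_mul_le _ _))

theorem nrm_resid (qd M0 S3 n12 nc : ℕ) (A x1 b1 x2 b2 x3 b3 : List ℤ) :
    nrm (resid qd M0 S3 n12 nc A x1 b1 x2 b2 x3 b3) ≤ nresid qd M0 S3 n12 nc (nrm A) (nrm x1) (nrm b1)
      (nrm x2) (nrm b2) (nrm x3) (nrm b3) := by
  have hm : ∀ x b : List ℤ, nrm (mul x (cube b)) ≤ nrm x * (nrm b * nrm b * nrm b) := fun x b =>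
    (nrm_mul_le _ _).trans (Nat.mul_le_mul_left _ (nrm_cube b))
  unfold resid comp nresid
  refine (nrm_add_le _ _).trans ?_
  rw [nrm_smul, nrm_smul, Int.natAbs_neg, Int.natAbs_mul]
  simp only [Int.natAbs_natCast]
  refine Nat.add_le_add_left (Nat.mul_le_mul_left _ ((nrm_add_le _ _).trans ?_)) _
  rw [nrm_smul, nrm_smul, Int.natAbs_neg]
  simp only [Int.natAbs_natCast]
  refine Nat.add_le_add (Nat.mul_le_mul_left _ (hm _ _)) (Nat.mul_le_mul_left _ ((nrm_add_le _ _).trans ?_))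
  rw [nrm_smul]
  simp only [Int.natAbs_neg, Int.natAbs_one, one_mul]
  exact Nat.add_le_add (hm _ _) (hm _ _)

/-- check of the equation of motion of one component -/
def okRes (o : Bool) (e qd M0 S n12 nc : ℕ) (X : ℤ) (A x1 b1 x2 b2 x3 b3 : List ℤ) : Bool :=
  let r := unp X nd (vresid qd M0 (S ^ 3) n12 nc (evI A X) (evI x1 X) (evI b1 X)
      (evI x2 X) (evI b2 X) (evI x3 X) (evI b3 X))
  decide ((2 * nresid qd M0 (S ^ 3) n12 nc (nrm A) (nrm x1) (nrm b1) (nrm x2) (nrm b2) (nrm x3) (nrm b3) : ℕ) < X) &&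
  decide ((2 * nrm r : ℕ) < X) && decide (nrm r * 2 ^ e ≤ qd * M0 * S ^ 4) && (!o || ord2 r)

theorem okRes_sound {o : Bool} {e qd M0 S n12 nc : ℕ} {X : ℤ} {A x1 b1 x2 b2 x3 b3 : List ℤ} (hX : 0 < X)
    (hS : 0 < S) (hqd : 0 < qd) (hM : 0 < M0) (h : okRes o e qd M0 S n12 nc X A x1 b1 x2 b2 x3 b3 = true) {s : ℝ}
    (h0 : 0 ≤ s) (h1 : s ≤ 1) :
    |ev A s / (qd * S) - (-(n12 / M0 : ℝ) * ((ev b1 s / S) ^ 3 * (ev x1 s / S)) +
      (nc / M0 : ℝ) * ((ev b2 s / S) ^ 3 * (ev x2 s / S) - (ev b3 s / S) ^ 3 * (ev x3 s / S)))| ≤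
      wt o s / 2 ^ e := by
  simp only [okRes, Bool.and_eq_true, decide_eq_true_eq] at h
  obtain ⟨⟨⟨a1, a2⟩, a3⟩, a4⟩ := h
  have b1' := nrm_resid qd M0 (S ^ 3) n12 nc A x1 b1 x2 b2 x3 b3
  have b2' := evI_resid qd M0 ((S : ℤ) ^ 3) n12 nc A x1 b1 x2 b2 x3 b3 X
  have c1 : 2 * (nrm (resid qd M0 ((S ^ 3 : ℕ) : ℤ) n12 nc A x1 b1 x2 b2 x3 b3) : ℤ) < X := by
    refine lt_of_le_of_lt ?_ a1
    exact_mod_cast Nat.mul_le_mul_left 2 b1'
  have c0 : (((S ^ 3 : ℕ) : ℤ)) = (S : ℤ) ^ 3 := by push_cast; ring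
  rw [c0] at c1
  have key := ev_bound_of_digits hX _ _ b2' o c1 (by exact_mod_cast a2) a4 h0 h1
  have hS' : (S : ℝ) ≠ 0 := by positivity
  have hq' : (qd : ℝ) ≠ 0 := by positivity
  have hM' : (M0 : ℝ) ≠ 0 := by positivity
  have ee : ev (resid qd M0 ((S : ℤ) ^ 3) n12 nc A x1 b1 x2 b2 x3 b3) s =
      (qd * M0 * (S : ℝ) ^ 4) * (ev A s / (qd * S) - (-(n12 / M0 : ℝ) * ((ev b1 s / S) ^ 3 * (ev x1 s / S)) +
      (nc / M0 : ℝ) * ((ev b2 s / S) ^ 3 * (ev x2 s / S) - (ev b3 s / S) ^ 3 * (ev x3 s / S)))) := by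
    simp only [resid, comp, cube, ev_add, ev_mul, ev_smul]
    push_cast
    field_simp
    ring
  rw [ee, abs_mul, abs_of_pos (by positivity : (0:ℝ) < qd * M0 * (S : ℝ) ^ 4)] at key
  rw [le_div_iff₀ (by positivity)]
  have hw := wt_nonneg o s
  set N0 := nrm (unp X nd (vresid qd M0 ((S : ℤ) ^ 3) n12 nc (evI A X) (evI x1 X) (evI b1 X)
      (evI x2 X) (evI b2 X) (evI x3 X) (evI b3 X)))
  have a3' : (N0 : ℝ) * 2 ^ e ≤ qd * M0 * (S : ℝ) ^ 4 := by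
    exact_mod_cast a3
  set N : ℝ := (N0 : ℝ) with hN
  set Q := |ev A s / (qd * S) - (-(n12 / M0 : ℝ) * ((ev b1 s / S) ^ 3 * (ev x1 s / S)) +
      (nc / M0 : ℝ) * ((ev b2 s / S) ^ 3 * (ev x2 s / S) - (ev b3 s / S) ^ 3 * (ev x3 s / S)))|
  have hq : (0:ℝ) < qd * M0 * (S : ℝ) ^ 4 := by positivity
  have : (qd * M0 * (S : ℝ) ^ 4) * (Q * 2 ^ e) ≤ (qd * M0 * (S : ℝ) ^ 4) * wt o s := by
    calc (qd * M0 * (S : ℝ) ^ 4) * (Q * 2 ^ e) = (qd * M0 * (S : ℝ) ^ 4 * Q) * 2 ^ e := by ring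
      _ ≤ (wt o s * N) * 2 ^ e := by gcongr
      _ = wt o s * (N * 2 ^ e) := by ring
      _ ≤ wt o s * (qd * M0 * (S : ℝ) ^ 4) := by gcongr
      _ = _ := by ring
  exact le_of_mul_le_mul_left this hq

end Pool.Agent.H99.TB.Poly
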