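import Pool.Agent.H99.TB.Stubs

/-! Expansion of the accelerations, and Euler's explicit collinear solution. -/

set_option autoImplicit false

namespace Pool.Agent.H99.TB

open Set Filter Topology

/-- the acceleration in terms of the Kepler kernel -/
theorem acc_kep (m : Fin 3 → ℝ) (q : Fin 3 → ℂ) (a : Fin 3) :
    acc m q a = ∑ b ∈ Finset.univ.erase a, (m b : ℂ) * kep (q b - q a) := by
  rw [acc]
  refine Finset.sum_congr rfl fun b _ => ?_
  rw [kep]
  push_cast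
  ring

theorem acc0 (m : Fin 3 → ℝ) (q : Fin 3 → ℂ) :
    acc m q 0 = (m 1 : ℂ) * kep (q 1 - q 0) + (m 2 : ℂ) * kep (q 2 - q 0) := by
  rw [acc_kep]
  have : Finset.univ.erase (0 : Fin 3) = {1, 2} := by decide
  rw [this, Finset.sum_pair (by decide)]

theorem acc1 (m : Fin 3 → ℝ) (q : Fin 3 → ℂ) :
    acc m q 1 = (m 0 : ℂ) * kep (q 0 - q 1) + (m 2 : ℂ) * kep (q 2 - q 1) := by
  rw [acc_kep]
  have : Finset.univ.erase (1 : Fin 3) = {0, 2} := by decide
  rw [this, Finset.sum_pair (by decide)]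

theorem acc2 (m : Fin 3 → ℝ) (q : Fin 3 → ℂ) :
    acc m q 2 = (m 0 : ℂ) * kep (q 0 - q 2) + (m 1 : ℂ) * kep (q 1 - q 2) := by
  rw [acc_kep]
  have : Finset.univ.erase (2 : Fin 3) = {0, 1} := by decide
  rw [this, Finset.sum_pair (by decide)]

theorem kep_neg (x : ℂ) : kep (-x) = -kep x := by
  rw [kep, kep, norm_neg, mul_neg]

theorem kep_rot {ρ : ℂ} (h : ‖ρ‖ = 1) (x : ℂ) : kep (ρ * x) = ρ * kep x := by
  rw [kep, kep, norm_mul, h, one_mul]
  ring

namespace Eul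

theorem kep_rot_real {ρ : ℂ} (h : ‖ρ‖ = 1) {x : ℝ} (hx : 0 < x) :
    kep (ρ * (x : ℂ)) = ρ * ((1 / x ^ 2 : ℝ) : ℂ) := by
  rw [kep_rot h, kep, Complex.norm_real, Real.norm_of_nonneg hx.le, ← Complex.ofReal_mul]
  congr 2
  field_simp

theorem accE {ρ : ℂ} (h : ‖ρ‖ = 1) (a : Fin 3) :
    acc mE (fun b => ρ * (xE b : ℂ)) a = -(ρ * (xE a : ℂ)) := by
  have k10 : kep (ρ * (xE 1 : ℂ) - ρ * (xE 0 : ℂ)) = ρ * ((1 : ℝ) : ℂ) := by
    have e : ρ * (xE 1 : ℂ) - ρ * (xE 0 : ℂ) = ρ * ((1 : ℝ) : ℂ) := by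
      simp only [xE, Matrix.cons_val_zero, Matrix.cons_val_one]
      push_cast; ring
    rw [e, kep_rot_real h one_pos]
    norm_num
  have k21 : kep (ρ * (xE 2 : ℂ) - ρ * (xE 1 : ℂ)) = ρ * ((4 : ℝ) : ℂ) := by
    have e : ρ * (xE 2 : ℂ) - ρ * (xE 1 : ℂ) = ρ * ((1 / 2 : ℝ) : ℂ) := by
      simp only [xE, Matrix.cons_val_one, Matrix.cons_val]
      push_cast; ring
    rw [e, kep_rot_real h (by norm_num)]
    norm_num
  have k20 : kep (ρ * (xE 2 : ℂ) - ρ * (xE 0 : ℂ)) = ρ * ((4 / 9 : ℝ) : ℂ) := by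
    have e : ρ * (xE 2 : ℂ) - ρ * (xE 0 : ℂ) = ρ * ((3 / 2 : ℝ) : ℂ) := by
      simp only [xE, Matrix.cons_val_zero, Matrix.cons_val]
      push_cast; ring
    rw [e, kep_rot_real h (by norm_num)]
    norm_num
  have k01 : kep (ρ * (xE 0 : ℂ) - ρ * (xE 1 : ℂ)) = -(ρ * ((1 : ℝ) : ℂ)) := by
    rw [← k10, ← kep_neg]; congr 1; ring
  have k12 : kep (ρ * (xE 1 : ℂ) - ρ * (xE 2 : ℂ)) = -(ρ * ((4 : ℝ) : ℂ)) := by
    rw [← k21, ← kep_neg]; congr 1; ring
  have k02 : kep (ρ * (xE 0 : ℂ) - ρ * (xE 2 : ℂ)) = -(ρ * ((4 / 9 : ℝ) : ℂ)) := by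
    rw [← k20, ← kep_neg]; congr 1; ring
  fin_cases a
  · show acc mE (fun b => ρ * (xE b : ℂ)) 0 = -(ρ * (xE 0 : ℂ))
    rw [acc0]
    rw [k10, k20]
    simp only [mE, xE, Matrix.cons_val_zero, Matrix.cons_val_one, Matrix.cons_val]
    push_cast; ring
  · show acc mE (fun b => ρ * (xE b : ℂ)) 1 = -(ρ * (xE 1 : ℂ))
    rw [acc1]
    rw [k01, k21]
    simp only [mE, xE, Matrix.cons_val_zero, Matrix.cons_val_one, Matrix.cons_val]
    push_cast; ring
  · show acc mE (fun b => ρ * (xE b : ℂ)) 2 = -(ρ * (xE 2 : ℂ))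
    rw [acc2]
    rw [k02, k12]
    simp only [mE, xE, Matrix.cons_val_zero, Matrix.cons_val_one, Matrix.cons_val]
    push_cast; ring

theorem main : S_EUL := by
  intro t _
  set ρ : ℂ := Complex.exp (t * Complex.I) with hρ
  have hn : ‖ρ‖ = 1 := Complex.norm_exp_ofReal_mul_I t
  have hρ0 : ρ ≠ 0 := by rw [← norm_pos_iff, hn]; exact one_pos
  have hexp : HasDerivAt (fun s : ℝ => Complex.exp (s * Complex.I)) (Complex.I * ρ) t := by
    have h1 : HasDerivAt (fun s : ℝ => (s : ℂ) * Complex.I) Complex.I t := by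
      simpa using (Complex.ofRealCLM.hasDerivAt (x := t)).mul_const Complex.I
    have h2 := h1.cexp
    rw [mul_comm] at h2
    exact h2
  refine ⟨⟨?_, ?_, ?_⟩, ?_⟩
  · intro a b hab h
    have h1 : (xE a : ℂ) = (xE b : ℂ) := mul_left_cancel₀ hρ0 h
    have h2 : xE a = xE b := by exact_mod_cast h1
    revert h2 hab
    fin_cases a <;> fin_cases b <;> simp [xE] <;> norm_num
  · simp only [Fin.sum_univ_three, mE, xE, Matrix.cons_val_zero, Matrix.cons_val_one,
      Matrix.cons_val]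
    push_cast; ring
  · simp only [Fin.sum_univ_three, mE, xE, Matrix.cons_val_zero, Matrix.cons_val_one,
      Matrix.cons_val]
    push_cast; ring
  · refine HasDerivAt.prodMk ?_ ?_
    · rw [hasDerivAt_pi]
      intro a
      have := hexp.mul_const (xE a : ℂ)
      rw [mul_assoc] at this
      exact this
    · rw [hasDerivAt_pi]
      intro a
      have := (hexp.mul_const (xE a : ℂ)).const_mul Complex.I
      have e : Complex.I * (Complex.I * ρ * (xE a : ℂ)) = -(ρ * (xE a : ℂ)) := by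
        have : Complex.I * Complex.I = -1 := Complex.I_mul_I
        calc _ = (Complex.I * Complex.I) * (ρ * (xE a : ℂ)) := by ring
          _ = _ := by rw [this]; ring
      rw [e] at this
      rw [accE hn a]
      exact this

end Eul

end Pool.Agent.H99.TB
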