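import Pool.Agent.H99.TB.Chk
import Pool.Agent.H99.TB.Step

/-! From the integer checks to the approximate equations of motion. -/

set_option autoImplicit false

namespace Pool.Agent.H99.TB

open Pool.Agent.H99.TB.Poly

theorem kep_approx {z : ℂ} {β η Bb : ℝ} (hβ : 0 < β) (hB : β ≤ Bb) (h0 : 0 ≤ η) (h1 : η ≤ 1 / 4)
    (h : |β ^ 2 * ‖z‖ ^ 2 - 1| ≤ η) :
    (1 - η) / Bb ≤ ‖z‖ ∧ ‖((β ^ 3 : ℝ) : ℂ) * z - kep z‖ ≤ 8 * η * Bb ^ 2 := by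
  have hBb : 0 < Bb := hβ.trans_le hB
  set ρ := β * ‖z‖ with hρ
  have hρ0 : 0 ≤ ρ := by positivity
  have e1 : |ρ ^ 2 - 1| ≤ η := by
    have : ρ ^ 2 = β ^ 2 * ‖z‖ ^ 2 := by rw [hρ]; ring
    rw [this]; exact h
  have e2 : |ρ - 1| ≤ η := by
    have e3 : |ρ - 1| * (ρ + 1) = |ρ ^ 2 - 1| := by
      have e31 : ρ ^ 2 - 1 = (ρ - 1) * (ρ + 1) := by ring
      rw [e31, abs_mul, abs_of_nonneg (by linarith : 0 ≤ ρ + 1)]
    nlinarith [abs_nonneg (ρ - 1)]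
  obtain ⟨e4, e5⟩ := abs_le.1 e2
  have e6 : (1 - η) / Bb ≤ ‖z‖ := by
    rw [div_le_iff₀ hBb]
    calc 1 - η ≤ ρ := by linarith
      _ = ‖z‖ * β := by rw [hρ]; ring
      _ ≤ ‖z‖ * Bb := by gcongr
  refine ⟨e6, ?_⟩
  have hz : 0 < ‖z‖ := lt_of_lt_of_le (div_pos (by linarith) hBb) e6
  have e7 : ((β ^ 3 : ℝ) : ℂ) * z - kep z = (((ρ ^ 3 - 1) / ‖z‖ ^ 3 : ℝ) : ℂ) * z := by
    rw [kep, ← sub_mul]
    congr 1
    rw [← Complex.ofReal_sub]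
    congr 1
    rw [hρ]
    field_simp
  rw [e7, norm_mul, Complex.norm_real, Real.norm_eq_abs, abs_div, abs_of_pos (by positivity : 0 < ‖z‖ ^ 3)]
  have e8 : |ρ ^ 3 - 1| ≤ 4 * η := by
    have : ρ ^ 3 - 1 = (ρ - 1) * (ρ ^ 2 + ρ + 1) := by ring
    rw [this, abs_mul, abs_of_nonneg (by positivity : 0 ≤ ρ ^ 2 + ρ + 1)]
    have : ρ ^ 2 + ρ + 1 ≤ 4 := by nlinarith
    nlinarith [abs_nonneg (ρ - 1)]
  have e9 : 1 / ‖z‖ ^ 2 ≤ 2 * Bb ^ 2 := by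
    have e10 : (1 - η) ≤ Bb * ‖z‖ := by
      rw [div_le_iff₀ hBb] at e6; linarith
    rw [div_le_iff₀ (by positivity)]
    have : (3 / 4 : ℝ) ^ 2 ≤ (Bb * ‖z‖) ^ 2 := by
      apply pow_le_pow_left₀ (by norm_num)
      linarith
    nlinarith
  calc |ρ ^ 3 - 1| / ‖z‖ ^ 3 * ‖z‖ = |ρ ^ 3 - 1| * (1 / ‖z‖ ^ 2) := by field_simp
    _ ≤ 4 * η * (2 * Bb ^ 2) := by gcongr
    _ = 8 * η * Bb ^ 2 := by ring

/-- the complex number `(x + i λ g)(s) / S` -/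
noncomputable def zz (lam S : ℝ) (x g : List ℤ) (s : ℝ) : ℂ := ⟨ev x s / S, lam * (ev g s / S)⟩

theorem zz_norm_sq (lam S : ℝ) (x g : List ℤ) (s : ℝ) :
    ‖zz lam S x g s‖ ^ 2 = (ev x s / S) ^ 2 + lam ^ 2 * (ev g s / S) ^ 2 := by
  rw [← Complex.normSq_eq_norm_sq, Complex.normSq_apply, zz]
  ring

theorem zz_add (lam S : ℝ) (x g x' g' : List ℤ) (s : ℝ) :
    zz lam S (add x x') (add g g') s = zz lam S x g s + zz lam S x' g' s := by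
  apply Complex.ext
  · simp only [zz, ev_add, Complex.add_re]; ring
  · simp only [zz, ev_add, Complex.add_im]; ring

/-- masses -/
noncomputable def m1 : ℝ := 35244 / 41984
noncomputable def m2 : ℝ := 9396 / 41984
noncomputable def m3 : ℝ := 747 / 41984

/-- all equations of one piece -/
def okDat (o : Bool) (e1 e2 ql qd S : ℕ) (X : ℤ) (d : Dat) (Aux Aug Awx Awg : List ℤ) : Bool :=
  okPair o e2 ql qd S X d.ux d.ug d.bu && okPair o e2 ql qd S X d.wx d.wg d.bw &&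
  okPair o e2 ql qd S X d.sx d.sg d.bs &&
  okRes o e1 qd 41984 S 44640 747 X Aux d.ux d.bu d.wx d.bw d.sx d.bs &&
  okRes o e1 qd 41984 S 44640 747 X Aug d.ug d.bu d.wg d.bw d.sg d.bs &&
  okRes o e1 qd 41984 S 10143 35244 X Awx d.wx d.bw d.ux d.bu d.sx d.bs &&
  okRes o e1 qd 41984 S 10143 35244 X Awg d.wg d.bw d.ug d.bu d.sg d.bs

theorem norm_le_of_parts {z : ℂ} {a b : ℝ} (h1 : |z.re| ≤ a) (h2 : |z.im| ≤ b) : ‖z‖ ≤ a + b :=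
  (Complex.norm_le_abs_re_add_abs_im z).trans (add_le_add h1 h2)

theorem okDat_sound {o : Bool} {e1 e2 ql qd S : ℕ} {X : ℤ} {d : Dat} {Aux Aug Awx Awg : List ℤ}
    (hX : 0 < X) (hS : 0 < S) (hqd : 0 < qd) (he2 : 2 ≤ e2) {lam : ℝ} (hlam : 0 ≤ lam)
    (hl2 : lam ^ 2 = (ql : ℝ) / qd) (h : okDat o e1 e2 ql qd S X d Aux Aug Awx Awg = true)
    {Bb : ℝ} {s : ℝ} (h0 : 0 ≤ s) (h1 : s ≤ 1) (hBu : (pos d.bu : ℝ) / S ≤ Bb) (hBw : (pos d.bw : ℝ) / S ≤ Bb)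
    (hBs : (pos d.bs : ℝ) / S ≤ Bb) :
    (1 - 1 / 2 ^ e2) / (pos d.bu / S : ℝ) ≤ ‖zz lam S d.ux d.ug s‖ ∧
    (1 - 1 / 2 ^ e2) / (pos d.bw / S : ℝ) ≤ ‖zz lam S d.wx d.wg s‖ ∧
    (1 - 1 / 2 ^ e2) / (pos d.bs / S : ℝ) ≤ ‖zz lam S d.ux d.ug s + zz lam S d.wx d.wg s‖ ∧
    ‖((zz lam (qd * S) Aux Aug s, zz lam (qd * S) Awx Awg s) : E) -
      rf kep m1 m2 m3 (zz lam S d.ux d.ug s, zz lam S d.wx d.wg s)‖ ≤
      wt o s * ((1 + lam) / 2 ^ e1 + 16 * Bb ^ 2 / 2 ^ e2) := by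
  simp only [okDat, Bool.and_eq_true] at h
  obtain ⟨⟨⟨⟨⟨⟨p1, p2⟩, p3⟩, r1⟩, r2⟩, r3⟩, r4⟩ := h
  have hS' : (0 : ℝ) < S := by exact_mod_cast hS
  have hw := wt_nonneg o s
  have hw1 := wt_le o h0 h1
  have hη0 : 0 ≤ wt o s / 2 ^ e2 := by positivity
  have h4 : (4 : ℝ) ≤ 2 ^ e2 := by
    calc (4 : ℝ) = 2 ^ 2 := by norm_num
      _ ≤ 2 ^ e2 := pow_le_pow_right₀ (by norm_num) he2
  have hη1 : wt o s / 2 ^ e2 ≤ 1 / 4 := by
    rw [div_le_div_iff₀ (by positivity) (by norm_num)]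
    nlinarith
  have hη2 : wt o s / 2 ^ e2 ≤ 1 / 2 ^ e2 := by gcongr
  -- one pair
  have pair : ∀ x g b : List ℤ, okPair o e2 ql qd S X x g b = true →
      (1 - 1 / 2 ^ e2) / (pos b / S : ℝ) ≤ ‖zz lam S x g s‖ ∧ ((pos b / S : ℝ) ≤ Bb →
      ‖(((ev b s / S) ^ 3 : ℝ) : ℂ) * zz lam S x g s - kep (zz lam S x g s)‖ ≤ 8 * (wt o s / 2 ^ e2) * Bb ^ 2) := by
    intro x g b hb
    have q1 := okPair_sound hX hS hqd hb h0 h1
    have q2 : 0 < ev b s / S := div_pos (headPos_sound (okPair_head hb) h0 h1) hS'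
    have q3 : ev b s / S ≤ pos b / S := by gcongr; exact ev_le_pos b h0 h1
    have q4 : |(ev b s / S) ^ 2 * ‖zz lam S x g s‖ ^ 2 - 1| ≤ wt o s / 2 ^ e2 := by
      rw [zz_norm_sq, hl2]; exact q1
    constructor
    · refine le_trans ?_ (kep_approx q2 q3 hη0 hη1 q4).1
      have : 0 < pos b / (S : ℝ) := q2.trans_le q3
      gcongr
    · intro hbB
      exact (kep_approx q2 (q3.trans hbB) hη0 hη1 q4).2
  obtain ⟨a1, b1⟩ := pair _ _ _ p1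
  obtain ⟨a2, b2⟩ := pair _ _ _ p2
  obtain ⟨a3, b3⟩ := pair _ _ _ p3
  have hsum : zz lam S d.sx d.sg s = zz lam S d.ux d.ug s + zz lam S d.wx d.wg s := zz_add _ _ _ _ _ _ _
  rw [hsum] at a3 b3
  have b1 := b1 hBu
  have b2 := b2 hBw
  have b3 := b3 hBs
  refine ⟨a1, a2, a3, ?_⟩
  have s1 := okRes_sound hX hS hqd (by norm_num) r1 h0 h1
  have s2 := okRes_sound hX hS hqd (by norm_num) r2 h0 h1
  have s3 := okRes_sound hX hS hqd (by norm_num) r3 h0 h1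
  have s4 := okRes_sound hX hS hqd (by norm_num) r4 h0 h1
  -- the two components
  have comp : ∀ (n12 nc : ℕ) (Ax Ag x1 g1 b1 x2 g2 b2 x3 g3 b3 : List ℤ),
      |ev Ax s / (qd * S) - (-(n12 / (41984 : ℕ) : ℝ) * ((ev b1 s / S) ^ 3 * (ev x1 s / S)) +
        (nc / (41984 : ℕ) : ℝ) * ((ev b2 s / S) ^ 3 * (ev x2 s / S) - (ev b3 s / S) ^ 3 * (ev x3 s / S)))| ≤
        wt o s / 2 ^ e1 →
      |ev Ag s / (qd * S) - (-(n12 / (41984 : ℕ) : ℝ) * ((ev b1 s / S) ^ 3 * (ev g1 s / S)) +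
        (nc / (41984 : ℕ) : ℝ) * ((ev b2 s / S) ^ 3 * (ev g2 s / S) - (ev b3 s / S) ^ 3 * (ev g3 s / S)))| ≤
        wt o s / 2 ^ e1 →
      ‖(((ev b1 s / S) ^ 3 : ℝ) : ℂ) * zz lam S x1 g1 s - kep (zz lam S x1 g1 s)‖ ≤ 8 * (wt o s / 2 ^ e2) * Bb ^ 2 →
      ‖(((ev b2 s / S) ^ 3 : ℝ) : ℂ) * zz lam S x2 g2 s - kep (zz lam S x2 g2 s)‖ ≤ 8 * (wt o s / 2 ^ e2) * Bb ^ 2 →
      ‖(((ev b3 s / S) ^ 3 : ℝ) : ℂ) * zz lam S x3 g3 s - kep (zz lam S x3 g3 s)‖ ≤ 8 * (wt o s / 2 ^ e2) * Bb ^ 2 →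
      (n12 : ℝ) / 41984 + 2 * (nc / 41984) ≤ 2 →
      ‖zz lam (qd * S) Ax Ag s - (-(((n12 : ℝ) / 41984 : ℝ) : ℂ) * kep (zz lam S x1 g1 s) +
        (((nc : ℝ) / 41984 : ℝ) : ℂ) * (kep (zz lam S x2 g2 s) - kep (zz lam S x3 g3 s)))‖ ≤
        wt o s * ((1 + lam) / 2 ^ e1 + 16 * Bb ^ 2 / 2 ^ e2) := by
    intro n12 nc Ax Ag x1 g1 b1 x2 g2 b2 x3 g3 b3 c1 c2 k1 k2 k3 hn
    push_cast at c1 c2
    set α : ℝ := (n12 : ℝ) / 41984 with hα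
    set ν : ℝ := (nc : ℝ) / 41984 with hν
    have hα0 : 0 ≤ α := by positivity
    have hν0 : 0 ≤ ν := by positivity
    set β1 := ev b1 s / S
    set β2 := ev b2 s / S
    set β3 := ev b3 s / S
    set Y : ℂ := -(α : ℂ) * (((β1 ^ 3 : ℝ) : ℂ) * zz lam S x1 g1 s) +
      (ν : ℂ) * (((β2 ^ 3 : ℝ) : ℂ) * zz lam S x2 g2 s - ((β3 ^ 3 : ℝ) : ℂ) * zz lam S x3 g3 s) with hY
    have y1 : ‖zz lam (qd * S) Ax Ag s - Y‖ ≤ wt o s / 2 ^ e1 + lam * (wt o s / 2 ^ e1) := by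
      apply norm_le_of_parts
      · have : (zz lam (qd * S) Ax Ag s - Y).re = ev Ax s / (qd * S) - (-α * (β1 ^ 3 * (ev x1 s / S)) +
            ν * (β2 ^ 3 * (ev x2 s / S) - β3 ^ 3 * (ev x3 s / S))) := by
          rw [hY]
          simp only [zz, Complex.sub_re, Complex.add_re, Complex.mul_re, Complex.neg_re, Complex.neg_im,
            Complex.ofReal_re, Complex.ofReal_im, Complex.sub_im, Complex.mul_im]
          ring
        rw [this]; exact c1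
      · have : (zz lam (qd * S) Ax Ag s - Y).im = lam * (ev Ag s / (qd * S) - (-α * (β1 ^ 3 * (ev g1 s / S)) +
            ν * (β2 ^ 3 * (ev g2 s / S) - β3 ^ 3 * (ev g3 s / S)))) := by
          rw [hY]
          simp only [zz, Complex.sub_re, Complex.add_im, Complex.mul_re, Complex.neg_re, Complex.neg_im,
            Complex.ofReal_re, Complex.ofReal_im, Complex.sub_im, Complex.mul_im]
          ring
        rw [this, abs_mul, abs_of_nonneg hlam]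
        exact mul_le_mul_of_nonneg_left c2 hlam
    have y2 : ‖Y - (-(α : ℂ) * kep (zz lam S x1 g1 s) +
        (ν : ℂ) * (kep (zz lam S x2 g2 s) - kep (zz lam S x3 g3 s)))‖ ≤
        (α + 2 * ν) * (8 * (wt o s / 2 ^ e2) * Bb ^ 2) := by
      have : Y - (-(α : ℂ) * kep (zz lam S x1 g1 s) +
        (ν : ℂ) * (kep (zz lam S x2 g2 s) - kep (zz lam S x3 g3 s))) =
        -(α : ℂ) * (((β1 ^ 3 : ℝ) : ℂ) * zz lam S x1 g1 s - kep (zz lam S x1 g1 s)) +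
        ((ν : ℂ) * (((β2 ^ 3 : ℝ) : ℂ) * zz lam S x2 g2 s - kep (zz lam S x2 g2 s)) -
        (ν : ℂ) * (((β3 ^ 3 : ℝ) : ℂ) * zz lam S x3 g3 s - kep (zz lam S x3 g3 s))) := by
        rw [hY]; ring
      rw [this]
      refine (norm_add_le _ _).trans ?_
      refine (add_le_add_right (norm_sub_le _ _) _).trans ?_
      rw [norm_mul, norm_mul, norm_mul, norm_neg, Complex.norm_real, Complex.norm_real,
        Real.norm_of_nonneg hα0, Real.norm_of_nonneg hν0]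
      have t1 := mul_le_mul_of_nonneg_left k1 hα0
      have t2 := mul_le_mul_of_nonneg_left k2 hν0
      have t3 := mul_le_mul_of_nonneg_left k3 hν0
      nlinarith
    have y3 : (α + 2 * ν) * (8 * (wt o s / 2 ^ e2) * Bb ^ 2) ≤ 2 * (8 * (wt o s / 2 ^ e2) * Bb ^ 2) := by
      gcongr
    have y4 := norm_sub_le_norm_sub_add_norm_sub (zz lam (qd * S) Ax Ag s) Y
      (-(α : ℂ) * kep (zz lam S x1 g1 s) + (ν : ℂ) * (kep (zz lam S x2 g2 s) - kep (zz lam S x3 g3 s)))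
    have y5 : wt o s * ((1 + lam) / 2 ^ e1 + 16 * Bb ^ 2 / 2 ^ e2) = (wt o s / 2 ^ e1 + lam * (wt o s / 2 ^ e1)) +
        2 * (8 * (wt o s / 2 ^ e2) * Bb ^ 2) := by ring
    rw [y5]
    linarith
  have f1 := comp 44640 747 _ _ _ _ _ _ _ _ _ _ _ s1 s2 b1 b2 (by rw [hsum]; exact b3) (by norm_num)
  have f2 := comp 10143 35244 _ _ _ _ _ _ _ _ _ _ _ s3 s4 b2 b1 (by rw [hsum]; exact b3) (by norm_num)
  rw [hsum] at f1 f2
  have hm12 : m1 + m2 = 44640 / 41984 := by unfold m1 m2; norm_num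
  have hm23 : m2 + m3 = 10143 / 41984 := by unfold m2 m3; norm_num
  rw [Prod.norm_def]
  refine max_le ?_ ?_
  · refine le_trans (le_of_eq ?_) f1
    show ‖zz lam (qd * S) Aux Aug s - (-((m1 + m2 : ℝ) : ℂ) * kep (zz lam S d.ux d.ug s) +
      (m3 : ℂ) * (kep (zz lam S d.wx d.wg s) - kep (zz lam S d.ux d.ug s + zz lam S d.wx d.wg s)))‖ = _
    rw [hm12]
    congr 3
  · refine le_trans (le_of_eq ?_) f2
    show ‖zz lam (qd * S) Awx Awg s - (-((m2 + m3 : ℝ) : ℂ) * kep (zz lam S d.wx d.wg s) +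
      (m1 : ℂ) * (kep (zz lam S d.ux d.ug s) - kep (zz lam S d.ux d.ug s + zz lam S d.wx d.wg s)))‖ = _
    rw [hm23]
    congr 3

end Pool.Agent.H99.TB
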