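import Pool.Agent.H99.TB.Poly

/-! Kronecker substitution: polynomial identities with small coefficients from one big integer. -/

set_option autoImplicit false

namespace Pool.Agent.H99.TB.Poly

/-- value at an integer -/
def evI : List ℤ → ℤ → ℤ
  | [], _ => 0
  | a :: l, x => a + x * evI l x

theorem evI_add (a b : List ℤ) (x : ℤ) : evI (add a b) x = evI a x + evI b x := by
  induction a generalizing b with
  | nil => simp [add, evI]
  | cons a l ih =>
    cases b with
    | nil => simp [add, evI]
    | cons b m => simp only [add, evI, ih]; ring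

theorem evI_smul (c : ℤ) (a : List ℤ) (x : ℤ) : evI (smul c a) x = c * evI a x := by
  induction a with
  | nil => simp [smul, evI]
  | cons a l ih => simp only [smul, evI, ih]; ring

theorem evI_mul (a b : List ℤ) (x : ℤ) : evI (mul a b) x = evI a x * evI b x := by
  induction a with
  | nil => simp [mul, evI]
  | cons a l ih => simp only [mul, evI, evI_add, evI_smul, ih]; ring

theorem nrm_add_le (a b : List ℤ) : nrm (add a b) ≤ nrm a + nrm b := by
  induction a generalizing b with
  | nil => simp [add, nrm]
  | cons a l ih =>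
    cases b with
    | nil => simp [add, nrm]
    | cons b m =>
      simp only [add, nrm]
      have h1 := Int.natAbs_add_le a b
      have h2 := ih m
      omega

theorem nrm_smul (c : ℤ) (a : List ℤ) : nrm (smul c a) = c.natAbs * nrm a := by
  induction a with
  | nil => simp [smul, nrm]
  | cons a l ih => simp only [smul, nrm, ih, Int.natAbs_mul]; ring

theorem nrm_mul_le (a b : List ℤ) : nrm (mul a b) ≤ nrm a * nrm b := by
  induction a with
  | nil => simp [mul, nrm]
  | cons a l ih =>
    simp only [mul, nrm]
    refine (nrm_add_le _ _).trans ?_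
    rw [nrm_smul]
    simp only [nrm, Int.natAbs_zero, Nat.zero_add]
    calc _ ≤ a.natAbs * nrm b + nrm l * nrm b := by omega
      _ = _ := by ring

/-- balanced digits of `v` in base `X`; the last entry is the rest -/
def unp (X : ℤ) : ℕ → ℤ → List ℤ
  | 0, v => [v]
  | n + 1, v =>
    ((v + X / 2) % X - X / 2) :: unp X n ((v + X / 2) / X)

theorem evI_unp (X : ℤ) (n : ℕ) (v : ℤ) : evI (unp X n v) X = v := by
  induction n generalizing v with
  | zero => simp [unp, evI]
  | succ n ih =>
    simp only [unp, evI, ih]
    have := Int.emod_add_mul_ediv (v + X / 2) X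
    linarith

theorem eq_of_evI {X : ℤ} (hX : 0 < X) (a b : List ℤ) (ha : 2 * (nrm a : ℤ) < X) (hb : 2 * (nrm b : ℤ) < X)
    (h : evI a X = evI b X) (x : ℝ) : ev a x = ev b x := by
  have step : ∀ (a0 b0 A B : ℤ), 2 * |a0| < X → 2 * |b0| < X → a0 + X * A = b0 + X * B → a0 = b0 ∧ A = B := by
    intro a0 b0 A B h1 h2 h3
    have h4 : a0 - b0 = X * (B - A) := by linarith
    have h5 : |a0 - b0| < X := by
      have := abs_sub a0 b0
      linarith
    have h6 : B - A = 0 := by
      by_contra hne
      have h7 : 1 ≤ |B - A| := Int.one_le_abs hne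
      have h8 : X ≤ |a0 - b0| := by
        rw [h4, abs_mul, abs_of_pos hX]
        nlinarith
      linarith
    constructor
    · rw [h6] at h4; linarith
    · linarith
  have na : ∀ (c : ℤ) (l : List ℤ), 2 * (nrm (c :: l) : ℤ) < X → 2 * |c| < X ∧ 2 * (nrm l : ℤ) < X := by
    intro c l hc
    simp only [nrm] at hc
    push_cast at hc
    have e1 : (0 : ℤ) ≤ |c| := abs_nonneg c
    have e2 : (0 : ℤ) ≤ (nrm l : ℤ) := by positivity
    constructor <;> linarith
  induction a generalizing b with
  | nil =>
    induction b with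
    | nil => rfl
    | cons b m ihb =>
      obtain ⟨q1, q2⟩ := na b m hb
      obtain ⟨p1, p2⟩ := step 0 b 0 (evI m X) (by simpa using hX) q1 (by simpa [evI] using h)
      have := ihb q2 (by simpa [evI] using p2)
      rw [ev_cons, ← this, ← p1]
      simp
  | cons a l ih =>
    obtain ⟨r1, r2⟩ := na a l ha
    cases b with
    | nil =>
      obtain ⟨p1, p2⟩ := step a 0 (evI l X) 0 r1 (by simpa using hX) (by simpa [evI] using h)
      have := ih [] r2 (by simpa [nrm] using hX) (by simpa [evI] using p2)
      rw [ev_cons, this, p1]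
      simp
    | cons b m =>
      obtain ⟨q1, q2⟩ := na b m hb
      obtain ⟨p1, p2⟩ := step a b (evI l X) (evI m X) r1 q1 (by simpa [evI] using h)
      rw [ev_cons, ev_cons, ih m r2 q2 p2, p1]

/-- The norm of a polynomial can be bounded through the digits of its value at `X`. -/
theorem kron {X : ℤ} (hX : 0 < X) (R : List ℤ) (n : ℕ) (v : ℤ) (hv : evI R X = v) (hR : 2 * (nrm R : ℤ) < X)
    (hr : 2 * (nrm (unp X n v) : ℤ) < X) (x : ℝ) : ev R x = ev (unp X n v) x :=
  eq_of_evI hX R _ hR hr (by rw [evI_unp, hv]) x

/-- the first two coefficients vanish -/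
def ord2 : List ℤ → Bool
  | a :: b :: _ => decide (a = 0) && decide (b = 0)
  | _ => false

theorem abs_ev_le2 (l : List ℤ) (h : ord2 l = true) {x : ℝ} (h0 : 0 ≤ x) (h1 : x ≤ 1) :
    |ev l x| ≤ x ^ 2 * nrm l := by
  match l, h with
  | a :: b :: m, h =>
    simp only [ord2, Bool.and_eq_true, decide_eq_true_eq] at h
    obtain ⟨rfl, rfl⟩ := h
    simp only [ev_cons, nrm, Int.cast_zero, Int.natAbs_zero, zero_add, add_zero]
    rw [abs_mul, abs_mul, abs_of_nonneg h0]
    have h2 := abs_ev_le m h0 h1
    have : x * (x * |ev m x|) ≤ x * (x * (nrm m : ℝ)) := by gcongr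
    calc _ ≤ _ := this
      _ = _ := by ring

end Pool.Agent.H99.TB.Poly
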