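import Mathlib

/-! Integer polynomials as lists of coefficients, with real evaluation, sup norm bounds on the unit
interval and derivatives. -/

set_option autoImplicit false

namespace Pool.Agent.H99.TB.Poly

/-- value at a real number -/
noncomputable def ev : List ℤ → ℝ → ℝ
  | [], _ => 0
  | a :: l, x => a + x * ev l x

def add : List ℤ → List ℤ → List ℤ
  | [], b => b
  | a :: l, [] => a :: l
  | a :: l, b :: m => (a + b) :: add l m

def smul (c : ℤ) : List ℤ → List ℤ
  | [] => []
  | a :: l => (c * a) :: smul c l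

def mul : List ℤ → List ℤ → List ℤ
  | [], _ => []
  | a :: l, b => add (smul a b) (0 :: mul l b)

/-- derivative -/
def der : List ℤ → List ℤ
  | [] => []
  | _ :: l => add l (0 :: der l)

def nrm : List ℤ → ℕ
  | [] => 0
  | a :: l => a.natAbs + nrm l

@[simp] theorem ev_nil (x : ℝ) : ev [] x = 0 := rfl
@[simp] theorem ev_cons (a : ℤ) (l : List ℤ) (x : ℝ) : ev (a :: l) x = a + x * ev l x := rfl

theorem ev_add (a b : List ℤ) (x : ℝ) : ev (add a b) x = ev a x + ev b x := by
  induction a generalizing b with
  | nil => simp [add]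
  | cons a l ih =>
    cases b with
    | nil => simp [add]
    | cons b m => simp only [add, ev_cons, ih]; push_cast; ring

theorem ev_smul (c : ℤ) (a : List ℤ) (x : ℝ) : ev (smul c a) x = c * ev a x := by
  induction a with
  | nil => simp [smul]
  | cons a l ih => simp only [smul, ev_cons, ih]; push_cast; ring

theorem ev_mul (a b : List ℤ) (x : ℝ) : ev (mul a b) x = ev a x * ev b x := by
  induction a with
  | nil => simp [mul]
  | cons a l ih => simp only [mul, ev_cons, ev_add, ev_smul, ih]; push_cast; ring

theorem hasDerivAt_ev (l : List ℤ) (x : ℝ) : HasDerivAt (ev l) (ev (der l) x) x := by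
  induction l with
  | nil =>
    show HasDerivAt (fun _ => (0 : ℝ)) 0 x
    exact hasDerivAt_const x (0 : ℝ)
  | cons a l ih =>
    have h := ((hasDerivAt_id x).mul ih).const_add (a : ℝ)
    have e : ev (der (a :: l)) x = 1 * ev l x + id x * ev (der l) x := by
      simp only [der, ev_add, ev_cons, id]; push_cast; ring
    rw [e]
    exact h

theorem abs_ev_le (l : List ℤ) {x : ℝ} (h0 : 0 ≤ x) (h1 : x ≤ 1) : |ev l x| ≤ nrm l := by
  induction l with
  | nil => simp [nrm]
  | cons a l ih =>
    simp only [ev_cons, nrm]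
    push_cast
    refine (abs_add_le _ _).trans ?_
    rw [abs_mul, abs_of_nonneg h0]
    have h2 : |(a : ℝ)| = (a.natAbs : ℝ) := by
      rw [Nat.cast_natAbs]; simp
    rw [h2]
    have h3 : x * |ev l x| ≤ 1 * |ev l x| := mul_le_mul_of_nonneg_right h1 (abs_nonneg _)
    linarith

/-- lower bound on the unit interval: first coefficient minus the norm of the rest -/
theorem ev_ge (a : ℤ) (l : List ℤ) {x : ℝ} (h0 : 0 ≤ x) (h1 : x ≤ 1) : (a : ℝ) - nrm l ≤ ev (a :: l) x := by
  have h2 := abs_ev_le l h0 h1
  have h3 : |x * ev l x| ≤ nrm l := by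
    rw [abs_mul, abs_of_nonneg h0]
    have h3 : x * |ev l x| ≤ 1 * |ev l x| := mul_le_mul_of_nonneg_right h1 (abs_nonneg _)
    linarith
  rw [ev_cons]
  linarith [neg_abs_le (x * ev l x)]

theorem continuous_ev (l : List ℤ) : Continuous (ev l) :=
  continuous_iff_continuousAt.2 fun x => (hasDerivAt_ev l x).continuousAt

end Pool.Agent.H99.TB.Poly
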