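import Pool.Agent.H99.TB.TrNodes

/-! Kernel checks of the validated integration, part 0. -/

set_option autoImplicit false

namespace Pool.Agent.H99.TB

theorem c0 : (okS n0 && okJ n0 n1) = true := by decide +kernel
theorem c1 : (okS n1 && okJ n1 n2) = true := by decide +kernel
theorem c2 : (okS n2 && okJ n2 n3) = true := by decide +kernel
theorem c3 : (okS n3 && okJ n3 n4) = true := by decide +kernel
theorem c4 : (okS n4 && okJ n4 n5) = true := by decide +kernel
theorem c5 : (okS n5 && okJ n5 n6) = true := by decide +kernel
theorem c6 : (okS n6 && okJ n6 n7) = true := by decide +kernel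
theorem c7 : (okS n7 && okJ n7 n8) = true := by decide +kernel
theorem c8 : (okS n8 && okJ n8 n9) = true := by decide +kernel
theorem c9 : (okS n9 && okJ n9 n10) = true := by decide +kernel
theorem c10 : (okS n10 && okJ n10 n11) = true := by decide +kernel
theorem c11 : (okS n11 && okJ n11 n12) = true := by decide +kernel
theorem c12 : (okS n12 && okJ n12 n13) = true := by decide +kernel
theorem c13 : (okS n13 && okJ n13 n14) = true := by decide +kernel
theorem c14 : (okS n14 && okJ n14 n15) = true := by decide +kernel
theorem c15 : (okS n15 && okJ n15 n16) = true := by decide +kernel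
theorem c16 : (okS n16 && okJ n16 n17) = true := by decide +kernel
theorem c17 : (okS n17 && okJ n17 n18) = true := by decide +kernel
theorem c18 : (okS n18 && okJ n18 n19) = true := by decide +kernel
theorem c19 : (okS n19 && okJ n19 n20) = true := by decide +kernel

end Pool.Agent.H99.TB
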