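import Pool.Agent.H99.TB.TrNodes

/-! Kernel checks of the validated integration, part 1. -/

set_option autoImplicit false

namespace Pool.Agent.H99.TB

theorem c20 : (okS n20 && okJ n20 n21) = true := by decide +kernel
theorem c21 : (okS n21 && okJ n21 n22) = true := by decide +kernel
theorem c22 : (okS n22 && okJ n22 n23) = true := by decide +kernel
theorem c23 : (okS n23 && okJ n23 n24) = true := by decide +kernel
theorem c24 : (okS n24 && okJ n24 n25) = true := by decide +kernel
theorem c25 : (okS n25 && okJ n25 n26) = true := by decide +kernel
theorem c26 : (okS n26 && okJ n26 n27) = true := by decide +kernel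
theorem c27 : (okS n27 && okJ n27 n28) = true := by decide +kernel
theorem c28 : (okS n28 && okJ n28 n29) = true := by decide +kernel
theorem c29 : (okS n29 && okJ n29 n30) = true := by decide +kernel
theorem c30 : (okS n30 && okJ n30 n31) = true := by decide +kernel
theorem c31 : (okS n31 && okJ n31 n32) = true := by decide +kernel
theorem c32 : (okS n32 && okJ n32 n33) = true := by decide +kernel
theorem c33 : (okS n33 && okJ n33 n34) = true := by decide +kernel
theorem c34 : (okS n34 && okJ n34 n35) = true := by decide +kernel
theorem c35 : (okS n35 && okJ n35 n36) = true := by decide +kernel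
theorem c36 : (okS n36 && okJ n36 n37) = true := by decide +kernel
theorem c37 : (okS n37 && okJ n37 n38) = true := by decide +kernel
theorem c38 : (okS n38 && okJ n38 n39) = true := by decide +kernel
theorem c39 : (okS n39 && okJ n39 n40) = true := by decide +kernel

end Pool.Agent.H99.TB
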