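import Pool.Agent.H99.TB.TrNodes

/-! Kernel checks of the validated integration, part 2. -/

set_option autoImplicit false

namespace Pool.Agent.H99.TB

theorem c40 : (okS n40 && okJ n40 n41) = true := by decide +kernel
theorem c41 : (okS n41 && okJ n41 n42) = true := by decide +kernel
theorem c42 : (okS n42 && okJ n42 n43) = true := by decide +kernel
theorem c43 : (okS n43 && okJ n43 n44) = true := by decide +kernel
theorem c44 : (okS n44 && okJ n44 n45) = true := by decide +kernel
theorem c45 : (okS n45 && okJ n45 n46) = true := by decide +kernel
theorem c46 : (okS n46 && okJ n46 n47) = true := by decide +kernel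
theorem c47 : (okS n47 && okJ n47 n48) = true := by decide +kernel
theorem c48 : (okS n48 && okJ n48 n49) = true := by decide +kernel
theorem c49 : (okS n49 && okJ n49 n50) = true := by decide +kernel
theorem c50 : (okS n50 && okJ n50 n51) = true := by decide +kernel
theorem c51 : (okS n51 && okJ n51 n52) = true := by decide +kernel
theorem c52 : (okS n52 && okJ n52 n53) = true := by decide +kernel
theorem c53 : (okS n53 && okJ n53 n54) = true := by decide +kernel
theorem c54 : (okS n54 && okJ n54 n55) = true := by decide +kernel
theorem c55 : (okS n55 && okJ n55 n56) = true := by decide +kernel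
theorem c56 : (okS n56 && okJ n56 n57) = true := by decide +kernel
theorem c57 : (okS n57 && okJ n57 n58) = true := by decide +kernel
theorem c58 : (okS n58 && okJ n58 n59) = true := by decide +kernel
theorem c59 : (okS n59 && okJ n59 n60) = true := by decide +kernel

end Pool.Agent.H99.TB
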