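import Pool.Agent.H99.TB.TrNodes

/-! Kernel checks of the validated integration, part 3. -/

set_option autoImplicit false

namespace Pool.Agent.H99.TB

theorem c60 : (okS n60 && okJ n60 n61) = true := by decide +kernel
theorem c61 : (okS n61 && okJ n61 n62) = true := by decide +kernel
theorem c62 : (okS n62 && okJ n62 n63) = true := by decide +kernel
theorem c63 : (okS n63 && okJ n63 n64) = true := by decide +kernel
theorem c64 : (okS n64 && okJ n64 n65) = true := by decide +kernel
theorem c65 : (okS n65 && okJ n65 n66) = true := by decide +kernel
theorem c66 : (okS n66 && okJ n66 n67) = true := by decide +kernel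
theorem c67 : (okS n67 && okJ n67 n68) = true := by decide +kernel
theorem c68 : (okS n68 && okJ n68 n69) = true := by decide +kernel
theorem c69 : (okS n69 && okJ n69 n70) = true := by decide +kernel
theorem c70 : (okS n70 && okJ n70 n71) = true := by decide +kernel
theorem c71 : (okS n71 && okJ n71 n72) = true := by decide +kernel
theorem c72 : (okS n72 && okJ n72 n73) = true := by decide +kernel
theorem c73 : (okS n73 && okJ n73 n74) = true := by decide +kernel
theorem c74 : (okS n74 && okJ n74 n75) = true := by decide +kernel
theorem c75 : (okS n75 && okJ n75 n76) = true := by decide +kernel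
theorem c76 : (okS n76 && okJ n76 n77) = true := by decide +kernel
theorem c77 : (okS n77 && okJ n77 n78) = true := by decide +kernel
theorem c78 : (okS n78 && okJ n78 n79) = true := by decide +kernel
theorem c79 : (okS n79 && okJ n79 n80) = true := by decide +kernel

end Pool.Agent.H99.TB
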