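import Pool.Agent.H99.TB.TrStep

/-! Checks and soundness for the data of one step of the validated integration. -/

set_option autoImplicit false

namespace Pool.Agent.H99.TB

open Set Complex Pool.Agent.H99.TB.Poly

/-- data of one step -/
structure TD where
  x : List ℤ
  y : List ℤ
  b1 : List ℤ
  b2 : List ℤ
  kk : ℕ
  rr : ℕ
  r1 : ℕ
  r2 : ℕ
  nn : ℕ

/-- approximate Taylor polynomial of `cos (s/4)`, `sin (s/4)`, scaled by `2^90` -/
def tx : List ℤ := [1237940039285380274899124224,0,-38685626227668133590597632,0,201487636602438195784363,0,-419765909588412907884,0,468488738379925120,0,-325339401652726,0,154043277298,0,-52899477,0,13776,0,-3]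
def ty : List ℤ := [0,309485009821345068724781056,0,-3223802185639011132549803,0,10074381830121909789218,0,-14991639628157603853,0,13013576066109031,0,-7394077310289,0,2962370717,0,-881658,0,203]

@[irreducible] def S0 : ℕ := 2 ^ 90
@[irreducible] def SS : ℕ := 82 * 2 ^ 90
@[irreducible] def XX : ℤ := 2 ^ 448

/-- derivative with respect to the time `τ = s/4` -/
def dd (l : List ℤ) : List ℤ := smul 4 (der l)

theorem hasDerivAt_zz (S : ℝ) (x y : List ℤ) (τ : ℝ) :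
    HasDerivAt (fun τ : ℝ => zz 1 S x y (4 * τ)) (zz 1 S (dd x) (dd y) (4 * τ)) τ := by
  have e : ∀ l : List ℤ, HasDerivAt (fun τ : ℝ => ev l (4 * τ) / S) (ev (dd l) (4 * τ) / S) τ := by
    intro l
    have h4 : HasDerivAt (fun τ : ℝ => 4 * τ) 4 τ := by
      simpa using (hasDerivAt_id τ).const_mul (4 : ℝ)
    have h := (HasDerivAt.comp τ (hasDerivAt_ev l (4 * τ)) h4).div_const S
    have h2 : ev (der l) (4 * τ) * 4 / S = ev (dd l) (4 * τ) / S := by
      rw [dd, ev_smul]; push_cast; ring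
    rw [← h2]
    exact h
  have hx := (e x).ofReal_comp
  have hy := (e y).ofReal_comp.mul_const I
  have h := hx.add hy
  have z1 : ∀ (a b : List ℤ) (τ : ℝ), zz 1 S a b (4 * τ) =
      ((ev a (4 * τ) / S : ℝ) : ℂ) + ((ev b (4 * τ) / S : ℝ) : ℂ) * I := by
    intro a b τ
    apply Complex.ext <;> simp [zz]
  have h3 : (fun τ : ℝ => zz 1 S x y (4 * τ)) =
      fun τ : ℝ => ((ev x (4 * τ) / S : ℝ) : ℂ) + ((ev y (4 * τ) / S : ℝ) : ℂ) * I := by
    funext τ; exact z1 x y τ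
  rw [h3, z1]
  exact h

theorem ev_int (l : List ℤ) (n : ℤ) : ev l (n : ℝ) = (evI l n : ℝ) := by
  induction l with
  | nil => simp [evI]
  | cons a l ih => simp only [ev_cons, evI, ih]; push_cast; ring

theorem ev_zero' (l : List ℤ) : ev l 0 = (evI l 0 : ℝ) := by
  have := ev_int l 0
  simpa using this

theorem ev_one' (l : List ℤ) : ev l 1 = (evI l 1 : ℝ) := by
  have := ev_int l 1
  simpa using this

theorem norm_zz_le {S : ℝ} (hS : 0 < S) (a b : List ℤ) {s : ℝ} (h0 : 0 ≤ s) (h1 : s ≤ 1) :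
    ‖zz 1 S a b s‖ ≤ (nrm a + nrm b : ℝ) / S := by
  rw [add_div]
  apply norm_le_of_parts
  · show |ev a s / S| ≤ _
    rw [abs_div, abs_of_pos hS]
    gcongr
    exact abs_ev_le a h0 h1
  · show |1 * (ev b s / S)| ≤ _
    rw [one_mul, abs_div, abs_of_pos hS]
    gcongr
    exact abs_ev_le b h0 h1

/-- the Taylor polynomial is close to the exponential function -/
theorem T_close : ∀ τ ∈ Icc (0:ℝ) (1/4), ‖zz 1 S0 tx ty (4 * τ) - cexp (I * τ)‖ ≤ 1 / 2 ^ 77 := by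
  set f : ℝ → ℂ × ℂ := fun τ => (zz 1 S0 tx ty (4 * τ) - cexp (I * τ),
    zz 1 S0 (dd tx) (dd ty) (4 * τ) - cexp (I * τ) * I) with hf
  have he : ∀ τ : ℝ, HasDerivAt (fun τ : ℝ => cexp (I * τ)) (cexp (I * τ) * I) τ := by
    intro τ
    have h1 : HasDerivAt (fun τ : ℝ => I * (τ : ℂ)) I τ := by
      simpa using (hasDerivAt_id τ).ofReal_comp.const_mul I
    exact h1.cexp
  have he2 : ∀ τ : ℝ, HasDerivAt (fun τ : ℝ => cexp (I * τ) * I) (cexp (I * τ) * I * I) τ := fun τ =>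
    (he τ).mul_const I
  have hfd : ∀ τ, HasDerivAt f (zz 1 S0 (dd tx) (dd ty) (4 * τ) - cexp (I * τ) * I,
      zz 1 S0 (dd (dd tx)) (dd (dd ty)) (4 * τ) - cexp (I * τ) * I * I) τ := fun τ =>
    ((hasDerivAt_zz _ _ _ τ).sub (he τ)).prodMk ((hasDerivAt_zz _ _ _ τ).sub (he2 τ))
  have hres : nrm (add (dd (dd tx)) tx) + nrm (add (dd (dd ty)) ty) ≤ 2 ^ 13 := by decide +kernel
  have key := norm_le_gronwallBound_of_norm_deriv_right_le (f := f) (δ := 0) (K := 1) (ε := 1 / 2 ^ 77)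
    (a := 0) (b := 1/4) (fun τ _ => (hfd τ).continuousAt.continuousWithinAt)
    (fun τ _ => (hfd τ).hasDerivWithinAt) ?_ ?_
  · intro τ hτ
    have k1 := key τ hτ
    have k2 : ‖zz 1 S0 tx ty (4 * τ) - cexp (I * τ)‖ ≤ ‖f τ‖ := norm_fst_le (f τ)
    refine k2.trans (k1.trans ?_)
    rw [gronwallBound_of_K_ne_0 one_ne_zero]
    simp only [zero_mul, zero_add, div_one, one_mul, sub_zero]
    have h3 : Real.exp τ ≤ 2 := by
      have h4 : Real.exp τ ≤ Real.exp (1/4) := Real.exp_le_exp.2 hτ.2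
      have h5 := Real.exp_bound' (x := 1/4) (by norm_num) (by norm_num) (n := 2) (by norm_num)
      have h6 : Real.exp (1/4) ≤ 2 := by
        refine h5.trans ?_
        simp [Finset.sum_range_succ, Nat.factorial]
        norm_num
      linarith
    have h4 : (0:ℝ) < 1 / 2 ^ 77 := by positivity
    nlinarith
  · have t1 : evI tx 0 = 2 ^ 90 := by decide +kernel
    have t2 : evI ty 0 = 0 := by decide +kernel
    have t3 : evI (dd tx) 0 = 0 := by decide +kernel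
    have t4 : evI (dd ty) 0 = 2 ^ 90 := by decide +kernel
    have s0 : ((S0 : ℕ) : ℝ) = 2 ^ 90 := by norm_num [S0]
    have u1 : zz 1 S0 tx ty (4 * 0) = 1 := by
      rw [mul_zero, zz, ev_zero', ev_zero', t1, t2, s0]
      apply Complex.ext
      · simp; norm_num
      · simp
    have u2 : zz 1 S0 (dd tx) (dd ty) (4 * 0) = I := by
      rw [mul_zero, zz, ev_zero', ev_zero', t3, t4, s0]
      apply Complex.ext
      · simp
      · simp; norm_num
    have u3 : f 0 = 0 := by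
      rw [hf]
      show (zz 1 S0 tx ty (4 * 0) - cexp (I * ((0:ℝ):ℂ)), zz 1 S0 (dd tx) (dd ty) (4 * 0) - cexp (I * ((0:ℝ):ℂ)) * I) = 0
      rw [u1, u2]
      simp
    rw [u3, norm_zero]
  · intro τ hτ
    have e1 : zz 1 S0 (dd (dd tx)) (dd (dd ty)) (4 * τ) - cexp (I * τ) * I * I =
        zz 1 S0 (add (dd (dd tx)) tx) (add (dd (dd ty)) ty) (4 * τ) - (zz 1 S0 tx ty (4 * τ) - cexp (I * τ)) := by
      rw [zz_add, mul_assoc, I_mul_I]; ring
    have hS : (0:ℝ) < (S0 : ℕ) := by norm_num [S0]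
    have e2 := norm_zz_le hS (add (dd (dd tx)) tx) (add (dd (dd ty)) ty) (s := 4 * τ) (by linarith [hτ.1]) (by linarith [hτ.2])
    have e3 : ((nrm (add (dd (dd tx)) tx) : ℝ) + nrm (add (dd (dd ty)) ty)) / S0 ≤ 1 / 2 ^ 77 := by
      have : ((nrm (add (dd (dd tx)) tx) : ℝ) + nrm (add (dd (dd ty)) ty)) ≤ 2 ^ 13 := by exact_mod_cast hres
      rw [div_le_div_iff₀ hS (by positivity)]
      have hs : ((S0 : ℕ) : ℝ) = 2 ^ 13 * 2 ^ 77 := by norm_num [S0]
      rw [hs, one_mul]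
      gcongr
    rw [e1]
    have e4 : ‖zz 1 S0 tx ty (4 * τ) - cexp (I * τ)‖ ≤ ‖f τ‖ := norm_fst_le (f τ)
    have e5 : ‖zz 1 S0 (dd tx) (dd ty) (4 * τ) - cexp (I * τ) * I‖ ≤ ‖f τ‖ := norm_snd_le (f τ)
    rw [one_mul, Prod.norm_mk]
    refine max_le ?_ ?_
    · have : (0:ℝ) < 1 / 2 ^ 77 := by positivity
      linarith
    · refine (norm_sub_le _ _).trans ?_
      linarith

/-- internal checks of a step -/
def okS (d : TD) : Bool :=
  okPair false 80 1 1 SS XX (add d.x (smul 19 tx)) (add d.y (smul 19 ty)) d.b1 &&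
  okPair false 80 1 1 SS XX (add d.x (smul (-63) tx)) (add d.y (smul (-63) ty)) d.b2 &&
  okRes false 76 1 82 SS 63 19 XX (dd (dd d.x)) (add d.x (smul 19 tx)) d.b1 [] [] (add d.x (smul (-63) tx)) d.b2 &&
  okRes false 76 1 82 SS 63 19 XX (dd (dd d.y)) (add d.y (smul 19 ty)) d.b1 [] [] (add d.y (smul (-63) ty)) d.b2 &&
  decide (pos d.b1 * (d.r1 * d.rr + 10 ^ 6) * (2 ^ 50 + 1) ≤ SS * 10 ^ 6 * d.rr * 2 ^ 50) &&
  decide (pos d.b2 * (d.r2 * d.rr + 10 ^ 6) * (2 ^ 50 + 1) ≤ SS * 10 ^ 6 * d.rr * 2 ^ 50) &&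
  decide (2 * 10 ^ 24 * (63 * d.r2 ^ 3 + 19 * d.r1 ^ 3) ≤ 82 * d.kk ^ 2 * d.r1 ^ 3 * d.r2 ^ 3) &&
  decide (450000 ≤ d.r1) && decide (450000 ≤ d.r2) && decide (0 < d.rr) && decide (0 < d.kk) && decide (d.kk ≤ 3000)

/-- checks of the transition to the next step -/
def okJ (d d' : TD) : Bool :=
  decide ((d.nn + 2 ^ 25) * 1024000 ^ 256 ≤ d'.nn * (1024000 - d.kk) ^ 256) &&
  decide (d'.kk ≤ d.kk) && decide (d'.nn * 1000 * d.rr ≤ 2 ^ 90 * d.kk) &&
  decide ((evI tx 1 * evI d.x 1 + evI ty 1 * evI d.y 1 - S0 * evI d'.x 0).natAbs * 2 ^ 75 ≤ S0 * SS) &&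
  decide ((evI tx 1 * evI d.y 1 - evI ty 1 * evI d.x 1 - S0 * evI d'.y 0).natAbs * 2 ^ 75 ≤ S0 * SS) &&
  decide ((evI tx 1 * evI (dd d.x) 1 + evI ty 1 * evI (dd d.y) 1 - S0 * evI (dd d'.x) 0).natAbs * 2 ^ 75 ≤ S0 * SS) &&
  decide ((evI tx 1 * evI (dd d.y) 1 - evI ty 1 * evI (dd d.x) 1 - S0 * evI (dd d'.y) 0).natAbs * 2 ^ 75 ≤ S0 * SS) &&
  decide (nrm d.x + nrm d.y ≤ 16 * SS) && decide (nrm (dd d.x) + nrm (dd d.y) ≤ 16 * SS)

end Pool.Agent.H99.TB
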