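import Pool.Agent.H99.TB.TrDat

/-! From the checks of one step to the statement about the solution. -/

set_option autoImplicit false

namespace Pool.Agent.H99.TB

open Set Complex Pool.Agent.H99.TB.Poly

theorem SS_pos : (0:ℝ) < (SS : ℕ) := by norm_num [SS]
theorem S0_pos : (0:ℝ) < (S0 : ℕ) := by norm_num [S0]
theorem SS_eq : ((SS : ℕ) : ℝ) = 82 * (S0 : ℕ) := by norm_num [SS, S0]

theorem zz_p (x y : List ℤ) (s : ℝ) : zz 1 SS (add x (smul 19 tx)) (add y (smul 19 ty)) s =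
    zz 1 SS x y s + 19 / 82 * zz 1 S0 tx ty s := by
  rw [zz_add]
  congr 1
  have h0 := S0_pos
  apply Complex.ext
  · simp only [zz, ev_smul, mul_re]
    have e1 : (19 / 82 : ℂ).re = 19 / 82 := by norm_num
    have e2 : (19 / 82 : ℂ).im = 0 := by norm_num
    rw [e1, e2, SS_eq]
    push_cast
    field_simp
    ring
  · simp only [zz, ev_smul, mul_im]
    have e1 : (19 / 82 : ℂ).re = 19 / 82 := by norm_num
    have e2 : (19 / 82 : ℂ).im = 0 := by norm_num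
    rw [e1, e2, SS_eq]
    push_cast
    field_simp
    ring

theorem zz_q (x y : List ℤ) (s : ℝ) : zz 1 SS (add x (smul (-63) tx)) (add y (smul (-63) ty)) s =
    zz 1 SS x y s - 63 / 82 * zz 1 S0 tx ty s := by
  rw [zz_add, sub_eq_add_neg]
  congr 1
  have h0 := S0_pos
  apply Complex.ext
  · simp only [zz, ev_smul, mul_re, neg_re]
    have e1 : (63 / 82 : ℂ).re = 63 / 82 := by norm_num
    have e2 : (63 / 82 : ℂ).im = 0 := by norm_num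
    rw [e1, e2, SS_eq]
    push_cast
    field_simp
    ring
  · simp only [zz, ev_smul, mul_im, neg_im]
    have e1 : (63 / 82 : ℂ).re = 63 / 82 := by norm_num
    have e2 : (63 / 82 : ℂ).im = 0 := by norm_num
    rw [e1, e2, SS_eq]
    push_cast
    field_simp
    ring

theorem pair_sound {x g b : List ℤ} {S r rr : ℕ} {X : ℤ} (hX : 0 < X) (hS0 : 0 < S) (hrr : 0 < rr) (hr : 450000 ≤ r)
    (hb : okPair false 80 1 1 S X x g b = true)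
    (hp : pos b * (r * rr + 10 ^ 6) * (2 ^ 50 + 1) ≤ S * 10 ^ 6 * rr * 2 ^ 50) {s : ℝ} (h0 : 0 ≤ s) (h1 : s ≤ 1) :
    (r / 10 ^ 6 : ℝ) + (1 / rr + 1 / 2 ^ 77) ≤ ‖zz 1 S x g s‖ ∧
    ‖(((ev b s / S) ^ 3 : ℝ) : ℂ) * zz 1 S x g s - kep (zz 1 S x g s)‖ ≤ 1 / 2 ^ 74 := by
  have hS : (0:ℝ) < S := by exact_mod_cast hS0
  have q1 := okPair_sound hX hS0 (by norm_num) hb h0 h1
  have q2 : 0 < ev b s / S := div_pos (headPos_sound (okPair_head hb) h0 h1) hS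
  have q3 : ev b s / S ≤ pos b / S := by gcongr; exact ev_le_pos b h0 h1
  have q4 : |(ev b s / S) ^ 2 * ‖zz 1 S x g s‖ ^ 2 - 1| ≤ 1 / 2 ^ 80 := by
    rw [zz_norm_sq]
    simpa [wt] using q1
  have hrrR : (0:ℝ) < rr := by exact_mod_cast hrr
  have hrR : (450000:ℝ) ≤ r := by exact_mod_cast hr
  have hpR : (pos b : ℝ) * (r * rr + 10 ^ 6) * (2 ^ 50 + 1) ≤ S * 10 ^ 6 * rr * 2 ^ 50 := by exact_mod_cast hp
  set A : ℝ := pos b / S with hA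
  have hA0 : 0 < A := q2.trans_le q3
  have hA1 : A * ((r / 10 ^ 6 : ℝ) + 1 / rr) * (1 + 1 / 2 ^ 50) ≤ 1 := by
    have : A * ((r / 10 ^ 6 : ℝ) + 1 / rr) * (1 + 1 / 2 ^ 50) =
        ((pos b : ℝ) * (r * rr + 10 ^ 6) * (2 ^ 50 + 1)) / (S * 10 ^ 6 * rr * 2 ^ 50) := by
      rw [hA]; field_simp
    rw [this, div_le_one (by positivity)]
    exact hpR
  have hA2 : A ≤ 5 / 2 := by
    by_contra hcon
    push Not at hcon
    have : (1:ℝ) < A * ((r / 10 ^ 6 : ℝ) + 1 / rr) * (1 + 1 / 2 ^ 50) := by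
      have e1 : (450000 / 10 ^ 6 : ℝ) ≤ (r / 10 ^ 6 : ℝ) + 1 / rr := by
        have : (0:ℝ) < 1 / rr := by positivity
        have h2 : (450000 / 10 ^ 6 : ℝ) ≤ (r / 10 ^ 6 : ℝ) := by gcongr
        linarith
      calc (1:ℝ) < (5/2) * (450000 / 10 ^ 6) * 1 := by norm_num
        _ ≤ A * ((r / 10 ^ 6 : ℝ) + 1 / rr) * (1 + 1 / 2 ^ 50) := by
          gcongr
          · norm_num
    linarith
  obtain ⟨k1, k2⟩ := kep_approx q2 (q3.trans le_rfl) (by positivity) (by norm_num) q4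
  constructor
  · refine le_trans ?_ k1
    rw [le_div_iff₀ hA0]
    have e1 : (450000 / 10 ^ 6 : ℝ) ≤ (r / 10 ^ 6 : ℝ) + 1 / rr := by
      have : (0:ℝ) < 1 / rr := by positivity
      have h2 : (450000 / 10 ^ 6 : ℝ) ≤ (r / 10 ^ 6 : ℝ) := by gcongr
      linarith
    set ρ : ℝ := (r / 10 ^ 6 : ℝ) + 1 / rr with hρ
    have e2 : (r / 10 ^ 6 : ℝ) + (1 / rr + 1 / 2 ^ 77) = ρ + 1 / 2 ^ 77 := by rw [hρ]; ring
    rw [e2]
    have e3 : ρ + 1 / 2 ^ 77 ≤ ρ * (1 + 1 / 2 ^ 70) := by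
      have : (1 / 2 ^ 77 : ℝ) ≤ (450000 / 10 ^ 6) * (1 / 2 ^ 70) := by norm_num
      nlinarith
    have e4 : (ρ * (1 + 1 / 2 ^ 70)) * A ≤ (1 + 1 / 2 ^ 70) / (1 + 1 / 2 ^ 50) := by
      rw [le_div_iff₀ (by positivity)]
      nlinarith
    calc (ρ + 1 / 2 ^ 77) * A ≤ (ρ * (1 + 1 / 2 ^ 70)) * A := by gcongr
      _ ≤ (1 + 1 / 2 ^ 70) / (1 + 1 / 2 ^ 50) := e4
      _ ≤ 1 - 1 / 2 ^ 80 := by norm_num
  · refine k2.trans ?_
    have : A ^ 2 ≤ (5/2) ^ 2 := by gcongr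
    calc 8 * (1 / 2 ^ 80) * A ^ 2 ≤ 8 * (1 / 2 ^ 80) * (5/2) ^ 2 := by gcongr
      _ ≤ 1 / 2 ^ 74 := by norm_num

theorem XX_pos : (0:ℤ) < XX := by unfold XX; positivity
theorem SS_pos' : 0 < SS := by unfold SS; positivity

theorem okS_sound {d : TD} (h : okS d = true) : (∀ s : ℝ, 0 ≤ s → s ≤ 1 →
    (d.r1 / 10 ^ 6 : ℝ) + (1 / d.rr + 1 / 2 ^ 77) ≤ ‖zz 1 SS d.x d.y s + 19 / 82 * zz 1 S0 tx ty s‖ ∧
    (d.r2 / 10 ^ 6 : ℝ) + (1 / d.rr + 1 / 2 ^ 77) ≤ ‖zz 1 SS d.x d.y s - 63 / 82 * zz 1 S0 tx ty s‖ ∧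
    ‖zz 1 SS (dd (dd d.x)) (dd (dd d.y)) s - rfld kep (zz 1 SS d.x d.y s) (zz 1 S0 tx ty s)‖ ≤ 1 / 2 ^ 73) ∧
    2 * (63 / 82 / (d.r1 / 10 ^ 6 : ℝ) ^ 3 + 19 / 82 / (d.r2 / 10 ^ 6 : ℝ) ^ 3) ≤ (d.kk / 1000 : ℝ) ^ 2 ∧
    450000 ≤ d.r1 ∧ 450000 ≤ d.r2 ∧ 0 < d.rr ∧ 0 < d.kk ∧ d.kk ≤ 3000 := by
  simp only [okS, Bool.and_eq_true, decide_eq_true_eq] at h
  obtain ⟨⟨⟨⟨⟨⟨⟨⟨⟨⟨⟨p1, p2⟩, q1⟩, q2⟩, c1⟩, c2⟩, c3⟩, c4⟩, c5⟩, c6⟩, c7⟩, c8⟩ := h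
  refine ⟨?_, ?_, c4, c5, c6, c7, c8⟩
  · intro s h0 h1
    obtain ⟨a1, b1⟩ := pair_sound XX_pos SS_pos' c6 c4 p1 c1 h0 h1
    obtain ⟨a2, b2⟩ := pair_sound XX_pos SS_pos' c6 c5 p2 c2 h0 h1
    have s1 := okRes_sound XX_pos SS_pos' (by norm_num) (by norm_num) q1 h0 h1
    have s2 := okRes_sound XX_pos SS_pos' (by norm_num) (by norm_num) q2 h0 h1
    rw [zz_p] at a1 b1
    rw [zz_q] at a2 b2
    refine ⟨a1, a2, ?_⟩
    set β1 := ev d.b1 s / (SS : ℕ) with hβ1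
    set β2 := ev d.b2 s / (SS : ℕ) with hβ2
    simp only [ev_nil, zero_div, ne_eq, OfNat.ofNat_ne_zero, not_false_eq_true, zero_pow, zero_mul,
      zero_sub, wt, Bool.false_eq_true, if_false, Nat.cast_one, one_mul, Nat.cast_ofNat] at s1 s2
    have hp := zz_p d.x d.y s
    have hq := zz_q d.x d.y s
    set P := zz 1 SS d.x d.y s with hP
    set T := zz 1 S0 tx ty s with hT
    set Y : ℂ := -(63 / 82 * (((β1 ^ 3 : ℝ) : ℂ) * (P + 19 / 82 * T)) +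
      19 / 82 * (((β2 ^ 3 : ℝ) : ℂ) * (P - 63 / 82 * T))) with hY
    have r1 : (63 / 82 : ℂ).re = 63 / 82 := by norm_num
    have r2 : (63 / 82 : ℂ).im = 0 := by norm_num
    have r3 : (19 / 82 : ℂ).re = 19 / 82 := by norm_num
    have r4 : (19 / 82 : ℂ).im = 0 := by norm_num
    have y1 : ‖zz 1 SS (dd (dd d.x)) (dd (dd d.y)) s - Y‖ ≤ 1 / 2 ^ 76 + 1 / 2 ^ 76 := by
      apply norm_le_of_parts
      · have : (zz 1 SS (dd (dd d.x)) (dd (dd d.y)) s - Y).re = ev (dd (dd d.x)) s / (SS : ℕ) -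
            (-(63 / 82) * (β1 ^ 3 * (ev (add d.x (smul 19 tx)) s / (SS : ℕ))) +
              19 / 82 * -(β2 ^ 3 * (ev (add d.x (smul (-63) tx)) s / (SS : ℕ)))) := by
          rw [hY, ← hp, ← hq]
          simp only [sub_re, neg_re, add_re, mul_re, r1, r2, r3, r4, ofReal_re, ofReal_im, zz]
          ring
        rw [this]; exact s1
      · have : (zz 1 SS (dd (dd d.x)) (dd (dd d.y)) s - Y).im = ev (dd (dd d.y)) s / (SS : ℕ) -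
            (-(63 / 82) * (β1 ^ 3 * (ev (add d.y (smul 19 ty)) s / (SS : ℕ))) +
              19 / 82 * -(β2 ^ 3 * (ev (add d.y (smul (-63) ty)) s / (SS : ℕ)))) := by
          rw [hY, ← hp, ← hq]
          simp only [sub_im, neg_im, add_im, mul_im, r1, r2, r3, r4, ofReal_re, ofReal_im, zz]
          ring
        rw [this]; exact s2
    have y2 : ‖Y - rfld kep P T‖ ≤ 1 / 2 ^ 74 := by
      have : Y - rfld kep P T = -(63 / 82 * (((β1 ^ 3 : ℝ) : ℂ) * (P + 19 / 82 * T) - kep (P + 19 / 82 * T)) +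
          19 / 82 * (((β2 ^ 3 : ℝ) : ℂ) * (P - 63 / 82 * T) - kep (P - 63 / 82 * T))) := by
        rw [hY, rfld]; ring
      have n1 : ‖(63 / 82 : ℂ)‖ = 63 / 82 := by norm_num
      have n2 : ‖(19 / 82 : ℂ)‖ = 19 / 82 := by norm_num
      rw [this, norm_neg]
      refine (norm_add_le _ _).trans ?_
      rw [norm_mul, norm_mul, n1, n2]
      linarith
    have y3 := norm_sub_le_norm_sub_add_norm_sub (zz 1 SS (dd (dd d.x)) (dd (dd d.y)) s) Y (rfld kep P T)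
    have y4 : (1 / 2 ^ 76 + 1 / 2 ^ 76 : ℝ) + 1 / 2 ^ 74 ≤ 1 / 2 ^ 73 := by norm_num
    linarith
  · have hr1 : (0:ℝ) < d.r1 := by exact_mod_cast (by omega : 0 < d.r1)
    have hr2 : (0:ℝ) < d.r2 := by exact_mod_cast (by omega : 0 < d.r2)
    have c3' : (2 * 10 ^ 24 * (63 * d.r2 ^ 3 + 19 * d.r1 ^ 3) : ℝ) ≤ 82 * d.kk ^ 2 * d.r1 ^ 3 * d.r2 ^ 3 := by
      exact_mod_cast c3
    have : 2 * (63 / 82 / (d.r1 / 10 ^ 6 : ℝ) ^ 3 + 19 / 82 / (d.r2 / 10 ^ 6 : ℝ) ^ 3) =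
        (2 * 10 ^ 24 * (63 * d.r2 ^ 3 + 19 * d.r1 ^ 3)) / (82 * d.r1 ^ 3 * d.r2 ^ 3 * 10 ^ 6) := by
      field_simp
    rw [this, div_le_iff₀ (by positivity)]
    calc (2 * 10 ^ 24 * (63 * d.r2 ^ 3 + 19 * d.r1 ^ 3) : ℝ) ≤ 82 * d.kk ^ 2 * d.r1 ^ 3 * d.r2 ^ 3 := c3'
      _ = _ := by ring

theorem ker_rot {ε : ℝ} {c : ℂ} (hc : ‖c‖ = 1) (z : ℂ) : ker ε (c * z) = c * ker ε z := by
  rw [ker, ker, norm_mul, hc, one_mul]; ring

theorem rfld_rot {ε : ℝ} {c : ℂ} (hc : ‖c‖ = 1) (x e : ℂ) :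
    rfld (ker ε) (c * x) (c * e) = c * rfld (ker ε) x e := by
  have e1 : c * x + 19 / 82 * (c * e) = c * (x + 19 / 82 * e) := by ring
  have e2 : c * x - 63 / 82 * (c * e) = c * (x - 63 / 82 * e) := by ring
  rw [rfld, rfld, e1, e2, ker_rot hc, ker_rot hc]
  ring

/-- closeness to the node data -/
def Inv (d : TD) (X Y : ℂ) : Prop :=
  (d.kk / 1000 : ℝ) * ‖X - zz 1 SS d.x d.y 0‖ ≤ d.nn / 2 ^ 90 ∧
    ‖Y - zz 1 SS (dd d.x) (dd d.y) 0‖ ≤ d.nn / 2 ^ 90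

theorem growth {n n' k : ℕ} (hk : k ≤ 3000) (h : (n + 2 ^ 25) * 1024000 ^ 256 ≤ n' * (1024000 - k) ^ 256) :
    ((n : ℝ) + 2 ^ 25) * Real.exp (k / 1000 / 4) ≤ n' := by
  have hkR : (k : ℝ) ≤ 3000 := by exact_mod_cast hk
  obtain ⟨D, hD⟩ : ∃ D : ℕ, D = 1024000 := ⟨_, rfl⟩
  obtain ⟨M, hM⟩ : ∃ M : ℕ, M = 256 := ⟨_, rfl⟩
  rw [← hD, ← hM] at h
  have hDR : (D : ℝ) = 1024000 := by rw [hD]; norm_num
  have hMR : (M : ℝ) = 256 := by rw [hM]; norm_num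
  have hD0 : (0:ℝ) < D := by rw [hDR]; norm_num
  set x : ℝ := k / D with hx
  have hx1 : x ≤ 3000 / 1024000 := by rw [hx, hDR]; gcongr
  have h1 : ((n : ℝ) + 2 ^ 25) * (D : ℝ) ^ M ≤ n' * ((D : ℝ) - k) ^ M := by
    have : ((D - k : ℕ) : ℝ) = D - k := by
      rw [Nat.cast_sub (by omega)]
    rw [← this]
    exact_mod_cast h
  have h2 : ((n : ℝ) + 2 ^ 25) ≤ n' * (1 - x) ^ M := by
    have e : ((D : ℝ) - (k : ℝ)) = D * (1 - x) := by rw [hx]; field_simp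
    rw [e, mul_pow] at h1
    have hp : (0:ℝ) < (D : ℝ) ^ M := by positivity
    refine le_of_mul_le_mul_right ?_ hp
    refine h1.trans (le_of_eq ?_)
    rw [mul_assoc, mul_comm ((D : ℝ) ^ M)]
  have h3 : (1 - x) ^ M ≤ Real.exp (-x) ^ M := by
    apply pow_le_pow_left₀
    · linarith
    · exact Real.one_sub_le_exp_neg x
  have h4 : Real.exp (-x) ^ M * Real.exp (k / 1000 / 4) = 1 := by
    rw [← Real.exp_nat_mul, ← Real.exp_add, Real.exp_eq_one_iff, hx, hMR, hDR]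
    ring
  calc ((n : ℝ) + 2 ^ 25) * Real.exp (k / 1000 / 4) ≤ (n' * (1 - x) ^ M) * Real.exp (k / 1000 / 4) := by gcongr
    _ ≤ (n' * Real.exp (-x) ^ M) * Real.exp (k / 1000 / 4) := by gcongr
    _ = n' := by rw [mul_assoc, h4, mul_one]

end Pool.Agent.H99.TB
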