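import Pool.Agent.H99.TB.TrLink

/-! One link of the chain. -/

set_option autoImplicit false

namespace Pool.Agent.H99.TB

open Set Complex Pool.Agent.H99.TB.Poly

theorem jump {x y x' y' : List ℤ} {Z ω : ℂ} {N : ℝ} (hω : ‖ω‖ = 1)
    (hT : ‖ω - starRingEnd ℂ (zz 1 S0 tx ty 1)‖ ≤ 1 / 2 ^ 77)
    (h1 : (evI tx 1 * evI x 1 + evI ty 1 * evI y 1 - S0 * evI x' 0).natAbs * 2 ^ 75 ≤ S0 * SS)
    (h2 : (evI tx 1 * evI y 1 - evI ty 1 * evI x 1 - S0 * evI y' 0).natAbs * 2 ^ 75 ≤ S0 * SS)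
    (h3 : nrm x + nrm y ≤ 16 * SS) (hZ : ‖Z - zz 1 SS x y 1‖ ≤ N) :
    ‖ω * Z - zz 1 SS x' y' 0‖ ≤ N + 1 / 2 ^ 72 := by
  have hS := SS_pos
  have hS0 := S0_pos
  have n1 : ‖zz 1 SS x y 1‖ ≤ 16 := by
    refine (norm_zz_le hS x y (by norm_num) le_rfl).trans ?_
    rw [div_le_iff₀ hS]
    exact_mod_cast h3
  have e1 : ω * Z - zz 1 SS x' y' 0 = ω * (Z - zz 1 SS x y 1) +
      ((ω - starRingEnd ℂ (zz 1 S0 tx ty 1)) * zz 1 SS x y 1 +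
      (starRingEnd ℂ (zz 1 S0 tx ty 1) * zz 1 SS x y 1 - zz 1 SS x' y' 0)) := by ring
  have e2 : ‖starRingEnd ℂ (zz 1 S0 tx ty 1) * zz 1 SS x y 1 - zz 1 SS x' y' 0‖ ≤ 1 / 2 ^ 75 + 1 / 2 ^ 75 := by
    have bnd : ∀ v : ℤ, v.natAbs * 2 ^ 75 ≤ S0 * SS → |(v : ℝ) / (S0 * SS)| ≤ 1 / 2 ^ 75 := by
      intro v hv
      rw [abs_div, abs_of_pos (by positivity : (0:ℝ) < S0 * SS), div_le_div_iff₀ (by positivity) (by positivity)]
      have : (v.natAbs : ℝ) = |(v : ℝ)| := by rw [Nat.cast_natAbs]; simp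
      rw [← this, one_mul]
      exact_mod_cast hv
    apply norm_le_of_parts
    · have : (starRingEnd ℂ (zz 1 S0 tx ty 1) * zz 1 SS x y 1 - zz 1 SS x' y' 0).re =
          ((evI tx 1 * evI x 1 + evI ty 1 * evI y 1 - S0 * evI x' 0 : ℤ) : ℝ) / (S0 * SS) := by
        simp only [zz, sub_re, mul_re, conj_re, conj_im, ev_one', ev_zero']
        push_cast
        field_simp
        ring
      rw [this]; exact bnd _ h1
    · have : (starRingEnd ℂ (zz 1 S0 tx ty 1) * zz 1 SS x y 1 - zz 1 SS x' y' 0).im =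
          ((evI tx 1 * evI y 1 - evI ty 1 * evI x 1 - S0 * evI y' 0 : ℤ) : ℝ) / (S0 * SS) := by
        simp only [zz, sub_im, mul_im, conj_re, conj_im, ev_one', ev_zero']
        push_cast
        field_simp
        ring
      rw [this]; exact bnd _ h2
  rw [e1]
  refine (norm_add_le _ _).trans ?_
  have e3 := norm_add_le ((ω - starRingEnd ℂ (zz 1 S0 tx ty 1)) * zz 1 SS x y 1)
      (starRingEnd ℂ (zz 1 S0 tx ty 1) * zz 1 SS x y 1 - zz 1 SS x' y' 0)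
  have e4 : ‖(ω - starRingEnd ℂ (zz 1 S0 tx ty 1)) * zz 1 SS x y 1‖ ≤ 1 / 2 ^ 77 * 16 := by
    rw [norm_mul]; gcongr
  have e5 : ‖ω * (Z - zz 1 SS x y 1)‖ ≤ N := by rw [norm_mul, hω, one_mul]; exact hZ
  have e6 : (1 / 2 ^ 77 * 16 : ℝ) + (1 / 2 ^ 75 + 1 / 2 ^ 75) ≤ 1 / 2 ^ 72 := by norm_num
  linarith

theorem norm_cexp_neg (t : ℝ) : ‖cexp (-(I * t))‖ = 1 := by
  have : -(I * (t:ℂ)) = ((-t : ℝ) : ℂ) * I := by push_cast; ring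
  rw [this, norm_exp_ofReal_mul_I]

theorem link {x y th : ℝ → ℂ}
    (hx : ∀ t ∈ Icc (0:ℝ) 20, HasDerivAt x (y t) t)
    (hy : ∀ t ∈ Icc (0:ℝ) 20, HasDerivAt y (rfld (ker (1/4)) (x t) (cexp (I * t)) + th t) t)
    (hth : ∀ t ∈ Icc (0:ℝ) 20, ‖th t‖ ≤ 1 / 10 ^ 20) {t0 : ℝ} (h0 : 0 ≤ t0) (h1 : t0 + 1 / 4 ≤ 20)
    {d d' : TD} (h : (okS d && okJ d d') = true)
    (inv : Inv d (cexp (-(I * t0)) * x t0) (cexp (-(I * t0)) * y t0)) :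
    (∀ t ∈ Icc t0 (t0 + 1 / 4), 9 / 20 ≤ ‖x t + 19 / 82 * cexp (I * t)‖ ∧ 9 / 20 ≤ ‖x t - 63 / 82 * cexp (I * t)‖) ∧
    Inv d' (cexp (-(I * ((t0 + 1 / 4 : ℝ) : ℂ))) * x (t0 + 1 / 4))
      (cexp (-(I * ((t0 + 1 / 4 : ℝ) : ℂ))) * y (t0 + 1 / 4)) := by
  rw [Bool.and_eq_true] at h
  obtain ⟨hS, hJ⟩ := h
  obtain ⟨k1, k2, k3, k4, k5, k6, k7⟩ := okS_sound hS
  simp only [okJ, Bool.and_eq_true, decide_eq_true_eq] at hJ
  obtain ⟨⟨⟨⟨⟨⟨⟨⟨j1, j2⟩, j3⟩, j4⟩, j5⟩, j6⟩, j7⟩, j8⟩, j9⟩ := hJ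
  set c : ℂ := cexp (-(I * t0)) with hc
  have hcn : ‖c‖ = 1 := norm_cexp_neg t0
  have hrot : ∀ τ : ℝ, c * cexp (I * ((t0 + τ : ℝ) : ℂ)) = cexp (I * τ) := by
    intro τ
    rw [hc, ← Complex.exp_add]
    congr 1
    push_cast
    ring
  have mem : ∀ τ ∈ Icc (0:ℝ) (1/4), t0 + τ ∈ Icc (0:ℝ) 20 := fun τ hτ => ⟨by linarith [hτ.1], by linarith [hτ.2]⟩
  have hkk : (0:ℝ) < d.kk := by exact_mod_cast k6
  have hkk3 : (d.kk : ℝ) ≤ 3000 := by exact_mod_cast k7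
  have hrr : (0:ℝ) < d.rr := by exact_mod_cast k5
  have r1' : (450000:ℝ) ≤ d.r1 := by exact_mod_cast k3
  have r2' : (450000:ℝ) ≤ d.r2 := by exact_mod_cast k4
  have g := growth k7 j1
  have hexp : 1 ≤ Real.exp ((d.kk : ℝ) / 1000 / 4) := Real.one_le_exp (by positivity)
  have g2 : ((d.nn : ℝ) / 2 ^ 90 + (1 / 2 ^ 64) / 4) * Real.exp ((d.kk : ℝ) / 1000 / 4) ≤
      d'.nn / 2 ^ 90 - 1 / 2 ^ 66 := by
    have e1 : ((d.nn : ℝ) / 2 ^ 90 + (1 / 2 ^ 64) / 4) = (d.nn + 2 ^ 24) / 2 ^ 90 := by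
      rw [add_div]; norm_num
    have e2 : (d'.nn : ℝ) / 2 ^ 90 - 1 / 2 ^ 66 = (d'.nn - 2 ^ 24) / 2 ^ 90 := by
      rw [sub_div]; norm_num
    rw [e1, e2, div_mul_eq_mul_div]
    apply div_le_div_of_nonneg_right _ (by positivity)
    nlinarith
  have g3 : (d'.nn : ℝ) / 2 ^ 90 ≤ (d.kk : ℝ) / 1000 * (1 / d.rr) := by
    have j3' : (d'.nn : ℝ) * 1000 * d.rr ≤ 2 ^ 90 * d.kk := by exact_mod_cast j3
    have : (d.kk : ℝ) / 1000 * (1 / d.rr) = d.kk / (1000 * d.rr) := by field_simp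
    rw [this, div_le_div_iff₀ (by positivity) (by positivity)]
    calc (d'.nn : ℝ) * (1000 * d.rr) = d'.nn * 1000 * d.rr := by ring
      _ ≤ 2 ^ 90 * d.kk := j3'
      _ = d.kk * 2 ^ 90 := by ring
  have m00 : ∀ τ ∈ Icc (0:ℝ) (1/4), 0 ≤ 4 * τ ∧ 4 * τ ≤ 1 := fun τ hτ => ⟨by linarith [hτ.1], by linarith [hτ.2]⟩
  have st := tstep (X := fun τ => c * x (t0 + τ)) (Y := fun τ => c * y (t0 + τ)) (Θ := fun τ => c * th (t0 + τ))
    (P := fun τ => zz 1 SS d.x d.y (4 * τ)) (Pd := fun τ => zz 1 SS (dd d.x) (dd d.y) (4 * τ))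
    (Pdd := fun τ => zz 1 SS (dd (dd d.x)) (dd (dd d.y)) (4 * τ)) (Tt := fun τ => zz 1 S0 tx ty (4 * τ))
    (κ := d.kk / 1000) (R := 1 / d.rr) (r1 := d.r1 / 10 ^ 6) (r2 := d.r2 / 10 ^ 6) (n0 := d.nn / 2 ^ 90)
    (c' := 1 / 2 ^ 64) (cT := 1 / 2 ^ 77) (δ1 := 1 / 2 ^ 73)
    (fun τ hτ => ((hx (t0 + τ) (mem τ hτ)).comp_const_add t0 τ).const_mul c)
    (fun τ hτ => by
      have e := ((hy (t0 + τ) (mem τ hτ)).comp_const_add t0 τ).const_mul c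
      have e2 : rfld (ker (1/4)) (c * x (t0 + τ)) (cexp (I * τ)) + c * th (t0 + τ) =
          c * (rfld (ker (1/4)) (x (t0 + τ)) (cexp (I * ((t0 + τ : ℝ) : ℂ))) + th (t0 + τ)) := by
        rw [← hrot τ, rfld_rot hcn]; ring
      rw [e2]
      exact e)
    (fun τ hτ => by
      show ‖c * th (t0 + τ)‖ ≤ _
      rw [norm_mul, hcn, one_mul]; exact hth _ (mem τ hτ))
    (fun τ => hasDerivAt_zz _ _ _ τ) (fun τ => hasDerivAt_zz _ _ _ τ)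
    (by positivity) (by positivity) (by positivity) T_close
    (fun τ hτ => (k1 _ (m00 τ hτ).1 (m00 τ hτ).2).1) (fun τ hτ => (k1 _ (m00 τ hτ).1 (m00 τ hτ).2).2.1)
    (by rw [le_div_iff₀ (by positivity)]; linarith) (by rw [le_div_iff₀ (by positivity)]; linarith) k2
    (fun τ hτ => (k1 _ (m00 τ hτ).1 (m00 τ hτ).2).2.2)
    (by
      have : ((d.kk : ℝ) / 1000) ^ 2 ≤ 3 ^ 2 := by
        apply pow_le_pow_left₀ (by positivity)
        linarith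
      calc (1 / 2 ^ 73 : ℝ) + (d.kk / 1000 : ℝ) ^ 2 * (1 / 2 ^ 77) + 1 / 10 ^ 20 ≤
            (1 / 2 ^ 73 : ℝ) + 3 ^ 2 * (1 / 2 ^ 77) + 1 / 10 ^ 20 := by gcongr
        _ < 1 / 2 ^ 64 := by norm_num)
    (by
      have : (0:ℝ) < 1 / 2 ^ 66 := by positivity
      linarith)
    (by simpa using inv.1) (by simpa using inv.2)
  constructor
  · intro t ht
    obtain ⟨-, -, s3, s4⟩ := st (t - t0) ⟨by linarith [ht.1], by linarith [ht.2]⟩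
    have e0 : t0 + (t - t0) = t := by ring
    have e1 : cexp (I * ((t - t0 : ℝ) : ℂ)) = c * cexp (I * t) := by
      rw [← hrot (t - t0), e0]
    simp only [e0, e1] at s3 s4
    have e2 : c * x t + 19 / 82 * (c * cexp (I * t)) = c * (x t + 19 / 82 * cexp (I * t)) := by ring
    have e3 : c * x t - 63 / 82 * (c * cexp (I * t)) = c * (x t - 63 / 82 * cexp (I * t)) := by ring
    rw [e2, norm_mul, hcn, one_mul] at s3
    rw [e3, norm_mul, hcn, one_mul] at s4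
    have q1 : (9 / 20 : ℝ) ≤ d.r1 / 10 ^ 6 := by rw [le_div_iff₀ (by positivity)]; linarith
    have q2 : (9 / 20 : ℝ) ≤ d.r2 / 10 ^ 6 := by rw [le_div_iff₀ (by positivity)]; linarith
    exact ⟨q1.trans s3, q2.trans s4⟩
  · obtain ⟨s1, s2, -, -⟩ := st (1/4) ⟨by norm_num, le_rfl⟩
    have e4 : (4 * (1 / 4) : ℝ) = 1 := by norm_num
    simp only [e4] at s1 s2
    set ω : ℂ := cexp (-(I * ((1 / 4 : ℝ) : ℂ))) with hω
    have hωn : ‖ω‖ = 1 := norm_cexp_neg _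
    have hωc : cexp (-(I * ((t0 + 1 / 4 : ℝ) : ℂ))) = ω * c := by
      rw [hω, hc, ← Complex.exp_add]
      congr 1
      push_cast
      ring
    have hT : ‖ω - starRingEnd ℂ (zz 1 S0 tx ty 1)‖ ≤ 1 / 2 ^ 77 := by
      have t1 := T_close (1/4) ⟨by norm_num, le_rfl⟩
      rw [e4] at t1
      have e5 : ω = starRingEnd ℂ (cexp (I * ((1 / 4 : ℝ) : ℂ))) := by
        rw [← Complex.exp_conj, map_mul, conj_I, conj_ofReal, hω]
        congr 1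
        ring
      rw [e5, ← map_sub, Complex.norm_conj, norm_sub_rev]
      exact t1
    have hkk' : (d'.kk : ℝ) ≤ d.kk := by exact_mod_cast j2
    have f1 := jump (Z := c * x (t0 + 1/4)) hωn hT j4 j5 j8 le_rfl
    have f2 := jump (Z := c * y (t0 + 1/4)) hωn hT j6 j7 j9 le_rfl
    rw [hωc, mul_assoc, mul_assoc]
    constructor
    · have : (d'.kk / 1000 : ℝ) * ‖ω * (c * x (t0 + 1 / 4)) - zz 1 SS d'.x d'.y 0‖ ≤
          (d.kk / 1000 : ℝ) * (‖c * x (t0 + 1/4) - zz 1 SS d.x d.y 1‖ + 1 / 2 ^ 72) := by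
        gcongr
      refine this.trans ?_
      have f3 : (d.kk / 1000 : ℝ) * (1 / 2 ^ 72) ≤ 3 * (1 / 2 ^ 72) := by
        gcongr
        linarith
      have f4 : 3 * (1 / 2 ^ 72) ≤ (1 / 2 ^ 66 : ℝ) := by norm_num
      rw [mul_add]
      linarith
    · refine f2.trans ?_
      have f4 : (1 / 2 ^ 72) ≤ (1 / 2 ^ 66 : ℝ) := by norm_num
      linarith

end Pool.Agent.H99.TB
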