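import Pool.Agent.H99.TB.TrLink2
import Pool.Agent.H99.TB.TrChk0
import Pool.Agent.H99.TB.TrChk1
import Pool.Agent.H99.TB.TrChk2
import Pool.Agent.H99.TB.TrChk3

/-! The chain of all steps. -/

set_option autoImplicit false

namespace Pool.Agent.H99.TB

open Set Complex Pool.Agent.H99.TB.Poly

def good : List TD → Prop
  | [] => True
  | [_] => True
  | a :: b :: l => (okS a && okJ a b) = true ∧ good (b :: l)

def lastD : TD → List TD → TD
  | d, [] => d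
  | _, b :: l => lastD b l

theorem run {x y th : ℝ → ℂ}
    (hx : ∀ t ∈ Icc (0:ℝ) 20, HasDerivAt x (y t) t)
    (hy : ∀ t ∈ Icc (0:ℝ) 20, HasDerivAt y (rfld (ker (1/4)) (x t) (cexp (I * t)) + th t) t)
    (hth : ∀ t ∈ Icc (0:ℝ) 20, ‖th t‖ ≤ 1 / 10 ^ 20) (l : List TD) : ∀ (d : TD) (t0 : ℝ), 0 ≤ t0 →
      t0 + (l.length : ℝ) / 4 ≤ 20 → good (d :: l) →
      Inv d (cexp (-(I * t0)) * x t0) (cexp (-(I * t0)) * y t0) →
      (l ≠ [] → ∀ t ∈ Icc t0 (t0 + (l.length : ℝ) / 4),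
        9 / 20 ≤ ‖x t + 19 / 82 * cexp (I * t)‖ ∧ 9 / 20 ≤ ‖x t - 63 / 82 * cexp (I * t)‖) ∧
      Inv (lastD d l) (cexp (-(I * ((t0 + (l.length : ℝ) / 4 : ℝ) : ℂ))) * x (t0 + (l.length : ℝ) / 4))
        (cexp (-(I * ((t0 + (l.length : ℝ) / 4 : ℝ) : ℂ))) * y (t0 + (l.length : ℝ) / 4)) := by
  induction l with
  | nil =>
    intro d t0 h0 h1 hg inv
    refine ⟨fun h => absurd rfl h, ?_⟩
    simpa [lastD] using inv
  | cons b l ih =>
    intro d t0 h0 h1 hg inv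
    obtain ⟨g1, g2⟩ := hg
    have hlen : (((b :: l).length : ℕ) : ℝ) = l.length + 1 := by simp
    rw [hlen] at h1 ⊢
    have hl0 : (0:ℝ) ≤ l.length := by positivity
    obtain ⟨a1, a2⟩ := link hx hy hth h0 (by linarith) g1 inv
    obtain ⟨b1, b2⟩ := ih b (t0 + 1 / 4) (by linarith) (by linarith) g2 a2
    have e : t0 + 1 / 4 + (l.length : ℝ) / 4 = t0 + ((l.length : ℝ) + 1) / 4 := by ring
    rw [e] at b1 b2
    refine ⟨fun _ t ht => ?_, b2⟩
    by_cases hc : t ≤ t0 + 1 / 4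
    · exact a1 t ⟨ht.1, hc⟩
    · push Not at hc
      have hne : l ≠ [] := by
        rintro rfl
        simp at ht
        linarith [ht.2]
      exact b1 hne t ⟨hc.le, ht.2⟩

def nodesList : List TD := [n1, n2, n3, n4, n5, n6, n7, n8, n9, n10, n11, n12, n13, n14, n15, n16, n17, n18, n19, n20, n21, n22, n23, n24, n25, n26, n27, n28, n29, n30, n31, n32, n33, n34, n35, n36, n37, n38, n39, n40, n41, n42, n43, n44, n45, n46, n47, n48, n49, n50, n51, n52, n53, n54, n55, n56, n57, n58, n59, n60, n61, n62, n63, n64, n65, n66, n67, n68, n69, n70, n71, n72, n73, n74, n75, n76, n77, n78, n79, n80]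

theorem good_all : good (n0 :: nodesList) :=
  ⟨c0, c1, c2, c3, c4, c5, c6, c7, c8, c9, c10, c11, c12, c13, c14, c15, c16, c17, c18, c19, c20, c21, c22, c23, c24, c25, c26, c27, c28, c29, c30, c31, c32, c33, c34, c35, c36, c37, c38, c39, c40, c41, c42, c43, c44, c45, c46, c47, c48, c49, c50, c51, c52, c53, c54, c55, c56, c57, c58, c59, c60, c61, c62, c63, c64, c65, c66, c67, c68, c69, c70, c71, c72, c73, c74, c75, c76, c77, c78, c79, trivial⟩

theorem main {x y th : ℝ → ℂ}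
    (hx : ∀ t ∈ Icc (0:ℝ) 20, HasDerivAt x (y t) t)
    (hy : ∀ t ∈ Icc (0:ℝ) 20, HasDerivAt y (rfld (ker (1/4)) (x t) (cexp (I * t)) + th t) t)
    (hth : ∀ t ∈ Icc (0:ℝ) 20, ‖th t‖ ≤ 1 / 10 ^ 20) (inv : Inv n0 (x 0) (y 0)) :
    (∀ t ∈ Icc (0:ℝ) 20, 9 / 20 ≤ ‖x t + 19 / 82 * cexp (I * t)‖ ∧ 9 / 20 ≤ ‖x t - 63 / 82 * cexp (I * t)‖) ∧
    Inv n80 (cexp (-(I * ((20 : ℝ) : ℂ))) * x 20) (cexp (-(I * ((20 : ℝ) : ℂ))) * y 20) := by
  have hlen : nodesList.length = 80 := rfl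
  have hl : lastD n0 nodesList = n80 := rfl
  have h := run hx hy hth nodesList n0 0 le_rfl (by rw [hlen]; norm_num) good_all (by simpa using inv)
  rw [hlen, hl] at h
  have e : (0:ℝ) + ((80 : ℕ) : ℝ) / 4 = 20 := by norm_num
  rw [e] at h
  exact ⟨h.1 (by simp [nodesList]), h.2⟩

end Pool.Agent.H99.TB
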