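import Pool.Agent.H99.TB.Fieldc

/-! One step of the validated integration of the restricted problem. -/

set_option autoImplicit false

namespace Pool.Agent.H99.TB

open Set Complex Pool.Agent.H99.TB.Poly

/-- the field of the restricted problem (mass ratio 19/82), `e` the unit vector from body 1 to body 2 -/
noncomputable def rfld (k : ℂ → ℂ) (x e : ℂ) : ℂ := -(63 / 82 * k (x + 19 / 82 * e) + 19 / 82 * k (x - 63 / 82 * e))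

theorem rfld_lip {r1 r2 cT : ℝ} (hr1 : 0 < r1) (hr2 : 0 < r2) (x y e f : ℂ) (he : ‖e - f‖ ≤ cT)
    (h1 : r1 ≤ ‖x + 19 / 82 * e‖) (h2 : r2 ≤ ‖x - 63 / 82 * e‖) (h3 : r1 ≤ ‖y + 19 / 82 * f‖)
    (h4 : r2 ≤ ‖y - 63 / 82 * f‖) : ‖rfld kep x e - rfld kep y f‖ ≤
      2 * (63 / 82 / r1 ^ 3 + 19 / 82 / r2 ^ 3) * (‖x - y‖ + cT) := by
  have n1 : ‖(63 / 82 : ℂ)‖ = 63 / 82 := by norm_num
  have n2 : ‖(19 / 82 : ℂ)‖ = 19 / 82 := by norm_num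
  have hc : 0 ≤ cT := (norm_nonneg _).trans he
  have e1 : rfld kep x e - rfld kep y f = -(63 / 82 * (kep (x + 19 / 82 * e) - kep (y + 19 / 82 * f)) +
      19 / 82 * (kep (x - 63 / 82 * e) - kep (y - 63 / 82 * f))) := by
    unfold rfld; ring
  rw [e1, norm_neg]
  refine (norm_add_le _ _).trans ?_
  rw [norm_mul, norm_mul, n1, n2]
  have l1 := kep_lip hr1 h1 h3
  have l2 := kep_lip hr2 h2 h4
  have d1 : ‖x + 19 / 82 * e - (y + 19 / 82 * f)‖ ≤ ‖x - y‖ + cT := by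
    have : x + 19 / 82 * e - (y + 19 / 82 * f) = (x - y) + 19 / 82 * (e - f) := by ring
    rw [this]
    refine (norm_add_le _ _).trans ?_
    rw [norm_mul, n2]
    nlinarith [norm_nonneg (e - f)]
  have d2 : ‖x - 63 / 82 * e - (y - 63 / 82 * f)‖ ≤ ‖x - y‖ + cT := by
    have : x - 63 / 82 * e - (y - 63 / 82 * f) = (x - y) - 63 / 82 * (e - f) := by ring
    rw [this]
    refine (norm_sub_le _ _).trans ?_
    rw [norm_mul, n1]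
    nlinarith [norm_nonneg (e - f)]
  have m1 : ‖kep (x + 19 / 82 * e) - kep (y + 19 / 82 * f)‖ ≤ 2 / r1 ^ 3 * (‖x - y‖ + cT) :=
    l1.trans (mul_le_mul_of_nonneg_left d1 (by positivity))
  have m2 : ‖kep (x - 63 / 82 * e) - kep (y - 63 / 82 * f)‖ ≤ 2 / r2 ^ 3 * (‖x - y‖ + cT) :=
    l2.trans (mul_le_mul_of_nonneg_left d2 (by positivity))
  calc 63 / 82 * ‖kep (x + 19 / 82 * e) - kep (y + 19 / 82 * f)‖ +
        19 / 82 * ‖kep (x - 63 / 82 * e) - kep (y - 63 / 82 * f)‖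
      ≤ 63 / 82 * (2 / r1 ^ 3 * (‖x - y‖ + cT)) + 19 / 82 * (2 / r2 ^ 3 * (‖x - y‖ + cT)) := by gcongr
    _ = _ := by ring

theorem tstep {X Y Θ : ℝ → ℂ} (hX : ∀ τ ∈ Icc (0:ℝ) (1/4), HasDerivAt X (Y τ) τ)
    (hY : ∀ τ ∈ Icc (0:ℝ) (1/4), HasDerivAt Y (rfld (ker (1/4)) (X τ) (cexp (I * τ)) + Θ τ) τ)
    (hΘ : ∀ τ ∈ Icc (0:ℝ) (1/4), ‖Θ τ‖ ≤ 1 / 10 ^ 20)
    {P Pd Pdd Tt : ℝ → ℂ} (hP : ∀ τ, HasDerivAt P (Pd τ) τ) (hPd : ∀ τ, HasDerivAt Pd (Pdd τ) τ)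
    {κ R r1 r2 n0 c' cT δ1 : ℝ} (hκ : 0 < κ) (hn0 : 0 ≤ n0) (hc' : 0 ≤ c')
    (hT : ∀ τ ∈ Icc (0:ℝ) (1/4), ‖Tt τ - cexp (I * τ)‖ ≤ cT)
    (h1 : ∀ τ ∈ Icc (0:ℝ) (1/4), r1 + (R + cT) ≤ ‖P τ + 19 / 82 * Tt τ‖)
    (h2 : ∀ τ ∈ Icc (0:ℝ) (1/4), r2 + (R + cT) ≤ ‖P τ - 63 / 82 * Tt τ‖)
    (hr1 : 1 / 4 ≤ r1) (hr2 : 1 / 4 ≤ r2)
    (hL : 2 * (63 / 82 / r1 ^ 3 + 19 / 82 / r2 ^ 3) ≤ κ ^ 2)
    (hδ : ∀ τ ∈ Icc (0:ℝ) (1/4), ‖Pdd τ - rfld kep (P τ) (Tt τ)‖ ≤ δ1)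
    (hc : δ1 + κ ^ 2 * cT + 1 / 10 ^ 20 < c')
    (hN : (n0 + c' / 4) * Real.exp (κ / 4) ≤ κ * R)
    (h0 : κ * ‖X 0 - P 0‖ ≤ n0) (h0' : ‖Y 0 - Pd 0‖ ≤ n0) :
    ∀ τ ∈ Icc (0:ℝ) (1/4), κ * ‖X τ - P τ‖ ≤ (n0 + c' / 4) * Real.exp (κ / 4) ∧
      ‖Y τ - Pd τ‖ ≤ (n0 + c' / 4) * Real.exp (κ / 4) ∧ r1 ≤ ‖X τ + 19 / 82 * cexp (I * τ)‖ ∧
      r2 ≤ ‖X τ - 63 / 82 * cexp (I * τ)‖ := by
  set b : ℝ → ℝ := fun τ => (n0 + c' * τ) * Real.exp (κ * τ) with hb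
  have hbd : ∀ τ, HasDerivAt b (c' * Real.exp (κ * τ) + (n0 + c' * τ) * (Real.exp (κ * τ) * κ)) τ := by
    intro τ
    have e1 : HasDerivAt (fun τ : ℝ => n0 + c' * τ) c' τ := by
      simpa using ((hasDerivAt_id τ).const_mul c').const_add n0
    have e2 : HasDerivAt (fun τ : ℝ => Real.exp (κ * τ)) (Real.exp (κ * τ) * κ) τ := by
      have := ((hasDerivAt_id τ).const_mul κ)
      simp only [id, mul_one] at this
      exact this.exp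
    exact e1.mul e2
  have hbm : ∀ τ ∈ Icc (0:ℝ) (1/4), b τ ≤ (n0 + c' / 4) * Real.exp (κ / 4) := by
    intro τ hτ
    show (n0 + c' * τ) * Real.exp (κ * τ) ≤ _
    have e1 : n0 + c' * τ ≤ n0 + c' / 4 := by nlinarith [hτ.2]
    have e2 : Real.exp (κ * τ) ≤ Real.exp (κ / 4) := Real.exp_le_exp.2 (by nlinarith [hτ.2])
    have e3 : 0 ≤ n0 + c' / 4 := by positivity
    exact mul_le_mul e1 e2 (Real.exp_pos _).le e3
  have hgeo : ∀ τ ∈ Icc (0:ℝ) (1/4), ‖X τ - P τ‖ ≤ R →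
      r1 ≤ ‖X τ + 19 / 82 * cexp (I * τ)‖ ∧ r2 ≤ ‖X τ - 63 / 82 * cexp (I * τ)‖ := by
    intro τ hτ hR
    have n1 : ‖(63 / 82 : ℂ)‖ = 63 / 82 := by norm_num
    have n2 : ‖(19 / 82 : ℂ)‖ = 19 / 82 := by norm_num
    have t1 := hT τ hτ
    constructor
    · refine norm_ge_sub (h1 τ hτ) ?_
      have : X τ + 19 / 82 * cexp (I * τ) - (P τ + 19 / 82 * Tt τ) =
          (X τ - P τ) - 19 / 82 * (Tt τ - cexp (I * τ)) := by ring
      rw [this]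
      refine (norm_sub_le _ _).trans ?_
      rw [norm_mul, n2]
      nlinarith [norm_nonneg (Tt τ - cexp (I * τ))]
    · refine norm_ge_sub (h2 τ hτ) ?_
      have : X τ - 63 / 82 * cexp (I * τ) - (P τ - 63 / 82 * Tt τ) =
          (X τ - P τ) + 63 / 82 * (Tt τ - cexp (I * τ)) := by ring
      rw [this]
      refine (norm_add_le _ _).trans ?_
      rw [norm_mul, n1]
      nlinarith [norm_nonneg (Tt τ - cexp (I * τ))]
  set f : ℝ → ℂ × ℂ := fun τ => (κ • (X τ - P τ), Y τ - Pd τ) with hf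
  have hfn : ∀ τ, ‖f τ‖ = max (κ * ‖X τ - P τ‖) ‖Y τ - Pd τ‖ := by
    intro τ
    show max ‖κ • (X τ - P τ)‖ ‖Y τ - Pd τ‖ = _
    rw [norm_smul, Real.norm_of_nonneg hκ.le]
  set f' : ℝ → ℂ × ℂ := fun τ => (κ • (Y τ - Pd τ),
    rfld (ker (1/4)) (X τ) (cexp (I * τ)) + Θ τ - Pdd τ) with hf'
  have hfd : ∀ τ ∈ Icc (0:ℝ) (1/4), HasDerivAt f (f' τ) τ := fun τ hτ =>
    (((hX τ hτ).sub (hP τ)).const_smul κ).prodMk ((hY τ hτ).sub (hPd τ))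
  have key := image_norm_le_of_norm_deriv_right_lt_deriv_boundary' (f := f) (f' := f') (a := 0) (b := 1/4)
    (fun τ hτ => (hfd τ hτ).continuousAt.continuousWithinAt)
    (fun τ hτ => (hfd τ (Ico_subset_Icc_self hτ)).hasDerivWithinAt)
    (B := b) (B' := fun τ => c' * Real.exp (κ * τ) + (n0 + c' * τ) * (Real.exp (κ * τ) * κ))
    (by rw [hfn]; simpa [hb] using ⟨h0, h0'⟩) (fun τ _ => (hbd τ).continuousAt.continuousWithinAt)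
    (fun τ _ => (hbd τ).hasDerivWithinAt) ?_
  · intro τ hτ
    have k1 := key hτ
    rw [hfn] at k1
    have k2 := k1.trans (hbm τ hτ)
    have k3 := (le_max_left _ _).trans k2
    have k4 := (le_max_right _ _).trans k2
    refine ⟨k3, k4, hgeo τ hτ ?_⟩
    exact le_of_mul_le_mul_left (k3.trans hN) hκ
  · intro τ hτ heq
    have hτ' := Ico_subset_Icc_self hτ
    rw [hfn] at heq
    have hbt : b τ ≤ κ * R := (hbm τ hτ').trans hN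
    have e1 : κ * ‖X τ - P τ‖ ≤ b τ := heq ▸ le_max_left _ _
    have e2 : ‖Y τ - Pd τ‖ ≤ b τ := heq ▸ le_max_right _ _
    have e3 : ‖X τ - P τ‖ ≤ R := le_of_mul_le_mul_left (e1.trans hbt) hκ
    have hR0 : 0 ≤ R := (norm_nonneg _).trans e3
    have hcT : 0 ≤ cT := (norm_nonneg _).trans (hT τ hτ')
    obtain ⟨g1, g2⟩ := hgeo τ hτ' e3
    have g3 : r1 ≤ ‖P τ + 19 / 82 * Tt τ‖ := by linarith [h1 τ hτ']
    have g4 : r2 ≤ ‖P τ - 63 / 82 * Tt τ‖ := by linarith [h2 τ hτ']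
    have k1 : rfld (ker (1/4)) (X τ) (cexp (I * τ)) = rfld kep (X τ) (cexp (I * τ)) := by
      unfold rfld
      rw [ker_eq (hr1.trans g1), ker_eq (hr2.trans g2)]
    have lip := rfld_lip (cT := cT) (r1 := r1) (r2 := r2) (by linarith) (by linarith) (X τ) (P τ) (cexp (I * τ)) (Tt τ)
      (by rw [norm_sub_rev]; exact hT τ hτ') g1 g2 g3 g4
    have hb0 : 0 ≤ b τ := (norm_nonneg _).trans e2
    have hexp : 1 ≤ Real.exp (κ * τ) := Real.one_le_exp (mul_nonneg hκ.le hτ.1)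
    have hb' : κ * b τ + c' ≤ c' * Real.exp (κ * τ) + (n0 + c' * τ) * (Real.exp (κ * τ) * κ) := by
      have : κ * b τ = (n0 + c' * τ) * (Real.exp (κ * τ) * κ) := by rw [hb]; ring
      rw [this]
      nlinarith
    rw [hf']
    show max ‖κ • (Y τ - Pd τ)‖ ‖rfld (ker (1/4)) (X τ) (cexp (I * τ)) + Θ τ - Pdd τ‖ < _
    have hcpos : 0 < c' := by
      have h5 := (norm_nonneg _).trans (hδ τ hτ')
      have : 0 ≤ κ ^ 2 * cT := by positivity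
      have h6 : (0:ℝ) < 1 / 10 ^ 20 := by positivity
      linarith
    refine max_lt ?_ ?_
    · rw [norm_smul, Real.norm_of_nonneg hκ.le]
      have : κ * ‖Y τ - Pd τ‖ ≤ κ * b τ := by gcongr
      linarith
    · rw [k1]
      have e7 : rfld kep (X τ) (cexp (I * τ)) + Θ τ - Pdd τ =
          (rfld kep (X τ) (cexp (I * τ)) - rfld kep (P τ) (Tt τ)) + Θ τ - (Pdd τ - rfld kep (P τ) (Tt τ)) := by ring
      rw [e7]
      have t1 := norm_sub_le ((rfld kep (X τ) (cexp (I * τ)) - rfld kep (P τ) (Tt τ)) + Θ τ)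
        (Pdd τ - rfld kep (P τ) (Tt τ))
      have t2 := norm_add_le (rfld kep (X τ) (cexp (I * τ)) - rfld kep (P τ) (Tt τ)) (Θ τ)
      have t3 := hδ τ hτ'
      have t4 := hΘ τ hτ'
      have t5 : 2 * (63 / 82 / r1 ^ 3 + 19 / 82 / r2 ^ 3) * (‖X τ - P τ‖ + cT) ≤
          κ ^ 2 * (‖X τ - P τ‖ + cT) := mul_le_mul_of_nonneg_right hL (by positivity)
      have t6 : κ ^ 2 * (‖X τ - P τ‖ + cT) = κ * (κ * ‖X τ - P τ‖) + κ ^ 2 * cT := by ring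
      have t7 : κ * (κ * ‖X τ - P τ‖) ≤ κ * b τ := by gcongr
      linarith

end Pool.Agent.H99.TB
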